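import Mathlib

set_option autoImplicit false

/-!
# Project CX (MP_558536_al): even sign vectors and the standard subgroups of `PSL`
-/

namespace Pool.Agent.Lib.MP_558536_al_CX

open Equiv

universe u v w

/-- Sign vectors of length `n` with product `1`. -/
def Ev (n : ℕ) : Subgroup (Fin n → ℤˣ) where
  carrier := {v | ∏ i, v i = 1}
  mul_mem' := by
    intro a b ha hb
    simp only [Set.mem_ofPred_eq, Pi.mul_apply, Finset.prod_mul_distrib] at *
    rw [ha, hb, one_mul]
  one_mem' := by simp
  inv_mem' := by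
    intro a ha
    simp only [Set.mem_ofPred_eq, Pi.inv_apply, Finset.prod_inv_distrib] at *
    rw [ha, inv_one]

instance (n : ℕ) : Finite (Ev n) := Subtype.finite

theorem Ev.mem_iff {n : ℕ} (v : Fin n → ℤˣ) : v ∈ Ev n ↔ ∏ i, v i = 1 := Iff.rfl

theorem Ev.mul_self {n : ℕ} (v : Ev n) : v * v = 1 := by
  apply Subtype.ext
  funext i
  simp [Int.units_mul_self]

theorem Ev.comm {n : ℕ} (v w : Ev n) : v * w = w * v := mul_comm v w

/-- Permuting the coordinates of an even sign vector: `(pm σ v) (σ i) = v i`. -/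
def pm {n : ℕ} (σ : Perm (Fin n)) (v : Ev n) : Ev n :=
  ⟨fun i => v.1 (σ.symm i), by
    rw [Ev.mem_iff]
    rw [Equiv.prod_comp σ.symm (fun i => v.1 i)]
    exact v.2⟩

theorem pm_apply {n : ℕ} (σ : Perm (Fin n)) (v : Ev n) (i : Fin n) :
    (pm σ v).1 i = v.1 (σ.symm i) := rfl

theorem pm_mul {n : ℕ} (σ τ : Perm (Fin n)) (v : Ev n) : pm (σ * τ) v = pm σ (pm τ v) := rfl

theorem pm_one {n : ℕ} (v : Ev n) : pm 1 v = v := rfl

theorem pm_map_mul {n : ℕ} (σ : Perm (Fin n)) (v w : Ev n) : pm σ (v * w) = pm σ v * pm σ w := rfl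

/-- The unit `±1` of the field `F` given by a sign. -/
def sg (F : Type*) [Field F] : ℤˣ →* F :=
  (Int.castRingHom F).toMonoidHom.comp (Units.coeHom ℤ)

theorem sg_apply (F : Type*) [Field F] (u : ℤˣ) : sg F u = ((u : ℤ) : F) := rfl

theorem sg_mul_self (F : Type*) [Field F] (u : ℤˣ) : sg F u * sg F u = 1 := by
  rw [← map_mul, Int.units_mul_self, map_one]

theorem sg_ne_zero (F : Type*) [Field F] (u : ℤˣ) : sg F u ≠ 0 := by
  intro h
  have := sg_mul_self F u
  rw [h, mul_zero] at this
  exact zero_ne_one this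

theorem sg_injective {F : Type*} [Field F] (h2 : (2 : F) ≠ 0) : Function.Injective (sg F) := by
  intro a b h
  rcases Int.units_eq_one_or a with rfl | rfl <;> rcases Int.units_eq_one_or b with rfl | rfl
  · rfl
  · exfalso; apply h2
    simp only [sg_apply, Units.val_one, Int.cast_one, Units.val_neg, Int.cast_neg] at h
    linear_combination h
  · exfalso; apply h2
    simp only [sg_apply, Units.val_one, Int.cast_one, Units.val_neg, Int.cast_neg] at h
    linear_combination -h
  · rfl

/-- The diagonal matrix of an even sign vector. -/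
def dg {n : ℕ} (F : Type*) [Field F] : Ev n →* Matrix.SpecialLinearGroup (Fin n) F where
  toFun v := ⟨Matrix.diagonal (fun i => sg F (v.1 i)), by
    rw [Matrix.det_diagonal, ← map_prod, (Ev.mem_iff v.1).1 v.2, map_one]⟩
  map_one' := by
    apply Subtype.ext
    simp
  map_mul' v w := by
    apply Subtype.ext
    simp [Matrix.diagonal_mul_diagonal]

theorem dg_coe {n : ℕ} (F : Type*) [Field F] (v : Ev n) :
    ((dg F v : Matrix.SpecialLinearGroup (Fin n) F) : Matrix (Fin n) (Fin n) F) =
      Matrix.diagonal (fun i => sg F (v.1 i)) := rfl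

/-- The projective special linear group. -/
abbrev PSL (n : ℕ) (F : Type*) [Field F] := Matrix.ProjectiveSpecialLinearGroup (Fin n) F

/-- The projection to the projective special linear group. -/
def pr {n : ℕ} {F : Type*} [Field F] : Matrix.SpecialLinearGroup (Fin n) F →* PSL n F :=
  QuotientGroup.mk' _

theorem pr_surjective {n : ℕ} {F : Type*} [Field F] :
    Function.Surjective (pr : Matrix.SpecialLinearGroup (Fin n) F →* PSL n F) :=
  QuotientGroup.mk'_surjective _

theorem pr_eq_iff {n : ℕ} {F : Type*} [Field F] {a b : Matrix.SpecialLinearGroup (Fin n) F} :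
    pr a = pr b ↔ a⁻¹ * b ∈ Subgroup.center (Matrix.SpecialLinearGroup (Fin n) F) :=
  QuotientGroup.eq

theorem pr_eq_one_iff {n : ℕ} {F : Type*} [Field F] {a : Matrix.SpecialLinearGroup (Fin n) F} :
    pr a = 1 ↔ a ∈ Subgroup.center (Matrix.SpecialLinearGroup (Fin n) F) :=
  QuotientGroup.eq_one_iff a

/-- Elements of the centre have `n`-th power `1`. -/
theorem center_pow {n : ℕ} {F : Type*} [Field F] {a : Matrix.SpecialLinearGroup (Fin n) F}
    (ha : a ∈ Subgroup.center (Matrix.SpecialLinearGroup (Fin n) F)) : a ^ n = 1 := by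
  obtain ⟨r, hr, hr'⟩ := Matrix.SpecialLinearGroup.mem_center_iff.1 ha
  apply Subtype.ext
  rw [Matrix.SpecialLinearGroup.coe_pow, ← hr', ← map_pow]
  rw [Fintype.card_fin] at hr
  rw [hr, map_one]
  rfl

/-- `sign(σ)` times the permutation matrix of `σ`. -/
def spM {n : ℕ} (F : Type*) [Field F] (σ : Perm (Fin n)) : Matrix (Fin n) (Fin n) F :=
  Matrix.of fun i j => if i = σ j then sg F (Perm.sign σ) else 0

theorem spM_apply {n : ℕ} (F : Type*) [Field F] (σ : Perm (Fin n)) (i j : Fin n) :
    spM F σ i j = if i = σ j then sg F (Perm.sign σ) else 0 := rfl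

theorem spM_mul {n : ℕ} (F : Type*) [Field F] (σ τ : Perm (Fin n)) :
    spM F (σ * τ) = spM F σ * spM F τ := by
  ext i j
  rw [Matrix.mul_apply, Finset.sum_eq_single (τ j)]
  · simp only [spM_apply, if_true, map_mul, Perm.mul_apply]
    split_ifs <;> simp
  · intro b _ hb
    rw [spM_apply F τ, if_neg hb, mul_zero]
  · intro h
    exact absurd (Finset.mem_univ _) h

theorem spM_one {n : ℕ} (F : Type*) [Field F] : spM F (1 : Perm (Fin n)) = 1 := by
  ext i j
  simp [spM_apply, Matrix.one_apply]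

theorem det_spM {n : ℕ} (hn : Odd n) (F : Type*) [Field F] (σ : Perm (Fin n)) :
    (spM F σ).det = 1 := by
  have e : spM F σ = (sg F (Perm.sign σ)) • (σ⁻¹ : Perm (Fin n)).permMatrix F := by
    ext i j
    rw [spM_apply, Matrix.smul_apply, Equiv.Perm.permMatrix, PEquiv.toMatrix_apply]
    simp only [Equiv.toPEquiv_apply, Option.mem_def, Option.some.injEq, smul_eq_mul,
      mul_ite, mul_one, mul_zero]
    congr 1
    rw [Perm.inv_eq_iff_eq]
  rw [e, Matrix.det_smul, Matrix.det_permutation, Fintype.card_fin, Perm.sign_inv]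
  have h1 : sg F (Perm.sign σ) ^ n = sg F (Perm.sign σ) := by
    obtain ⟨k, rfl⟩ := hn
    rw [pow_succ, pow_mul, pow_two, sg_mul_self, one_pow, one_mul]
  rw [h1, ← sg_apply, sg_mul_self]

/-- `sign(σ)` times the permutation matrix of `σ` (determinant `1` for odd `n`). -/
def sp {n : ℕ} (hn : Odd n) (F : Type*) [Field F] :
    Perm (Fin n) →* Matrix.SpecialLinearGroup (Fin n) F where
  toFun σ := ⟨spM F σ, det_spM hn F σ⟩
  map_one' := Subtype.ext (spM_one F)
  map_mul' σ τ := Subtype.ext (spM_mul F σ τ)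

theorem sp_coe {n : ℕ} (hn : Odd n) (F : Type*) [Field F] (σ : Perm (Fin n)) :
    ((sp hn F σ : Matrix.SpecialLinearGroup (Fin n) F) : Matrix (Fin n) (Fin n) F) = spM F σ :=
  rfl

/-- Signed permutation matrices. -/
def SignedPerm {n : ℕ} {F : Type*} [Field F] (A : Matrix (Fin n) (Fin n) F) : Prop :=
  ∃ (σ : Perm (Fin n)) (ε : Fin n → ℤˣ), ∀ i j, A i j = if i = σ j then sg F (ε j) else 0

end Pool.Agent.Lib.MP_558536_al_CX
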