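import Mathlib

set_option autoImplicit false

/-!
# Project CX (MP_558536_al): elementwise Coxeter relations

`n ≥ 4` throughout (`hn`).  `Y` is a group with a homomorphism `φ : S_n → Y` and sets `I i j` of
involutions containing the image of the transposition `(i j)`, such that the elements of the sets
satisfy the Coxeter relations of the symmetric group elementwise.  We write `s i j = φ (i j)`.

A *family* is a function `a : Fin n → Fin n → Y` with `a i j * s i j ∈ I i j` (`i ≠ j`) and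
`φ σ (a i j) (φ σ)⁻¹ = a (σ i) (σ j)`.  Every `α` with `α * s i j ∈ I i j` belongs to a family.
`P i j` is the subgroup generated by the `(i, j)` members of all families, and `D i` is the
subgroup of all `x` lying in all `P i j` (`j ≠ i`) and commuting with all `s k l`, `b k l`
with `k, l ≠ i`.
-/

namespace Pool.Agent.Lib.MP_558536_al_CX

open Equiv

universe u

/-- Elementwise Coxeter relations. -/
structure CoxData (Y : Type u) [Group Y] (n : ℕ) where
  /-- at least four points -/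
  hn : 4 ≤ n
  /-- the symmetric group -/
  φ : Perm (Fin n) →* Y
  /-- the classes of involutions -/
  I : Fin n → Fin n → Set Y
  symm : ∀ i j, I i j = I j i
  h1 : ∀ i j, i ≠ j → φ (swap i j) ∈ I i j
  h2 : ∀ i j (σ : Perm (Fin n)) (x : Y), i ≠ j → x ∈ I i j → φ σ * x * (φ σ)⁻¹ ∈ I (σ i) (σ j)
  h3 : ∀ i j (x : Y), i ≠ j → x ∈ I i j → x * x = 1
  h4 : ∀ i j k l (x y : Y), i ≠ j → k ≠ l → i ≠ k → i ≠ l → j ≠ k → j ≠ l →
    x ∈ I i j → y ∈ I k l → x * y = y * x
  h5 : ∀ i j k (x y : Y), i ≠ j → j ≠ k → i ≠ k →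
    x ∈ I i j → y ∈ I j k → x * y * x = y * x * y
  h6 : ∀ i j k (x y : Y), i ≠ j → j ≠ k → i ≠ k →
    x ∈ I i j → y ∈ I j k → x * y * x ∈ I i k

namespace CoxData

variable {Y : Type u} [Group Y] {n : ℕ} (C : CoxData Y n)

/-- The image of a transposition. -/
def s (i j : Fin n) : Y := C.φ (swap i j)

/-- The coherent families. -/
structure Fam (a : Fin n → Fin n → Y) : Prop where
  mem : ∀ i j, i ≠ j → a i j * C.s i j ∈ C.I i j
  conj : ∀ i j (σ : Perm (Fin n)), i ≠ j → C.φ σ * a i j * (C.φ σ)⁻¹ = a (σ i) (σ j)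

/-- The subgroup generated by the `(i, j)` members of the families. -/
def P (i j : Fin n) : Subgroup Y := Subgroup.closure {x | ∃ a, C.Fam a ∧ x = a i j}

/-- The central part at `i`. -/
def D (i : Fin n) : Subgroup Y where
  carrier := {x | (∀ j, j ≠ i → x ∈ C.P i j) ∧
    (∀ k l, k ≠ i → l ≠ i → k ≠ l → x * C.s k l = C.s k l * x) ∧
    (∀ k l, k ≠ i → l ≠ i → k ≠ l → ∀ b, C.Fam b → x * b k l = b k l * x)}
  mul_mem' := by
    rintro x y ⟨hx1, hx2, hx3⟩ ⟨hy1, hy2, hy3⟩
    refine ⟨fun j hj => mul_mem (hx1 j hj) (hy1 j hj), fun k l hk hl hkl => ?_,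
      fun k l hk hl hkl b hb => ?_⟩
    · rw [mul_assoc, hy2 k l hk hl hkl, ← mul_assoc, hx2 k l hk hl hkl, mul_assoc]
    · rw [mul_assoc, hy3 k l hk hl hkl b hb, ← mul_assoc, hx3 k l hk hl hkl b hb, mul_assoc]
  one_mem' := ⟨fun j _ => one_mem _, fun k l _ _ _ => by simp, fun k l _ _ _ b _ => by simp⟩
  inv_mem' := by
    rintro x ⟨hx1, hx2, hx3⟩
    refine ⟨fun j hj => inv_mem (hx1 j hj), fun k l hk hl hkl => ?_,
      fun k l hk hl hkl b hb => ?_⟩
    · exact (Commute.inv_left (hx2 k l hk hl hkl : Commute x (C.s k l)))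
    · exact (Commute.inv_left (hx3 k l hk hl hkl b hb : Commute x (b k l)))

/-- The subgroup generated by all `D i`. -/
def DD : Subgroup Y := ⨆ i, C.D i

/-- The subgroup `R₀` generated by all `x * s i j`, `x ∈ I i j`. -/
def R : Subgroup Y := Subgroup.closure {r | ∃ i j, i ≠ j ∧ ∃ x ∈ C.I i j, r = x * C.s i j}

theorem mem_D {i : Fin n} {x : Y} : x ∈ C.D i ↔ (∀ j, j ≠ i → x ∈ C.P i j) ∧
    (∀ k l, k ≠ i → l ≠ i → k ≠ l → x * C.s k l = C.s k l * x) ∧
    (∀ k l, k ≠ i → l ≠ i → k ≠ l → ∀ b, C.Fam b → x * b k l = b k l * x) := Iff.rfl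

theorem s_mul_self (i j : Fin n) : C.s i j * C.s i j = 1 := by
  unfold s
  rw [← map_mul, swap_mul_self, map_one]

theorem s_comm (i j : Fin n) : C.s i j = C.s j i := by
  unfold s
  rw [swap_comm]

/-- For every pair, triple, … of indices there is a further index (`4 ≤ n`). -/
theorem exists_ne3 (C : CoxData Y n) (i j k : Fin n) : ∃ l, l ≠ i ∧ l ≠ j ∧ l ≠ k := by
  have h : ({i, j, k} : Finset (Fin n)).card < Fintype.card (Fin n) := by
    rw [Fintype.card_fin]
    exact lt_of_le_of_lt Finset.card_le_three (by have := C.hn; omega)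
  obtain ⟨l, hl⟩ : ∃ l, l ∉ ({i, j, k} : Finset (Fin n)) := by
    by_contra hcon
    push Not at hcon
    have : ({i, j, k} : Finset (Fin n)) = Finset.univ := Finset.eq_univ_iff_forall.2 hcon
    rw [this, Finset.card_univ] at h
    exact lt_irrefl _ h
  simp only [Finset.mem_insert, Finset.mem_singleton, not_or] at hl
  exact ⟨l, hl.1, hl.2.1, hl.2.2⟩

end CoxData

end Pool.Agent.Lib.MP_558536_al_CX
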