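import Mathlib
import Pool.Agent.Lib.MP_558536_al_CX.CoxDef

set_option autoImplicit false

/-!
# Project CX, module CoxA: every element with `α * s i j ∈ I i j` belongs to a family

Proof of `commute_phi_of_fix`.  A permutation `σ` fixing `i` and `j` is
`Equiv.Perm.ofSubtype (σ.subtypePerm _)` for the predicate `p k := k ≠ i ∧ k ≠ j`
(`Equiv.Perm.ofSubtype_subtypePerm`), so it suffices to show that `φ (ofSubtype τ)` commutes with
`α` for every `τ : Perm {k // p k}`; use `Equiv.Perm.swap_induction_on τ`, `map_mul` and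
`Equiv.Perm.ofSubtype_swap_eq` (or prove `ofSubtype (swap a b) = swap a b` by `ext`).  For a
transposition `(k l)` disjoint from `i, j`: `s k l ∈ I k l` (`h1`) commutes with
`x = α * s i j ∈ I i j` and with `s i j ∈ I i j` by `h4`, hence with `α = x * s i j`
(`s_mul_self`).

Proof of `exists_fam`.  For `k ≠ l` choose a permutation `σ k l` with `σ i = k`, `σ j = l`
(exists: e.g. `swap i k` followed by a transposition; or
`Equiv.Perm.exists_extending_pair` / `Function.Embedding` extension); put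
`a k l = φ (σ k l) * α * (φ (σ k l))⁻¹` for `k ≠ l`, and `a k k = 1`.  By `commute_phi_of_fix`, for
every `τ` with `τ i = k`, `τ j = l` we have `φ τ * α * (φ τ)⁻¹ = a k l` (`(σ k l)⁻¹ * τ` fixes
`i` and `j`).  Coherence follows; membership from `h2` and
`φ τ * s i j * (φ τ)⁻¹ = s (τ i) (τ j)` (lemma `phi_s`, from `Equiv.swap_apply_apply` or
`Equiv.mul_swap_eq_swap_mul`).
-/

namespace Pool.Agent.Lib.MP_558536_al_CX

open Equiv

universe u

namespace CoxData

variable {Y : Type u} [Group Y] {n : ℕ} (C : CoxData Y n)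

theorem phi_s (σ : Perm (Fin n)) (i j : Fin n) :
    C.φ σ * C.s i j * (C.φ σ)⁻¹ = C.s (σ i) (σ j) := by
  unfold s
  rw [← map_inv, ← map_mul, ← map_mul]
  congr 1
  rw [Equiv.swap_apply_apply]

/-- A transposition fixing `i` and `j` commutes with `α`. -/
private theorem comm_swap {i j : Fin n} (hij : i ≠ j) {α : Y} (hα : α * C.s i j ∈ C.I i j)
    {k l : Fin n} (hkl : k ≠ l) (hki : k ≠ i) (hkj : k ≠ j) (hli : l ≠ i) (hlj : l ≠ j) :
    Commute (C.φ (swap k l)) α := by
  have hk := C.h1 k l hkl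
  have e1 : Commute (C.φ (swap k l)) (α * C.s i j) :=
    C.h4 k l i j _ _ hkl hij hki hkj hli hlj hk hα
  have e2 : Commute (C.φ (swap k l)) (C.s i j) :=
    C.h4 k l i j _ _ hkl hij hki hkj hli hlj hk (C.h1 i j hij)
  have e3 : α = α * C.s i j * C.s i j := by rw [mul_assoc, C.s_mul_self, mul_one]
  rw [e3]
  exact e1.mul_right e2

theorem commute_phi_of_fix {i j : Fin n} (hij : i ≠ j) {α : Y} (hα : α * C.s i j ∈ C.I i j)
    (σ : Perm (Fin n)) (hi : σ i = i) (hj : σ j = j) : C.φ σ * α = α * C.φ σ := by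
  have key : ∀ τ : Perm {k : Fin n // k ≠ i ∧ k ≠ j},
      Commute (C.φ (Perm.ofSubtype τ)) α := by
    intro τ
    induction τ using Equiv.Perm.swap_induction_on with
    | one =>
      rw [map_one, map_one]
      exact Commute.one_left _
    | swap_mul f x y hxy ih =>
      rw [map_mul, map_mul, Perm.ofSubtype_swap_eq]
      have hne : (x : Fin n) ≠ y := fun h => hxy (Subtype.ext h)
      exact (C.comm_swap hij hα hne x.2.1 x.2.2 y.2.1 y.2.2).mul_left ih
  have hp : ∀ k, (k ≠ i ∧ k ≠ j) ↔ (σ k ≠ i ∧ σ k ≠ j) := by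
    intro k
    have h1 : σ k = i ↔ k = i := by
      constructor
      · intro h
        exact σ.injective (h.trans hi.symm)
      · rintro rfl
        exact hi
    have h2 : σ k = j ↔ k = j := by
      constructor
      · intro h
        exact σ.injective (h.trans hj.symm)
      · rintro rfl
        exact hj
    rw [Ne, Ne, Ne, Ne, h1, h2]
  have hσ : Perm.ofSubtype (σ.subtypePerm (p := fun k => k ≠ i ∧ k ≠ j) (fun k => (hp k).symm)) =
      σ := by
    apply Perm.ofSubtype_subtypePerm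
    intro k hk
    constructor
    · rintro rfl
      exact hk hi
    · rintro rfl
      exact hk hj
  rw [← hσ]
  exact key _

/-- Conjugation depends only on the images of `i` and `j`. -/
private theorem conj_eq {i j : Fin n} (hij : i ≠ j) {α : Y} (hα : α * C.s i j ∈ C.I i j)
    {σ τ : Perm (Fin n)} (hi : σ i = τ i) (hj : σ j = τ j) :
    C.φ σ * α * (C.φ σ)⁻¹ = C.φ τ * α * (C.φ τ)⁻¹ := by
  have h := C.commute_phi_of_fix hij hα (τ⁻¹ * σ) (by simp [hi]) (by simp [hj])
  rw [map_mul, map_inv] at h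
  have h2 : C.φ σ * α = C.φ τ * α * ((C.φ τ)⁻¹ * C.φ σ) := by
    rw [mul_assoc (C.φ τ) α, ← h]
    group
  rw [h2]
  group

/-- There is a permutation with prescribed values at two points. -/
private theorem exists_perm {i j k l : Fin n} (hij : i ≠ j) (hkl : k ≠ l) :
    ∃ σ : Perm (Fin n), σ i = k ∧ σ j = l := by
  refine ⟨swap (swap i k j) l * swap i k, ?_, ?_⟩
  · rw [Perm.mul_apply, swap_apply_left]
    refine swap_apply_of_ne_of_ne ?_ hkl
    intro h
    have h2 : swap i k i = swap i k j := by rw [swap_apply_left]; exact h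
    exact hij ((swap i k).injective h2)
  · rw [Perm.mul_apply, swap_apply_left]

theorem exists_fam {i j : Fin n} (hij : i ≠ j) {α : Y} (hα : α * C.s i j ∈ C.I i j) :
    ∃ a, C.Fam a ∧ a i j = α := by
  classical
  choose σ hσi hσj using fun (k l : Fin n) (h : k ≠ l) => exists_perm (i := i) (j := j) hij h
  have key : ∀ (τ : Perm (Fin n)) (h : τ i ≠ τ j),
      C.φ (σ (τ i) (τ j) h) * α * (C.φ (σ (τ i) (τ j) h))⁻¹ = C.φ τ * α * (C.φ τ)⁻¹ :=
    fun τ h => C.conj_eq hij hα (hσi _ _ h) (hσj _ _ h)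
  refine ⟨fun k l => if h : k ≠ l then C.φ (σ k l h) * α * (C.φ (σ k l h))⁻¹ else 1,
    ⟨?_, ?_⟩, ?_⟩
  · intro k l hkl
    simp only [dif_pos hkl]
    have h1 := C.h2 i j (σ k l hkl) _ hij hα
    rw [hσi, hσj] at h1
    have h2 := C.phi_s (σ k l hkl) i j
    rw [hσi, hσj] at h2
    rw [← h2]
    have h3 : C.φ (σ k l hkl) * α * (C.φ (σ k l hkl))⁻¹ *
        (C.φ (σ k l hkl) * C.s i j * (C.φ (σ k l hkl))⁻¹) =
        C.φ (σ k l hkl) * (α * C.s i j) * (C.φ (σ k l hkl))⁻¹ := by group
    rw [h3]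
    exact h1
  · intro k l τ hkl
    have hne : τ k ≠ τ l := fun h => hkl (τ.injective h)
    simp only [dif_pos hkl, dif_pos hne]
    have h1 : C.φ τ * (C.φ (σ k l hkl) * α * (C.φ (σ k l hkl))⁻¹) * (C.φ τ)⁻¹ =
        C.φ (τ * σ k l hkl) * α * (C.φ (τ * σ k l hkl))⁻¹ := by
      rw [map_mul]
      group
    rw [h1]
    exact C.conj_eq hij hα (by rw [Perm.mul_apply, hσi, hσi]) (by rw [Perm.mul_apply, hσj, hσj])
  · simp only [dif_pos hij]
    have h1 := C.conj_eq hij hα (σ := σ i j hij) (τ := 1) (by rw [hσi]; rfl) (by rw [hσj]; rfl)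
    rw [h1, map_one]
    simp

end CoxData

end Pool.Agent.Lib.MP_558536_al_CX
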