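import Mathlib
import Pool.Agent.Lib.MP_558536_al_CX.CoxDef

set_option autoImplicit false

/-!
# Project CX, module CoxB: the basic relations of a family

Write `s = s i j` etc.; `x = a i j * s i j ∈ I i j` is an involution (`h3`).

* `fam_inv`: `a j i = φ (swap i j) * a i j * (φ (swap i j))⁻¹ = s * a i j * s` (coherence for
  `σ = swap i j`); since `a i j = x * s` (`x * x = 1`, `s * s = 1`), `s * a i j * s = s * x
  = (x * s)⁻¹`.
* `fam_rev`: `a j i * s i j = s * x ... `: precisely `a j i = s * x`, so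
  `a j i * s = s * x * s = φ (swap i j) * x * (φ (swap i j))⁻¹ ∈ I j i = I i j` (`h2`, `symm`).
* `fam_split`: take `x = a i j * s i j ∈ I i j` and `y = s j k ∈ I j k` in `h5`:
  `x * y * x = y * x * y`.  The right side is `s_jk * a_ij * s_ij * s_jk
  = (s_jk * a_ij * s_jk) * (s_jk * s_ij * s_jk) = a i k * s i k` (coherence for `swap j k`).  The
  left side is `a_ij * s_ij * s_jk * a_ij * s_ij
  = a_ij * (s_ij * s_jk * a_ij * s_jk * s_ij) * (s_ij * s_jk * s_ij) = a i j * a j k * s i k`
  (coherence for `swap i j * swap j k`, which maps `i ↦ j`, `j ↦ k`).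
* `fam_split'`: the same with `x = s i j ∈ I i j` and `y = a j k * s j k ∈ I j k`:
  `x * y * x = s_ij * a_jk * s_jk * s_ij = a i k * s i k`, and
  `y * x * y = a_jk * s_jk * s_ij * a_jk * s_jk = a j k * a i j * s i k`
  (`swap j k * swap i j` maps `j ↦ i`, `k ↦ j`).
* `fam_comm_s`: coherence for `swap k l`, which fixes `i` and `j`.
* `fam_comm`: `x = a i j * s i j`, `y = b k l * s k l` commute (`h4`), and so do `x, s k l`,
  `s i j, y`, `s i j, s k l` (`h1`, `h4`).

`phi_s` is proved here again (private copy) or imported from CoxA.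
-/

namespace Pool.Agent.Lib.MP_558536_al_CX

open Equiv

universe u

namespace CoxData

variable {Y : Type u} [Group Y] {n : ℕ} (C : CoxData Y n)

private theorem conj_mul {a : Fin n → Fin n → Y} (ha : C.Fam a) {i j : Fin n} (hij : i ≠ j)
    (σ : Perm (Fin n)) : C.φ σ * a i j = a (σ i) (σ j) * C.φ σ :=
  mul_inv_eq_iff_eq_mul.1 (ha.conj i j σ hij)

private theorem s_mem {i j : Fin n} (hij : i ≠ j) : C.s i j ∈ C.I i j := C.h1 i j hij

private theorem s_braid {i j k : Fin n} (hjk : j ≠ k) (hik : i ≠ k) :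
    C.s i j * C.s j k * C.s i j = C.s i k := by
  unfold s
  rw [← map_mul, ← map_mul]
  congr 1
  rw [swap_comm i j, swap_comm j k, swap_mul_swap_mul_swap hjk.symm hik.symm]

private theorem s_braid' {i j k : Fin n} (hij : i ≠ j) (hik : i ≠ k) :
    C.s j k * C.s i j * C.s j k = C.s i k := by
  unfold s
  rw [← map_mul, ← map_mul]
  congr 1
  rw [swap_mul_swap_mul_swap hij hik, swap_comm]

theorem fam_inv {a : Fin n → Fin n → Y} (ha : C.Fam a) {i j : Fin n} (hij : i ≠ j) :
    a j i = (a i j)⁻¹ := by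
  have h1 := ha.conj i j (swap i j) hij
  rw [swap_apply_left, swap_apply_right] at h1
  have h2 : (C.φ (swap i j))⁻¹ = C.φ (swap i j) := by
    rw [← map_inv, swap_inv]
  rw [h2] at h1
  have h3 := C.h3 i j _ hij (ha.mem i j hij)
  rw [← h1]
  refine eq_inv_of_mul_eq_one_right ?_
  have h4 : C.s i j = C.φ (swap i j) := rfl
  rw [h4] at h3
  rw [← h3]
  simp only [mul_assoc]

theorem fam_rev {a : Fin n → Fin n → Y} (ha : C.Fam a) : C.Fam (fun i j => a j i) := by
  refine ⟨fun i j hij => ?_, fun i j σ hij => ?_⟩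
  · have h1 := ha.mem j i hij.symm
    rw [C.symm j i, C.s_comm j i] at h1
    exact h1
  · exact ha.conj j i σ hij.symm

theorem fam_split {a : Fin n → Fin n → Y} (ha : C.Fam a) {i j k : Fin n} (hij : i ≠ j)
    (hjk : j ≠ k) (hik : i ≠ k) : a i k = a i j * a j k := by
  have h5 := C.h5 i j k _ _ hij hjk hik (ha.mem i j hij) (C.s_mem hjk)
  have h1 := C.conj_mul ha hij (swap j k)
  rw [swap_apply_of_ne_of_ne hij hik, swap_apply_left] at h1
  have h2 := C.conj_mul ha hij (swap i j * swap j k)
  rw [Perm.mul_apply, Perm.mul_apply, swap_apply_of_ne_of_ne hij hik, swap_apply_left,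
    swap_apply_left, swap_apply_of_ne_of_ne hik.symm hjk.symm, map_mul] at h2
  have e1 : a i j * C.s i j * C.s j k * (a i j * C.s i j) = a i j * a j k * C.s i k := by
    have : a i j * C.s i j * C.s j k * (a i j * C.s i j)
        = a i j * (C.s i j * C.s j k * a i j) * C.s i j := by simp only [mul_assoc]
    rw [this]
    change a i j * (C.φ (swap i j) * C.φ (swap j k) * a i j) * C.s i j = _
    rw [h2, ← C.s_braid hjk hik]
    simp only [s, mul_assoc]
  have e2 : C.s j k * (a i j * C.s i j) * C.s j k = a i k * C.s i k := by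
    have : C.s j k * (a i j * C.s i j) * C.s j k = (C.s j k * a i j) * C.s i j * C.s j k := by
      simp only [mul_assoc]
    rw [this]
    change (C.φ (swap j k) * a i j) * C.s i j * C.s j k = _
    rw [h1, ← C.s_braid' hij hik]
    simp only [s, mul_assoc]
  rw [e1, e2] at h5
  exact (mul_right_cancel h5).symm

theorem fam_split' {a : Fin n → Fin n → Y} (ha : C.Fam a) {i j k : Fin n} (hij : i ≠ j)
    (hjk : j ≠ k) (hik : i ≠ k) : a i k = a j k * a i j := by
  have h5 := C.h5 i j k _ _ hij hjk hik (C.s_mem hij) (ha.mem j k hjk)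
  have h1 := C.conj_mul ha hjk (swap i j)
  rw [swap_apply_right, swap_apply_of_ne_of_ne hik.symm hjk.symm] at h1
  have h2 := C.conj_mul ha hjk (swap j k * swap i j)
  rw [Perm.mul_apply, Perm.mul_apply, swap_apply_right, swap_apply_of_ne_of_ne hik.symm hjk.symm,
    swap_apply_of_ne_of_ne hij hik, swap_apply_right, map_mul] at h2
  have e1 : C.s i j * (a j k * C.s j k) * C.s i j = a i k * C.s i k := by
    have : C.s i j * (a j k * C.s j k) * C.s i j = (C.s i j * a j k) * C.s j k * C.s i j := by
      simp only [mul_assoc]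
    rw [this]
    change (C.φ (swap i j) * a j k) * C.s j k * C.s i j = _
    rw [h1, ← C.s_braid hjk hik]
    simp only [s, mul_assoc]
  have e2 : a j k * C.s j k * C.s i j * (a j k * C.s j k) = a j k * a i j * C.s i k := by
    have : a j k * C.s j k * C.s i j * (a j k * C.s j k)
        = a j k * (C.s j k * C.s i j * a j k) * C.s j k := by simp only [mul_assoc]
    rw [this]
    change a j k * (C.φ (swap j k) * C.φ (swap i j) * a j k) * C.s j k = _
    rw [h2, ← C.s_braid' hij hik]
    simp only [s, mul_assoc]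
  rw [e1, e2] at h5
  exact mul_right_cancel h5

theorem fam_comm_s {a : Fin n → Fin n → Y} (ha : C.Fam a) {i j k l : Fin n} (hij : i ≠ j)
    (hik : i ≠ k) (hil : i ≠ l) (hjk : j ≠ k) (hjl : j ≠ l) :
    a i j * C.s k l = C.s k l * a i j := by
  have h1 := C.conj_mul ha hij (swap k l)
  rw [swap_apply_of_ne_of_ne hik hil, swap_apply_of_ne_of_ne hjk hjl] at h1
  exact h1.symm

theorem fam_comm {a b : Fin n → Fin n → Y} (ha : C.Fam a) (hb : C.Fam b) {i j k l : Fin n}
    (hij : i ≠ j) (hkl : k ≠ l) (hik : i ≠ k) (hil : i ≠ l) (hjk : j ≠ k) (hjl : j ≠ l) :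
    a i j * b k l = b k l * a i j := by
  have hxy : Commute (a i j * C.s i j) (b k l * C.s k l) :=
    C.h4 i j k l _ _ hij hkl hik hil hjk hjl (ha.mem i j hij) (hb.mem k l hkl)
  have h1 : Commute (a i j) (C.s k l) := C.fam_comm_s ha hij hik hil hjk hjl
  have h2 : Commute (b k l) (C.s i j) := C.fam_comm_s hb hkl hik.symm hjk.symm hil.symm hjl.symm
  have h3 : Commute (C.s i j) (C.s k l) :=
    C.h4 i j k l _ _ hij hkl hik hil hjk hjl (C.s_mem hij) (C.s_mem hkl)
  have ea : a i j = (a i j * C.s i j) * C.s i j := by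
    rw [mul_assoc, C.s_mul_self, mul_one]
  have eb : b k l = (b k l * C.s k l) * C.s k l := by
    rw [mul_assoc, C.s_mul_self, mul_one]
  have key : Commute ((a i j * C.s i j) * C.s i j) ((b k l * C.s k l) * C.s k l) :=
    Commute.mul_left (Commute.mul_right hxy (h1.mul_left h3))
      (Commute.mul_right (h2.symm.mul_right h3) h3)
  rw [← ea, ← eb] at key
  exact key

end CoxData

end Pool.Agent.Lib.MP_558536_al_CX
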