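import Mathlib
import Pool.Agent.Lib.MP_558536_al_CX.CoxB

set_option autoImplicit false

/-!
# Project CX, module CoxC: the subgroups `P i j` and the defects

* `P_symm`: the generators of `P j i` are the inverses of those of `P i j` (`fam_inv`), or the
  generators coincide because of `fam_rev`.
* `P_comm_fam`, `P_comm_s`, `P_comm_P`: closure induction from `fam_comm`, `fam_comm_s`.
* `P_conj`: closure induction (or `Subgroup.map`) from the coherence of families.
* `defect_mem`.  Let `a, b, c` be families with `c i k = a i j * b i j * b j k * a j k` for all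
  distinct `i, j, k`, and put `d = (c i j)⁻¹ * a i j * b i j` (`i ≠ j`).  It is in `P i j = P j i`.
  For `k ≠ i, j`: `c i k = c i j * c j k` (`fam_split`) gives
  `d = c j k * (b j k * a j k)⁻¹ ∈ P j k`.  So `d ∈ P j k` for all `k ≠ j`.  Let
  `p, q ≠ j`, `p ≠ q`.  If `i ≠ p, q`, then `d ∈ P i j` commutes with `b' p q` and `s p q`
  (`P_comm_fam`, `P_comm_s`).  If `p = i` (or `q = i`), choose `k ≠ j, p, q` (`exists_ne3`) and use
  `d ∈ P j k`.  In fact the second choice works in all cases: choose `k ≠ j, p, q` and use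
  `d ∈ P j k` (which holds for all `k ≠ j`).
-/

namespace Pool.Agent.Lib.MP_558536_al_CX

open Equiv

universe u

namespace CoxData

variable {Y : Type u} [Group Y] {n : ℕ} (C : CoxData Y n)

private theorem fam_mem_P {a : Fin n → Fin n → Y} (ha : C.Fam a) (i j : Fin n) :
    a i j ∈ C.P i j := Subgroup.subset_closure ⟨a, ha, rfl⟩

private theorem P_le_symm (i j : Fin n) : C.P i j ≤ C.P j i := by
  unfold P
  rw [Subgroup.closure_le]
  rintro x ⟨a, ha, rfl⟩
  exact Subgroup.subset_closure ⟨fun i j => a j i, C.fam_rev ha, rfl⟩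

theorem P_symm (i j : Fin n) : C.P i j = C.P j i :=
  le_antisymm (C.P_le_symm i j) (C.P_le_symm j i)

private theorem P_comm_aux {i j : Fin n} {z : Y}
    (h : ∀ a, C.Fam a → a i j * z = z * a i j) {x : Y} (hx : x ∈ C.P i j) :
    x * z = z * x := by
  have hle : C.P i j ≤ Subgroup.centralizer {z} := by
    unfold P
    rw [Subgroup.closure_le]
    rintro y ⟨a, ha, rfl⟩
    rw [SetLike.mem_coe, Subgroup.mem_centralizer_iff]
    intro w hw
    rw [Set.mem_singleton_iff] at hw
    subst hw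
    exact (h a ha).symm
  have := Subgroup.mem_centralizer_iff.1 (hle hx) z rfl
  exact this.symm

theorem P_comm_fam {i j k l : Fin n} {x : Y} (hx : x ∈ C.P i j) {b : Fin n → Fin n → Y}
    (hb : C.Fam b) (hij : i ≠ j) (hkl : k ≠ l) (hik : i ≠ k) (hil : i ≠ l) (hjk : j ≠ k)
    (hjl : j ≠ l) : x * b k l = b k l * x :=
  C.P_comm_aux (fun _ ha => C.fam_comm ha hb hij hkl hik hil hjk hjl) hx

theorem P_comm_s {i j k l : Fin n} {x : Y} (hx : x ∈ C.P i j)
    (hij : i ≠ j) (hik : i ≠ k) (hil : i ≠ l) (hjk : j ≠ k) (hjl : j ≠ l) :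
    x * C.s k l = C.s k l * x :=
  C.P_comm_aux (fun _ ha => C.fam_comm_s ha hij hik hil hjk hjl) hx

theorem P_comm_P {i j k l : Fin n} {x y : Y} (hx : x ∈ C.P i j) (hy : y ∈ C.P k l)
    (hij : i ≠ j) (hkl : k ≠ l) (hik : i ≠ k) (hil : i ≠ l) (hjk : j ≠ k) (hjl : j ≠ l) :
    x * y = y * x :=
  (C.P_comm_aux (fun _ hb =>
    (C.P_comm_fam hx hb hij hkl hik hil hjk hjl).symm) hy).symm

theorem P_conj {i j : Fin n} (hij : i ≠ j) (σ : Perm (Fin n)) {x : Y} (hx : x ∈ C.P i j) :
    C.φ σ * x * (C.φ σ)⁻¹ ∈ C.P (σ i) (σ j) := by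
  have hle : C.P i j ≤ (C.P (σ i) (σ j)).comap (MulAut.conj (C.φ σ)).toMonoidHom := by
    unfold P
    rw [Subgroup.closure_le]
    rintro y ⟨a, ha, rfl⟩
    refine Subgroup.subset_closure ⟨a, ha, ?_⟩
    exact ha.conj i j σ hij
  exact hle hx

theorem defect_mem {a b c : Fin n → Fin n → Y} (ha : C.Fam a) (hb : C.Fam b) (hc : C.Fam c)
    (h : ∀ i j k, i ≠ j → j ≠ k → i ≠ k → c i k = a i j * b i j * b j k * a j k)
    {i j : Fin n} (hij : i ≠ j) : (c i j)⁻¹ * a i j * b i j ∈ C.D j := by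
  have hP : ∀ k, k ≠ j → (c i j)⁻¹ * a i j * b i j ∈ C.P j k := by
    intro k hkj
    by_cases hik : i = k
    · subst hik
      rw [C.P_symm j i]
      exact mul_mem (mul_mem (inv_mem (C.fam_mem_P hc i j)) (C.fam_mem_P ha i j))
        (C.fam_mem_P hb i j)
    · have h1 := h i j k hij hkj.symm hik
      rw [C.fam_split hc hij hkj.symm hik] at h1
      have h2 : (c i j)⁻¹ * a i j * b i j = c j k * (b j k * a j k)⁻¹ := by
        rw [eq_mul_inv_iff_mul_eq, mul_assoc, mul_assoc, inv_mul_eq_iff_eq_mul, h1]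
        simp only [mul_assoc]
      rw [h2]
      exact mul_mem (C.fam_mem_P hc j k)
        (inv_mem (mul_mem (C.fam_mem_P hb j k) (C.fam_mem_P ha j k)))
  rw [C.mem_D]
  refine ⟨fun k hk => hP k hk, fun k l hk hl hkl => ?_, fun k l hk hl hkl b' hb' => ?_⟩
  · obtain ⟨m, hmj, hmk, hml⟩ := C.exists_ne3 j k l
    exact C.P_comm_s (hP m hmj) hmj.symm hk.symm hl.symm hmk hml
  · obtain ⟨m, hmj, hmk, hml⟩ := C.exists_ne3 j k l
    exact C.P_comm_fam (hP m hmj) hb' hmj.symm hkl hk.symm hl.symm hmk hml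

end CoxData

end Pool.Agent.Lib.MP_558536_al_CX
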