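import Mathlib
import Pool.Agent.Lib.MP_558536_al_CX.CoxC

set_option autoImplicit false

/-!
# Project CX, module CoxD: the subgroups `D i` are normalized by families and commute pairwise

* `D_conj_fam`: let `x ∈ D i`, `a` a family, `k ≠ l`.  If `i ≠ k, l`, then `a k l` commutes with
  `x` (definition of `D i`).  If `k = i`: put `y = a i l * x * (a i l)⁻¹`.  For every `m ≠ i, l`
  we have `a i m = a i l * a l m` (`fam_split`) and `a l m` commutes with `x`, so
  `a i m * x * (a i m)⁻¹ = y`.  Hence (first condition) `y ∈ P i m` for all `m ≠ i`, since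
  `x, a i m ∈ P i m`.  For `p, q ≠ i`, `p ≠ q`, choose `m ≠ i, p, q` (`exists_ne3`);
  `a i m` commutes with `s p q` and `b p q` (`fam_comm_s`, `fam_comm`) and so does `x`, hence `y`.
  If `l = i`: apply the previous case to the family `fun p q => a q p` (`fam_rev`):
  `a k i = (rev a) i k`.
* `D_conj_phi`: from `P_conj`, `phi_s`, coherence: for `σ` and `k, l ≠ σ i` write
  `k = σ k'`, `l = σ l'`; `x` commutes with `s k' l'` and `b k' l'`, conjugate by `φ σ`.
* `D_comm`: for `i ≠ j` choose `k ≠ i, j` and `l ≠ i, j, k`; `x ∈ P i k` and `y ∈ P j l` commute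
  by `P_comm_P`.
-/

namespace Pool.Agent.Lib.MP_558536_al_CX

open Equiv

universe u

namespace CoxData

variable {Y : Type u} [Group Y] {n : ℕ} (C : CoxData Y n)

private theorem CoxD_phi_s (σ : Perm (Fin n)) (i j : Fin n) :
    C.φ σ * C.s i j * (C.φ σ)⁻¹ = C.s (σ i) (σ j) := by
  unfold s
  rw [← map_inv, ← map_mul, ← map_mul, swap_apply_apply]

private theorem CoxD_case {i : Fin n} {x : Y} (hx : x ∈ C.D i) {a : Fin n → Fin n → Y}
    (ha : C.Fam a) {l : Fin n} (hil : i ≠ l) : a i l * x * (a i l)⁻¹ ∈ C.D i := by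
  obtain ⟨h1, h2, h3⟩ := C.mem_D.1 hx
  have key : ∀ m, m ≠ i → a i l * x * (a i l)⁻¹ = a i m * x * (a i m)⁻¹ := by
    intro m hm
    rcases eq_or_ne l m with rfl | hlm
    · rfl
    · have e1 := h3 l m hil.symm hm hlm a ha
      have e2 : a l m * x * (a l m)⁻¹ = x := by
        rw [← e1, mul_inv_cancel_right]
      rw [C.fam_split ha hil hlm hm.symm, mul_inv_rev]
      calc a i l * x * (a i l)⁻¹ = a i l * (a l m * x * (a l m)⁻¹) * (a i l)⁻¹ := by rw [e2]
        _ = a i l * a l m * x * ((a l m)⁻¹ * (a i l)⁻¹) := by group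
  refine C.mem_D.2 ⟨fun j hj => ?_, fun p q hp hq hpq => ?_, fun p q hp hq hpq b hb => ?_⟩
  · rw [key j hj]
    have h4 : a i j ∈ C.P i j := Subgroup.subset_closure ⟨a, ha, rfl⟩
    exact mul_mem (mul_mem h4 (h1 j hj)) (inv_mem h4)
  · obtain ⟨m, hmi, hmp, hmq⟩ := C.exists_ne3 i p q
    rw [key m hmi]
    have c1 : Commute (a i m) (C.s p q) :=
      C.fam_comm_s ha hmi.symm hp.symm hq.symm hmp hmq
    have c2 : Commute x (C.s p q) := h2 p q hp hq hpq
    exact (c1.mul_left c2).mul_left c1.inv_left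
  · obtain ⟨m, hmi, hmp, hmq⟩ := C.exists_ne3 i p q
    rw [key m hmi]
    have c1 : Commute (a i m) (b p q) :=
      C.fam_comm ha hb hmi.symm hpq hp.symm hq.symm hmp hmq
    have c2 : Commute x (b p q) := h3 p q hp hq hpq b hb
    exact (c1.mul_left c2).mul_left c1.inv_left

theorem D_conj_fam {i : Fin n} {x : Y} (hx : x ∈ C.D i) {a : Fin n → Fin n → Y} (ha : C.Fam a)
    {k l : Fin n} (hkl : k ≠ l) : a k l * x * (a k l)⁻¹ ∈ C.D i := by
  by_cases hk : k = i
  · subst hk
    exact CoxD_case C hx ha hkl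
  · by_cases hl : l = i
    · subst hl
      exact CoxD_case C hx (C.fam_rev ha) hkl.symm
    · have h := (C.mem_D.1 hx).2.2 k l hk hl hkl a ha
      rw [← h, mul_inv_cancel_right]
      exact hx

theorem D_conj_phi {i : Fin n} {x : Y} (hx : x ∈ C.D i) (σ : Perm (Fin n)) :
    C.φ σ * x * (C.φ σ)⁻¹ ∈ C.D (σ i) := by
  obtain ⟨h1, h2, h3⟩ := C.mem_D.1 hx
  refine C.mem_D.2 ⟨fun j hj => ?_, fun p q hp hq hpq => ?_, fun p q hp hq hpq b hb => ?_⟩
  · obtain ⟨j, rfl⟩ := σ.surjective j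
    have hj' : j ≠ i := fun h => hj (by rw [h])
    exact C.P_conj hj'.symm σ (h1 j hj')
  · obtain ⟨p, rfl⟩ := σ.surjective p
    obtain ⟨q, rfl⟩ := σ.surjective q
    have hc : Commute x (C.s p q) :=
      h2 p q (fun h => hp (by rw [h])) (fun h => hq (by rw [h])) (fun h => hpq (by rw [h]))
    rw [← CoxD_phi_s C σ p q]
    exact Commute.conj hc (C.φ σ)
  · obtain ⟨p, rfl⟩ := σ.surjective p
    obtain ⟨q, rfl⟩ := σ.surjective q
    have hpq' : p ≠ q := fun h => hpq (by rw [h])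
    have hc : Commute x (b p q) :=
      h3 p q (fun h => hp (by rw [h])) (fun h => hq (by rw [h])) hpq' b hb
    rw [← hb.conj p q σ hpq']
    exact Commute.conj hc (C.φ σ)

theorem D_comm {i j : Fin n} (hij : i ≠ j) {x y : Y} (hx : x ∈ C.D i) (hy : y ∈ C.D j) :
    x * y = y * x := by
  obtain ⟨k, hki, hkj, _⟩ := C.exists_ne3 i j j
  obtain ⟨l, hli, hlj, hlk⟩ := C.exists_ne3 i j k
  exact C.P_comm_P ((C.mem_D.1 hx).1 k hki) ((C.mem_D.1 hy).1 l hlj) hki.symm hlj.symm hij
    hli.symm hkj hlk.symm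

end CoxData

end Pool.Agent.Lib.MP_558536_al_CX
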