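import Mathlib
import Pool.Agent.Lib.MP_558536_al_CX.CoxD

set_option autoImplicit false

/-!
# Project CX, module CoxE: the subgroups `D i` are abelian

* `fam_mem_R`: `a i j = (a i j * s i j) * s i j`, a generator of `R`.
* `D_le_R`: `D i ≤ P i j ≤ R` for any `j ≠ i`.
* `D_abelian`: let `c` be a permutation with `c ^ n = 1`, `(c ^ k) i ≠ i` for `0 < k < n`, and
  `(r * φ c) ^ n = 1` for all `r ∈ R`.  Let `x, y ∈ D i`, `g = φ c`.  Claim: for `1 ≤ m ≤ n`
  there is `w` commuting with `y` such that `(x * g) ^ m = x * w * g ^ m`.  For `m = 1`: `w = 1`.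
  Step (`m < n`): `(x g) ^ (m+1) = x w g ^ m x g = x (w (g ^ m x g ^ (-m))) g ^ (m+1)`, and
  `g ^ m x g ^ (-m) = φ (c^m) x (φ (c^m))⁻¹ ∈ D ((c ^ m) i)` (`D_conj_phi`) commutes with
  `y ∈ D i` (`D_comm`, since `(c ^ m) i ≠ i`).  For `m = n`: `1 = x * w * g ^ n = x * w`
  (`g ^ n = φ (c ^ n) = 1`), so `x = w⁻¹` commutes with `y`.
-/

namespace Pool.Agent.Lib.MP_558536_al_CX

open Equiv

universe u

namespace CoxData

variable {Y : Type u} [Group Y] {n : ℕ} (C : CoxData Y n)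

theorem fam_mem_R {a : Fin n → Fin n → Y} (ha : C.Fam a) {i j : Fin n} (hij : i ≠ j) :
    a i j ∈ C.R := by
  refine Subgroup.subset_closure ⟨i, j, hij, a i j * C.s i j, ha.mem i j hij, ?_⟩
  rw [mul_assoc, C.s_mul_self, mul_one]

theorem D_le_R (i : Fin n) : C.D i ≤ C.R := by
  intro x hx
  obtain ⟨j, hj, -, -⟩ := C.exists_ne3 i i i
  have h1 : x ∈ C.P i j := (C.mem_D.1 hx).1 j hj
  have h2 : C.P i j ≤ C.R := by
    unfold P
    rw [Subgroup.closure_le]
    rintro y ⟨a, ha, rfl⟩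
    exact C.fam_mem_R ha hj.symm
  exact h2 h1

theorem D_abelian (c : Perm (Fin n)) (hc : c ^ n = 1)
    (hmove : ∀ (i : Fin n) (k : ℕ), 0 < k → k < n → (c ^ k) i ≠ i)
    (h7 : ∀ r ∈ C.R, (r * C.φ c) ^ n = 1) {i : Fin n} {x y : Y} (hx : x ∈ C.D i)
    (hy : y ∈ C.D i) : x * y = y * x := by
  have hn : 1 ≤ n := le_trans (by norm_num) C.hn
  have key : ∀ m, 1 ≤ m → m ≤ n → ∃ w, w * y = y * w ∧
      (x * C.φ c) ^ m = x * w * C.φ c ^ m := by
    intro m hm
    induction m, hm using Nat.le_induction with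
    | base =>
      intro _
      exact ⟨1, by rw [one_mul, mul_one], by rw [pow_one, mul_one, pow_one]⟩
    | succ m hm ih =>
      intro hmn
      obtain ⟨w, hw, he⟩ := ih (by omega)
      have h1 : C.φ (c ^ m) * x * (C.φ (c ^ m))⁻¹ ∈ C.D ((c ^ m) i) := C.D_conj_phi hx (c ^ m)
      have h2 := C.D_comm (hmove i m (by omega) (by omega)) h1 hy
      rw [map_pow] at h2
      refine ⟨w * (C.φ c ^ m * x * (C.φ c ^ m)⁻¹), ?_, ?_⟩
      · rw [mul_assoc, h2, ← mul_assoc, hw, mul_assoc]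
      · rw [pow_succ, he, pow_succ]
        group
  obtain ⟨w, hw, he⟩ := key n hn le_rfl
  rw [h7 x (C.D_le_R i hx), ← map_pow, hc, map_one, mul_one] at he
  have hx' : x = w⁻¹ := eq_inv_of_mul_eq_one_left he.symm
  rw [hx']
  exact (Commute.inv_left (hw : Commute w y))

end CoxData

end Pool.Agent.Lib.MP_558536_al_CX
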