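import Mathlib
import Pool.Agent.Lib.MP_558536_al_CX.CoxA
import Pool.Agent.Lib.MP_558536_al_CX.CoxB

set_option autoImplicit false

/-!
# Project CX, module CoxP: the product of two families

For families `a, b` and distinct `i, j, k` put `x = a i j * s i j ∈ I i j` and
`y = b j k * s j k ∈ I j k`.  With `s_ij * b_jk * s_ij = b i k`,
`s_ij * s_jk * a_ij * s_jk * s_ij = a j k`, `s_ij * s_jk * s_ij = s i k` (coherence):
`x * y * x = a_ij * b_ik * a_jk * s_ik`, and `b_ik = b_ij * b_jk` (`fam_split`), so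
`x * y * x = (a i j * b i j * b j k * a j k) * s i k`.  It lies in `I i k` by `h6`.  Symmetrically
(`s_jk * a_ij * s_jk = a i k`, `s_jk * s_ij * b_jk * s_ij * s_jk = b i j`,
`s_jk * s_ij * s_jk = s i k`, `a_ik = a_jk * a_ij`)
`y * x * y = b_jk * a_ik * b_ij * s_ik = (b j k * a j k * a i j * b i j) * s i k`, and the two are
equal by `h5`.

Fix three distinct indices `i0, j0, k0` (`exists_ne3`), let `γ = a i0 j0 * b i0 j0 * b j0 k0 *
a j0 k0`, so `γ * s i0 k0 ∈ I i0 k0`, and let `c` be the family with `c i0 k0 = γ`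
(`exists_fam`).  For distinct `i, j, k` there is `σ` with `σ i0 = i`, `σ j0 = j`, `σ k0 = k`;
conjugate by `φ σ`.
-/

namespace Pool.Agent.Lib.MP_558536_al_CX

open Equiv

universe u

namespace CoxData

variable {Y : Type u} [Group Y] {n : ℕ} (C : CoxData Y n)

private theorem CoxP_inv (i j : Fin n) : (C.φ (swap i j))⁻¹ = C.φ (swap i j) :=
  inv_eq_of_mul_eq_one_left (C.s_mul_self i j)

private theorem CoxP_conj {a : Fin n → Fin n → Y} (ha : C.Fam a) {i j : Fin n} (hij : i ≠ j)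
    (p q : Fin n) : C.s p q * a i j * C.s p q = a (swap p q i) (swap p q j) := by
  have h := ha.conj i j (swap p q) hij
  rw [C.CoxP_inv] at h
  exact h

private theorem CoxP_s (i j p q : Fin n) :
    C.s p q * C.s i j * C.s p q = C.s (swap p q i) (swap p q j) := by
  have h := C.phi_s (swap p q) i j
  rw [C.CoxP_inv] at h
  exact h

private theorem CoxP_alg1 (x y u v a' b' w' : Y) (huu : u * u = 1) (hvv : v * v = 1)
    (h1 : u * y * u = b') (h2 : u * (v * x * v) * u = a') (h3 : u * v * u = w') :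
    (x * u) * (y * v) * (x * u) = x * b' * a' * w' := by
  subst h1 h2 h3
  have hu : ∀ z, u * (u * z) = z := fun z => by rw [← mul_assoc, huu, one_mul]
  have hv : ∀ z, v * (v * z) = z := fun z => by rw [← mul_assoc, hvv, one_mul]
  simp only [mul_assoc, hu, hv]

private theorem CoxP_xyx {a b : Fin n → Fin n → Y} (ha : C.Fam a) (hb : C.Fam b) {i j k : Fin n}
    (hij : i ≠ j) (hjk : j ≠ k) (hik : i ≠ k) :
    (a i j * C.s i j) * (b j k * C.s j k) * (a i j * C.s i j) =
      a i j * b i j * b j k * a j k * C.s i k := by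
  have h1 : C.s i j * b j k * C.s i j = b i k := by
    rw [C.CoxP_conj hb hjk, swap_apply_right, swap_apply_of_ne_of_ne hik.symm hjk.symm]
  have h2 : C.s i j * (C.s j k * a i j * C.s j k) * C.s i j = a j k := by
    rw [C.CoxP_conj ha hij, swap_apply_of_ne_of_ne hij hik, swap_apply_left, C.CoxP_conj ha hik,
      swap_apply_left, swap_apply_of_ne_of_ne hik.symm hjk.symm]
  have h3 : C.s i j * C.s j k * C.s i j = C.s i k := by
    rw [C.CoxP_s, swap_apply_right, swap_apply_of_ne_of_ne hik.symm hjk.symm]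
  rw [CoxP_alg1 _ _ _ _ _ _ _ (C.s_mul_self i j) (C.s_mul_self j k) h1 h2 h3,
    C.fam_split hb hij hjk hik]
  simp only [mul_assoc]

private theorem CoxP_yxy {a b : Fin n → Fin n → Y} (ha : C.Fam a) (hb : C.Fam b) {i j k : Fin n}
    (hij : i ≠ j) (hjk : j ≠ k) (hik : i ≠ k) :
    (b j k * C.s j k) * (a i j * C.s i j) * (b j k * C.s j k) =
      b j k * a j k * a i j * b i j * C.s i k := by
  have h1 : C.s j k * a i j * C.s j k = a i k := by
    rw [C.CoxP_conj ha hij, swap_apply_left, swap_apply_of_ne_of_ne hij hik]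
  have h2 : C.s j k * (C.s i j * b j k * C.s i j) * C.s j k = b i j := by
    rw [C.CoxP_conj hb hjk, swap_apply_right, swap_apply_of_ne_of_ne hik.symm hjk.symm,
      C.CoxP_conj hb hik, swap_apply_right, swap_apply_of_ne_of_ne hij hik]
  have h3 : C.s j k * C.s i j * C.s j k = C.s i k := by
    rw [C.CoxP_s, swap_apply_left, swap_apply_of_ne_of_ne hij hik]
  rw [CoxP_alg1 _ _ _ _ _ _ _ (C.s_mul_self j k) (C.s_mul_self i j) h1 h2 h3,
    C.fam_split' ha hij hjk hik]
  simp only [mul_assoc]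

private theorem CoxP_mem {a b : Fin n → Fin n → Y} (ha : C.Fam a) (hb : C.Fam b) {i j k : Fin n}
    (hij : i ≠ j) (hjk : j ≠ k) (hik : i ≠ k) :
    a i j * b i j * b j k * a j k * C.s i k ∈ C.I i k ∧
      a i j * b i j * b j k * a j k = b j k * a j k * a i j * b i j := by
  have hx := ha.mem i j hij
  have hy := hb.mem j k hjk
  refine ⟨?_, ?_⟩
  · rw [← C.CoxP_xyx ha hb hij hjk hik]
    exact C.h6 i j k _ _ hij hjk hik hx hy
  · have h := C.h5 i j k _ _ hij hjk hik hx hy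
    rw [C.CoxP_xyx ha hb hij hjk hik, C.CoxP_yxy ha hb hij hjk hik] at h
    exact mul_right_cancel h

private theorem CoxP_perm {i j k i' j' k' : Fin n} (hij : i ≠ j) (hjk : j ≠ k) (hik : i ≠ k)
    (hij' : i' ≠ j') (hjk' : j' ≠ k') (hik' : i' ≠ k') :
    ∃ σ : Perm (Fin n), σ i = i' ∧ σ j = j' ∧ σ k = k' := by
  obtain ⟨σ₁, h1⟩ : ∃ σ : Perm (Fin n), σ i = i' := ⟨swap i i', swap_apply_left _ _⟩
  have h2 : i' ≠ σ₁ j := fun h => hij (σ₁.injective (h1.trans h))
  obtain ⟨σ₂, h3, h4⟩ : ∃ σ : Perm (Fin n), σ i = i' ∧ σ j = j' :=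
    ⟨swap (σ₁ j) j' * σ₁, by
      rw [Perm.mul_apply, h1, swap_apply_of_ne_of_ne h2 hij'], by
      rw [Perm.mul_apply, swap_apply_left]⟩
  have h5 : i' ≠ σ₂ k := fun h => hik (σ₂.injective (h3.trans h))
  have h6 : j' ≠ σ₂ k := fun h => hjk (σ₂.injective (h4.trans h))
  exact ⟨swap (σ₂ k) k' * σ₂, by
    rw [Perm.mul_apply, h3, swap_apply_of_ne_of_ne h5 hik'], by
    rw [Perm.mul_apply, h4, swap_apply_of_ne_of_ne h6 hjk'], by
    rw [Perm.mul_apply, swap_apply_left]⟩

theorem exists_prod {a b : Fin n → Fin n → Y} (ha : C.Fam a) (hb : C.Fam b) :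
    ∃ c, C.Fam c ∧ ∀ i j k, i ≠ j → j ≠ k → i ≠ k →
      c i k = a i j * b i j * b j k * a j k ∧ c i k = b j k * a j k * a i j * b i j := by
  have i0 : Fin n := ⟨0, lt_of_lt_of_le (by norm_num) C.hn⟩
  obtain ⟨j0, hj0, -, -⟩ := C.exists_ne3 i0 i0 i0
  obtain ⟨k0, hk0, hk0', -⟩ := C.exists_ne3 i0 j0 j0
  obtain ⟨c, hc, hc0⟩ := C.exists_fam hk0.symm (C.CoxP_mem ha hb hj0.symm hk0'.symm hk0.symm).1
  refine ⟨c, hc, fun i j k hij hjk hik => ?_⟩
  have key : c i k = a i j * b i j * b j k * a j k := by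
    obtain ⟨σ, h1, h2, h3⟩ := CoxP_perm hj0.symm hk0'.symm hk0.symm hij hjk hik
    have e1 := hc.conj i0 k0 σ hk0.symm
    have e2 := ha.conj i0 j0 σ hj0.symm
    have e3 := hb.conj i0 j0 σ hj0.symm
    have e4 := hb.conj j0 k0 σ hk0'.symm
    have e5 := ha.conj j0 k0 σ hk0'.symm
    rw [h1, h3] at e1
    rw [h1, h2] at e2 e3
    rw [h2, h3] at e4 e5
    rw [← e1, ← e2, ← e3, ← e4, ← e5, hc0]
    group
  exact ⟨key, key.trans (C.CoxP_mem ha hb hij hjk hik).2⟩

end CoxData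

end Pool.Agent.Lib.MP_558536_al_CX
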