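import Mathlib
import Pool.Agent.Lib.MP_558536_al_CX.CoxP
import Pool.Agent.Lib.MP_558536_al_CX.CoxE

set_option autoImplicit false

/-!
# Project CX, module CoxF: `R` is metabelian

Suppose every `D i` is abelian (`hab`).

* `DD_comm`: elements of `DD = ⨆ i, D i` commute pairwise: write `DD` as the closure of the union
  (`Subgroup.closure_iUnion`, `Subgroup.closure_eq`) and use closure induction twice
  (`D_comm`, `hab`).
* `mem_R_iff_fam` (optional): the generators of `R` are members of families: for `x ∈ I i j` put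
  `α = x * s i j`; `α * s i j = x ∈ I i j`, so `α = a i j` for a family `a` (`exists_fam`).
* `DD_conj`: for `r ∈ R`, `x ∈ DD`: `r * x * r⁻¹ ∈ DD`.  Closure induction on `r` (the inverse of
  `a i j` is `a j i`, `fam_inv`), with `D_conj_fam`.
* `R_comm_mem`: for `x, y ∈ R` the commutator is in `DD`.  Let `N = Subgroup.normalizer DD` and
  work in the quotient `Q = N ⧸ DD.subgroupOf N` (normal: `Subgroup.normal_in_normalizer`);
  the family members are in `N` (`DD_conj`, applied to `r` and `r⁻¹`).  Write `ā i j` for the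
  image of `a i j`.  For families `a, b` let `c` be the product family of `exists_prod`.
  (q1) `ā i j * b̄ i j = c̄ i j` by `defect_mem` (`(c i j)⁻¹ * a i j * b i j ∈ D j ≤ DD`).
  (q2) `ā i j` and `b̄ i j` commute: inverting (q1) and using `fam_inv`,
  `(ā i j * b̄ i j)⁻¹ = (c̄ i j)⁻¹ = c̄ j i = ā j i * b̄ j i = (ā i j)⁻¹ * (b̄ i j)⁻¹`.
  (q3) for distinct `i, j, k`: `c̄ i k = c̄ i j * c̄ j k = ā_ij b̄_ij ā_jk b̄_jk` and
  `c̄ i k = ā i k * b̄ i k = ā_ij ā_jk b̄_ij b̄_jk` (`fam_split`), so `b̄ i j` and `ā j k` commute.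
  Hence `ā i j` and `b̄ k l` commute for all `i ≠ j`, `k ≠ l` (disjoint: `fam_comm`; equal pairs:
  (q2) and inverses; one common index: (q3) and inverses).  So the image of `R` in `Q` is
  abelian: closure induction on both elements, e.g. with the statement
  `x * y * x⁻¹ * y⁻¹ ∈ DD` read in the quotient.
  One may also avoid quotients: `x ≡ y` iff `x⁻¹ * y ∈ DD` is a congruence on `R`.
-/

namespace Pool.Agent.Lib.MP_558536_al_CX

open Equiv

universe u

namespace CoxData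

variable {Y : Type u} [Group Y] {n : ℕ} (C : CoxData Y n)

private theorem CoxF_sup {z : Y} (h : ∀ i, ∀ x ∈ C.D i, x * z = z * x) :
    ∀ x ∈ C.DD, x * z = z * x := by
  have hle : C.DD ≤ Subgroup.centralizer {z} := by
    unfold DD
    refine iSup_le fun i x hx => ?_
    rw [Subgroup.mem_centralizer_iff]
    intro w hw
    rw [Set.mem_singleton_iff] at hw
    subst hw
    exact (h i x hx).symm
  intro x hx
  exact (Subgroup.mem_centralizer_iff.1 (hle hx) z rfl).symm

private theorem CoxF_conj {a : Fin n → Fin n → Y} (ha : C.Fam a) {i j : Fin n} (hij : i ≠ j) :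
    ∀ x ∈ C.DD, a i j * x * (a i j)⁻¹ ∈ C.DD := by
  have hle : C.DD ≤ C.DD.comap (MulAut.conj (a i j)).toMonoidHom := by
    refine iSup_le fun k x hx => ?_
    have h1 : a i j * x * (a i j)⁻¹ ∈ C.D k := C.D_conj_fam hx ha hij
    exact (le_iSup (fun i => C.D i) k : C.D k ≤ ⨆ i, C.D i) h1
  exact fun x hx => hle hx

theorem DD_le_R : C.DD ≤ C.R := iSup_le fun i => C.D_le_R i

theorem DD_comm (hab : ∀ i : Fin n, ∀ x ∈ C.D i, ∀ y ∈ C.D i, x * y = y * x) :
    ∀ x ∈ C.DD, ∀ y ∈ C.DD, x * y = y * x := by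
  have h1 : ∀ j, ∀ y ∈ C.D j, ∀ x ∈ C.DD, x * y = y * x := by
    intro j y hy
    refine CoxF_sup C ?_
    intro i x hx
    rcases eq_or_ne i j with rfl | hij
    · exact hab i x hx y hy
    · exact C.D_comm hij hx hy
  intro x hx
  have h2 : ∀ y ∈ C.DD, y * x = x * y :=
    CoxF_sup C (fun j y hy => (h1 j y hy x hx).symm)
  exact fun y hy => (h2 y hy).symm

theorem DD_conj : ∀ r ∈ C.R, ∀ x ∈ C.DD, r * x * r⁻¹ ∈ C.DD := by
  have key : ∀ r ∈ C.R, ∀ x ∈ C.DD, r * x * r⁻¹ ∈ C.DD ∧ r⁻¹ * x * r ∈ C.DD := by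
    intro r hr
    refine Subgroup.closure_induction
      (p := fun r _ => ∀ x ∈ C.DD, r * x * r⁻¹ ∈ C.DD ∧ r⁻¹ * x * r ∈ C.DD) ?_ ?_ ?_ ?_ hr
    · rintro r ⟨i, j, hij, x₀, hx₀, rfl⟩ x hx
      have h0 : x₀ * C.s i j * C.s i j ∈ C.I i j := by
        rw [mul_assoc, C.s_mul_self, mul_one]
        exact hx₀
      obtain ⟨a, ha, hae⟩ := C.exists_fam hij h0
      rw [← hae]
      refine ⟨C.CoxF_conj ha hij x hx, ?_⟩
      have h2 := C.CoxF_conj ha hij.symm x hx
      rwa [C.fam_inv ha hij, inv_inv] at h2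
    · intro x hx
      simpa using hx
    · intro r r' _ _ h h' x hx
      constructor
      · have h1 := (h _ (h' x hx).1).1
        rwa [show r * r' * x * (r * r')⁻¹ = r * (r' * x * r'⁻¹) * r⁻¹ by group]
      · have h1 := (h' _ (h x hx).2).2
        rwa [show (r * r')⁻¹ * x * (r * r') = r'⁻¹ * (r⁻¹ * x * r) * r' by group]
    · intro r _ h x hx
      rw [inv_inv]
      exact ⟨(h x hx).2, (h x hx).1⟩
  exact fun r hr x hx => (key r hr x hx).1

private theorem CoxF_val {Y : Type u} [Group Y] (R D : Subgroup Y) (h : D ≤ R)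
    (hn : ∀ r ∈ R, ∀ x ∈ D, r * x * r⁻¹ ∈ D) :
    ∃ (Q : Type u) (_ : Group Q) (v : Y → Q), (∀ x ∈ R, ∀ y ∈ R, v (x * y) = v x * v y) ∧
      (∀ x ∈ R, v x⁻¹ = (v x)⁻¹) ∧ ∀ x ∈ R, (v x = 1 ↔ x ∈ D) := by
  classical
  have hN : (D.subgroupOf R).Normal := ⟨fun m hm g => by
    rw [Subgroup.mem_subgroupOf] at hm ⊢
    exact hn g.1 g.2 m.1 hm⟩
  let π : R →* R ⧸ D.subgroupOf R := QuotientGroup.mk' (D.subgroupOf R)
  have hv : ∀ x (hx : x ∈ R), (if hx : x ∈ R then π ⟨x, hx⟩ else 1) = π ⟨x, hx⟩ :=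
    fun x hx => dif_pos hx
  refine ⟨R ⧸ D.subgroupOf R, inferInstance, fun x => if hx : x ∈ R then π ⟨x, hx⟩ else 1,
    fun x hx y hy => ?_, fun x hx => ?_, fun x hx => ?_⟩
  · change (if hx : x * y ∈ R then π ⟨x * y, hx⟩ else 1) =
      (if hx : x ∈ R then π ⟨x, hx⟩ else 1) * (if hx : y ∈ R then π ⟨y, hx⟩ else 1)
    rw [hv x hx, hv y hy, hv (x * y) (mul_mem hx hy), ← map_mul]
    rfl
  · change (if hx : x⁻¹ ∈ R then π ⟨x⁻¹, hx⟩ else 1) =
      (if hx : x ∈ R then π ⟨x, hx⟩ else 1)⁻¹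
    rw [hv x hx, hv x⁻¹ (inv_mem hx), ← map_inv]
    rfl
  · change (if hx : x ∈ R then π ⟨x, hx⟩ else 1) = 1 ↔ _
    rw [hv x hx]
    exact (QuotientGroup.eq_one_iff (N := D.subgroupOf R) ⟨x, hx⟩).trans Subgroup.mem_subgroupOf

theorem R_comm_mem : ∀ x ∈ C.R, ∀ y ∈ C.R, x * y * x⁻¹ * y⁻¹ ∈ C.DD := by
  obtain ⟨Q, _, v, vm, vi, v1⟩ := CoxF_val C.R C.DD C.DD_le_R C.DD_conj
  have hinv : ∀ {a : Fin n → Fin n → Y} (ha : C.Fam a) {i j : Fin n} (hij : i ≠ j),
      v (a j i) = (v (a i j))⁻¹ := by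
    intro a ha i j hij
    rw [C.fam_inv ha hij, vi _ (C.fam_mem_R ha hij)]
  have hsplit : ∀ {a : Fin n → Fin n → Y} (ha : C.Fam a) {i j k : Fin n} (hij : i ≠ j)
      (hjk : j ≠ k) (hik : i ≠ k), v (a i k) = v (a i j) * v (a j k) := by
    intro a ha i j k hij hjk hik
    rw [C.fam_split ha hij hjk hik, vm _ (C.fam_mem_R ha hij) _ (C.fam_mem_R ha hjk)]
  have hprod : ∀ {a b : Fin n → Fin n → Y} (ha : C.Fam a) (hb : C.Fam b), ∃ c, C.Fam c ∧
      ∀ i j, i ≠ j → v (c i j) = v (a i j) * v (b i j) := by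
    intro a b ha hb
    obtain ⟨c, hc, h⟩ := C.exists_prod ha hb
    refine ⟨c, hc, fun i j hij => ?_⟩
    have h1 := C.defect_mem ha hb hc (fun i j k h1 h2 h3 => (h i j k h1 h2 h3).1) hij
    have h2 : (c i j)⁻¹ * a i j * b i j ∈ C.DD :=
      (le_iSup (fun i => C.D i) j : C.D j ≤ ⨆ i, C.D i) h1
    have hcR := C.fam_mem_R hc hij
    have haR := C.fam_mem_R ha hij
    have hbR := C.fam_mem_R hb hij
    have h3 := (v1 _ (mul_mem (mul_mem (inv_mem hcR) haR) hbR)).2 h2
    rw [vm _ (mul_mem (inv_mem hcR) haR) _ hbR, vm _ (inv_mem hcR) _ haR, vi _ hcR,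
      mul_assoc, inv_mul_eq_one] at h3
    exact h3
  have q2 : ∀ {a b : Fin n → Fin n → Y} (ha : C.Fam a) (hb : C.Fam b) {i j : Fin n}
      (hij : i ≠ j), Commute (v (a i j)) (v (b i j)) := by
    intro a b ha hb i j hij
    obtain ⟨c, hc, h⟩ := hprod ha hb
    have h1 := h j i hij.symm
    rw [hinv hc hij, hinv ha hij, hinv hb hij, h i j hij, mul_inv_rev] at h1
    exact (Commute.inv_inv_iff.1 h1.symm)
  have q3 : ∀ {a b : Fin n → Fin n → Y} (ha : C.Fam a) (hb : C.Fam b) {i j k : Fin n}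
      (hij : i ≠ j) (hjk : j ≠ k) (hik : i ≠ k), Commute (v (b i j)) (v (a j k)) := by
    intro a b ha hb i j k hij hjk hik
    obtain ⟨c, hc, h⟩ := hprod ha hb
    have h1 := hsplit hc hij hjk hik
    rw [h i k hik, h i j hij, h j k hjk, hsplit ha hij hjk hik, hsplit hb hij hjk hik] at h1
    have h2 : v (a i j) * (v (b i j) * v (a j k)) * v (b j k) =
        v (a i j) * (v (a j k) * v (b i j)) * v (b j k) := by
      rw [mul_assoc, mul_assoc] at h1
      simp only [mul_assoc] at h1 ⊢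
      exact h1.symm
    exact mul_left_cancel (mul_right_cancel h2)
  have q4 : ∀ {a b : Fin n → Fin n → Y} (ha : C.Fam a) (hb : C.Fam b) {i j k l : Fin n}
      (hij : i ≠ j) (hkl : k ≠ l), Commute (v (a i j)) (v (b k l)) := by
    intro a b ha hb i j k l hij hkl
    by_cases hik : i = k
    · subst hik
      by_cases hjl : j = l
      · subst hjl
        exact q2 ha hb hij
      · have h1 : Commute (v (b l i)) (v (a i j)) := q3 ha hb hkl.symm hij (Ne.symm hjl)
        rw [hinv hb hkl.symm]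
        exact h1.symm.inv_right
    · by_cases hil : i = l
      · subst hil
        by_cases hjk : j = k
        · subst hjk
          rw [hinv hb hij]
          exact (q2 ha hb hij).inv_right
        · exact (q3 ha hb hkl hij (Ne.symm hjk)).symm
      · by_cases hjk : j = k
        · subst hjk
          exact q3 hb ha hij hkl hil
        · by_cases hjl : j = l
          · subst hjl
            rw [hinv hb (Ne.symm hkl)]
            exact (q3 hb ha hij hjk hik).inv_right
          · have h1 := C.fam_comm ha hb hij hkl hik hil hjk hjl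
            have h2 := congrArg v h1
            rw [vm _ (C.fam_mem_R ha hij) _ (C.fam_mem_R hb hkl),
              vm _ (C.fam_mem_R hb hkl) _ (C.fam_mem_R ha hij)] at h2
            exact h2
  have hgen : ∀ {r : Y}, (∃ i j, i ≠ j ∧ ∃ x ∈ C.I i j, r = x * C.s i j) →
      ∃ a i j, C.Fam a ∧ i ≠ j ∧ a i j = r := by
    rintro r ⟨i, j, hij, x₀, hx₀, rfl⟩
    have h0 : x₀ * C.s i j * C.s i j ∈ C.I i j := by
      rw [mul_assoc, C.s_mul_self, mul_one]
      exact hx₀
    obtain ⟨a, ha, hae⟩ := C.exists_fam hij h0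
    exact ⟨a, i, j, ha, hij, hae⟩
  have hind : ∀ z : Y, (∀ {a : Fin n → Fin n → Y} (ha : C.Fam a) {i j : Fin n} (hij : i ≠ j),
      Commute (v (a i j)) (v z)) → ∀ x ∈ C.R, Commute (v x) (v z) := by
    intro z hz x hx
    refine Subgroup.closure_induction (p := fun x _ => Commute (v x) (v z)) ?_ ?_ ?_ ?_ hx
    · intro r hr
      obtain ⟨a, i, j, ha, hij, rfl⟩ := hgen hr
      exact hz ha hij
    · have h1 : v 1 = 1 := (v1 1 (one_mem _)).2 (one_mem _)
      rw [h1]
      exact Commute.one_left _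
    · intro x y hx hy h h'
      rw [vm x hx y hy]
      exact h.mul_left h'
    · intro x hx h
      rw [vi x hx]
      exact h.inv_left
  have hfin : ∀ x ∈ C.R, ∀ y ∈ C.R, Commute (v x) (v y) := by
    intro x hx
    have h1 : ∀ {a : Fin n → Fin n → Y} (ha : C.Fam a) {i j : Fin n} (hij : i ≠ j),
        Commute (v (a i j)) (v x) := by
      intro a ha i j hij
      exact (hind (a i j) (fun hb _ _ hkl => q4 hb ha hkl hij) x hx).symm
    exact fun y hy => (hind x h1 y hy).symm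
  intro x hx y hy
  have hxi := inv_mem hx
  have hyi := inv_mem hy
  refine (v1 _ (mul_mem (mul_mem (mul_mem hx hy) hxi) hyi)).1 ?_
  rw [vm _ (mul_mem (mul_mem hx hy) hxi) _ hyi, vm _ (mul_mem hx hy) _ hxi, vm _ hx _ hy,
    vi _ hx, vi _ hy, (hfin x hx y hy).eq]
  group

end CoxData

end Pool.Agent.Lib.MP_558536_al_CX
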