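import Mathlib
import Pool.Agent.Lib.MP_558536_al.TwoLocal
import Pool.Agent.Lib.MP_558536_al_CX.CoxF

set_option autoImplicit false

/-!
# Project CX, module CoxG: `R` is finite

* `metabelian_finite`: `Y` periodic with finite subgroups of order at most `B`; `D ≤ R` subgroups,
  `D` abelian, `R` normalizes `D` and the commutators of `R` are in `D`; then `R` is finite.
  Proof: `D` is finite by `Pool.Agent.Lib.MP_558536_al.engel_finite B` applied to the group `↥D`
  (abelian; its finite subgroups map injectively to finite subgroups of `Y`,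
  `Subgroup.map D.subtype`).  Then `K = D.subgroupOf R` is a finite normal subgroup of `↥R` and
  `↥R ⧸ K` is abelian, periodic (`torsion_quotient`) and its finite subgroups have order at most
  `B` (`card_quotient_subgroup_le`), so it is finite by `engel_finite` again; hence `↥R` is finite
  (`preimage_finite` with `s = Set.univ`).
* `R_finite`: apply it to `DD ≤ R` with `DD_comm`, `DD_conj`, `R_comm_mem`, `D_abelian`.
-/

namespace Pool.Agent.Lib.MP_558536_al_CX

open Equiv

universe u

private theorem CoxG_card {Y : Type u} [Group Y] {B : ℕ}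
    (hB : ∀ K : Subgroup Y, (K : Set Y).Finite → Nat.card K ≤ B) (R : Subgroup Y)
    (F : Subgroup R) (hF : (F : Set R).Finite) : Nat.card F ≤ B := by
  have h1 : Nat.card (F.map R.subtype) = Nat.card F :=
    Nat.card_congr (F.equivMapOfInjective _ R.subtype_injective).symm.toEquiv
  rw [← h1]
  apply hB
  rw [Subgroup.coe_map]
  exact hF.image _

private theorem CoxG_tors {Y : Type u} [Group Y] (hY : ∀ x : Y, IsOfFinOrder x)
    (R : Subgroup Y) (x : R) : IsOfFinOrder x := by
  obtain ⟨n, hn, hx⟩ := isOfFinOrder_iff_pow_eq_one.1 (hY x.1)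
  exact isOfFinOrder_iff_pow_eq_one.2 ⟨n, hn, Subtype.ext (by simpa using hx)⟩

theorem metabelian_finite {Y : Type u} [Group Y] (hY : ∀ x : Y, IsOfFinOrder x) {B : ℕ}
    (hB : ∀ K : Subgroup Y, (K : Set Y).Finite → Nat.card K ≤ B) (R D : Subgroup Y) (hDR : D ≤ R)
    (hD : ∀ x ∈ D, ∀ y ∈ D, x * y = y * x) (hN : ∀ r ∈ R, ∀ x ∈ D, r * x * r⁻¹ ∈ D)
    (hc : ∀ x ∈ R, ∀ y ∈ R, x * y * x⁻¹ * y⁻¹ ∈ D) : (R : Set Y).Finite := by
  have hDfin : (D : Set Y).Finite := by
    have h1 : Finite D := by
      refine Pool.Agent.Lib.MP_558536_al.engel_finite B D (CoxG_tors hY D) (fun x y => ?_)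
        (CoxG_card hB D)
      exact Subtype.ext (hD x.1 x.2 (y⁻¹ * x * y).1 (y⁻¹ * x * y).2)
    exact Set.toFinite _
  have hnorm : (D.subgroupOf R).Normal := by
    refine ⟨fun x hx g => ?_⟩
    rw [Subgroup.mem_subgroupOf] at hx ⊢
    exact hN g.1 g.2 x.1 hx
  have hKfin : ((D.subgroupOf R : Subgroup R) : Set R).Finite := by
    have h1 : ((D.subgroupOf R : Subgroup R) : Set R) = (fun x : R => x.1) ⁻¹' (D : Set Y) := by
      ext x
      exact Subgroup.mem_subgroupOf
    rw [h1]
    exact hDfin.preimage (fun a _ b _ h => Subtype.ext h)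
  have hcomm : ∀ q r : R ⧸ D.subgroupOf R, q * r = r * q := by
    intro q r
    induction q using QuotientGroup.induction_on with
    | H x =>
      induction r using QuotientGroup.induction_on with
      | H y =>
        have h1 : ((x * y : R) : R ⧸ D.subgroupOf R) = ((y * x : R) : R ⧸ D.subgroupOf R) := by
          rw [QuotientGroup.eq, Subgroup.mem_subgroupOf]
          have h2 := hc y.1⁻¹ (R.inv_mem y.2) x.1⁻¹ (R.inv_mem x.2)
          have h3 : (((x * y)⁻¹ * (y * x) : R) : Y) = y.1⁻¹ * x.1⁻¹ * y.1⁻¹⁻¹ * x.1⁻¹⁻¹ := by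
            simp only [Subgroup.coe_mul, Subgroup.coe_inv]
            group
          rw [h3]
          exact h2
        exact h1
  have hfin : Finite (R ⧸ D.subgroupOf R) := by
    refine Pool.Agent.Lib.MP_558536_al.engel_finite B _
      (Pool.Agent.Lib.MP_558536_al.torsion_quotient _ (CoxG_tors hY R)) (fun x y => hcomm _ _)
      (Pool.Agent.Lib.MP_558536_al.card_quotient_subgroup_le _ hKfin (CoxG_card hB R))
  have h2 := Pool.Agent.Lib.MP_558536_al.preimage_finite (D.subgroupOf R) hKfin
    (Set.toFinite (Set.univ : Set (R ⧸ D.subgroupOf R)))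
  have h3 : Finite R := Set.finite_univ_iff.1 (by simpa using h2)
  exact Set.toFinite _

namespace CoxData

variable {Y : Type u} [Group Y] {n : ℕ} (C : CoxData Y n)

theorem R_finite (hY : ∀ x : Y, IsOfFinOrder x) {B : ℕ}
    (hB : ∀ K : Subgroup Y, (K : Set Y).Finite → Nat.card K ≤ B)
    (c : Perm (Fin n)) (hc : c ^ n = 1)
    (hmove : ∀ (i : Fin n) (k : ℕ), 0 < k → k < n → (c ^ k) i ≠ i)
    (h7 : ∀ r ∈ C.R, (r * C.φ c) ^ n = 1) : (C.R : Set Y).Finite :=
  metabelian_finite hY hB C.R C.DD C.DD_le_R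
    (C.DD_comm fun _ _ hx _ hy => C.D_abelian c hc hmove h7 hx hy) C.DD_conj C.R_comm_mem

end CoxData

end Pool.Agent.Lib.MP_558536_al_CX
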