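import Mathlib
import Pool.Agent.Lib.MP_558536_al_CX.Base

set_option autoImplicit false

/-!
# Project CX, module DiagM: simultaneous diagonalization of commuting involutions

`f : E → SL_m(F)` with `E` an elementary abelian 2-group and `2 ≠ 0` in `F`: there is an invertible
matrix `P` such that all `P⁻¹ * f v * P` are diagonal with entries `±1`.

Route 1 (Mathlib): the endomorphisms `A v = Matrix.toLin' (f v)` of `V = Fin m → F` commute
pairwise, `A v ^ 2 = 1`, so `A v` is semisimple
(`Module.End.isSemisimple_of_squarefree_aeval_eq_zero`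
with `X ^ 2 - 1`, squarefree as `2 ≠ 0`) and `⨆ μ, maxGenEigenspace = ⊤`; use
`Module.End.iSup_iInf_maxGenEigenspace_eq_top_of_iSup_maxGenEigenspace_eq_top_of_commute`,
`Module.End.independent_iInf_maxGenEigenspace_of_forall_mapsTo` and a basis adapted to the internal
direct sum (`DirectSum.IsInternal.collectedBasis`), reindexed by `Fin m` (`finrank = m`).

Route 2 (by hand): show by strong induction on `finrank W` that every subspace `W` of `V`
invariant under all `f v` has a basis (indexed by `Fin (finrank W)`) of common eigenvectors: if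
every `f v` acts on `W` as `1` or `-1`, take any basis; otherwise some `A = f v` has
`W = ker (A - 1) ⊓ W ⊕ ker (A + 1) ⊓ W` with both summands proper, invariant; combine the bases.
Alternatively: show that common eigenvectors span `V` (same induction) and extract a basis
(`exists_linearIndependent`, `Module.Basis.ofSpan` or similar).

The eigenvalues are `±1` because `f v * f v = 1`: `μ ^ 2 = 1`, so `μ = sg F u` for a unit
`u : ℤˣ`.  `P` is the matrix whose columns are the basis vectors.
-/

namespace Pool.Agent.Lib.MP_558536_al_CX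

private theorem DiagM_span {V : Type*} {F : Type*} [Field F] [AddCommGroup V] [Module F V]
    [FiniteDimensional F V] (h2 : (2 : F) ≠ 0) {E : Type*} (A : E → V →ₗ[F] V)
    (hsq : ∀ v x, A v (A v x) = x) (hcm : ∀ v w x, A v (A w x) = A w (A v x)) :
    ∀ (d : ℕ) (W : Submodule F V), Module.finrank F W ≤ d → (∀ v, ∀ x ∈ W, A v x ∈ W) →
      W ≤ Submodule.span F {x | ∀ v, A v x = x ∨ A v x = -x} := by
  intro d
  induction d with
  | zero =>
    intro W hW _
    have h0 : W = ⊥ := Submodule.finrank_eq_zero.1 (Nat.le_zero.1 hW)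
    rw [h0]
    exact bot_le
  | succ d ih =>
    intro W hW hinv
    by_cases hall : ∀ v, (∀ x ∈ W, A v x = x) ∨ (∀ x ∈ W, A v x = -x)
    · intro x hx
      apply Submodule.subset_span
      intro v
      rcases hall v with h | h
      · exact Or.inl (h x hx)
      · exact Or.inr (h x hx)
    · push Not at hall
      obtain ⟨v, ⟨x, hx, hx1⟩, ⟨y, hy, hy1⟩⟩ := hall
      have key : ∀ c : F, (∃ z ∈ W, A v z ≠ c • z) →
          (W ⊓ LinearMap.ker (A v - c • LinearMap.id)) ≤
            Submodule.span F {x | ∀ v, A v x = x ∨ A v x = -x} := by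
        rintro c ⟨z, hz, hzc⟩
        have hmem : ∀ u, u ∈ W ⊓ LinearMap.ker (A v - c • LinearMap.id) ↔
            u ∈ W ∧ A v u = c • u := by
          intro u
          rw [Submodule.mem_inf, LinearMap.mem_ker, LinearMap.sub_apply, LinearMap.smul_apply,
            LinearMap.id_apply, sub_eq_zero]
        apply ih
        · have hlt : W ⊓ LinearMap.ker (A v - c • LinearMap.id) < W := by
            refine lt_of_le_of_ne inf_le_left fun h => ?_
            rw [← h] at hz
            exact hzc ((hmem z).1 hz).2
          have := Submodule.finrank_lt_finrank_of_lt hlt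
          omega
        · intro w u hu
          rw [hmem] at hu ⊢
          refine ⟨hinv w u hu.1, ?_⟩
          rw [hcm, hu.2, map_smul]
      have k1 := key 1 ⟨x, hx, by rwa [one_smul]⟩
      have k2 := key (-1) ⟨y, hy, by rwa [neg_smul, one_smul]⟩
      intro u hu
      have hAu := hinv v u hu
      have e : u = (2 : F)⁻¹ • (u + A v u) + (2 : F)⁻¹ • (u - A v u) := by
        rw [← smul_add, add_add_sub_cancel, ← two_smul F u, smul_smul, inv_mul_cancel₀ h2,
          one_smul]
      rw [e]
      refine Submodule.add_mem _ (Submodule.smul_mem _ _ (k1 ?_))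
        (Submodule.smul_mem _ _ (k2 ?_))
      · rw [Submodule.mem_inf, LinearMap.mem_ker, LinearMap.sub_apply, LinearMap.smul_apply,
          LinearMap.id_apply, map_add, hsq]
        refine ⟨W.add_mem hu hAu, ?_⟩
        rw [one_smul]
        abel
      · rw [Submodule.mem_inf, LinearMap.mem_ker, LinearMap.sub_apply, LinearMap.smul_apply,
          LinearMap.id_apply, map_sub, hsq]
        refine ⟨W.sub_mem hu hAu, ?_⟩
        rw [neg_smul, one_smul]
        abel

theorem exists_diag {m : ℕ} {F : Type*} [Field F] (h2 : (2 : F) ≠ 0) {E : Type*} [CommGroup E]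
    (hE : ∀ v : E, v * v = 1) (f : E →* Matrix.SpecialLinearGroup (Fin m) F) :
    ∃ (P : Matrix.GeneralLinearGroup (Fin m) F) (d : E → Fin m → ℤˣ), ∀ v,
      ((f v : Matrix.SpecialLinearGroup (Fin m) F) : Matrix (Fin m) (Fin m) F) =
        (P : Matrix (Fin m) (Fin m) F) * Matrix.diagonal (fun i => sg F (d v i)) *
          ((P⁻¹ : Matrix.GeneralLinearGroup (Fin m) F) : Matrix (Fin m) (Fin m) F) := by
  classical
  obtain ⟨A, hA⟩ : ∃ A : E → (Fin m → F) →ₗ[F] (Fin m → F),
      A = fun v => Matrix.toLin' ((f v : Matrix.SpecialLinearGroup (Fin m) F) :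
        Matrix (Fin m) (Fin m) F) := ⟨_, rfl⟩
  have hAA : ∀ v w x, A v (A w x) = A (v * w) x := by
    intro v w x
    rw [hA]
    simp only
    rw [map_mul, Matrix.SpecialLinearGroup.coe_mul, Matrix.toLin'_mul_apply]
  have hA1 : ∀ x, A 1 x = x := by
    intro x
    rw [hA]
    simp only
    rw [map_one, Matrix.SpecialLinearGroup.coe_one, Matrix.toLin'_one, LinearMap.id_apply]
  have hspan := DiagM_span h2 A (fun v x => by rw [hAA, hE, hA1])
    (fun v w x => by rw [hAA, hAA, mul_comm]) (Module.finrank F (Fin m → F)) ⊤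
    (le_of_eq (finrank_top F (Fin m → F))) (fun _ _ _ => Submodule.mem_top)
  obtain ⟨b, hbS, hbspan, hbli⟩ := exists_linearIndependent F
    {x : Fin m → F | ∀ v, A v x = x ∨ A v x = -x}
  have hbtop : ⊤ ≤ Submodule.span F (Set.range (Subtype.val : b → (Fin m → F))) := by
    rw [Subtype.range_coe, hbspan]
    exact hspan
  let B₀ := Module.Basis.mk hbli hbtop
  let B : Module.Basis (Fin m) F (Fin m → F) :=
    B₀.reindex (B₀.indexEquiv (Pi.basisFun F (Fin m)))
  have hB : ∀ i, ∀ v, A v (B i) = B i ∨ A v (B i) = -B i := by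
    intro i
    have h1 : B i = ((B₀.indexEquiv (Pi.basisFun F (Fin m))).symm i : b).1 := by
      change (B₀.reindex (B₀.indexEquiv (Pi.basisFun F (Fin m)))) i = _
      rw [Module.Basis.reindex_apply, Module.Basis.mk_apply]
    rw [h1]
    exact hbS ((B₀.indexEquiv (Pi.basisFun F (Fin m))).symm i).2
  let e := Pi.basisFun F (Fin m)
  let P : Matrix.GeneralLinearGroup (Fin m) F :=
    ⟨e.toMatrix B, B.toMatrix e, e.toMatrix_mul_toMatrix_flip B, B.toMatrix_mul_toMatrix_flip e⟩
  have hP : ∀ i j, (P : Matrix (Fin m) (Fin m) F) i j = B j i := by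
    intro i j
    change e.toMatrix B i j = B j i
    rw [Module.Basis.toMatrix_apply, Pi.basisFun_repr]
  refine ⟨P, fun v i => if A v (B i) = B i then 1 else -1, fun v => ?_⟩
  have hcol : ∀ j, A v (B j) = sg F (if A v (B j) = B j then 1 else -1) • B j := by
    intro j
    by_cases h : A v (B j) = B j
    · rw [if_pos h, map_one, one_smul, h]
    · rw [if_neg h, sg_apply]
      simp only [Units.val_neg, Units.val_one, Int.cast_neg, Int.cast_one, neg_smul, one_smul]
      exact (hB j v).resolve_left h
  have hmul : ((f v : Matrix.SpecialLinearGroup (Fin m) F) : Matrix (Fin m) (Fin m) F) *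
      (P : Matrix (Fin m) (Fin m) F) = (P : Matrix (Fin m) (Fin m) F) *
        Matrix.diagonal (fun i => sg F (if A v (B i) = B i then 1 else -1)) := by
    ext i j
    rw [Matrix.mul_diagonal, hP]
    have h1 := congrFun (hcol j) i
    rw [Pi.smul_apply, smul_eq_mul] at h1
    rw [mul_comm, ← h1, Matrix.mul_apply]
    have h3 : A v (B j) i = ∑ k, ((f v : Matrix.SpecialLinearGroup (Fin m) F) :
        Matrix (Fin m) (Fin m) F) i k * B j k := by
      rw [hA]
      simp only
      rw [Matrix.toLin'_apply]
      rfl
    rw [h3]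
    exact Finset.sum_congr rfl fun k _ => by rw [hP]
  rw [← hmul, mul_assoc]
  have h4 : (P : Matrix (Fin m) (Fin m) F) *
      ((P⁻¹ : Matrix.GeneralLinearGroup (Fin m) F) : Matrix (Fin m) (Fin m) F) = 1 :=
    Units.mul_inv P
  rw [h4, mul_one]

end Pool.Agent.Lib.MP_558536_al_CX
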