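import Mathlib
import Pool.Agent.Lib.MP_558536_al_CX.Base

set_option autoImplicit false

/-!
# Project CX, module EvA: combinatorics of even sign vectors, part A (theorems card_Ev to swap_of_defect; the rest is in EvB)

Useful: the vector `ps a b` (`a ≠ b`) with `-1` exactly at `a` and `b`
(`fun i => if i = a ∨ i = b then -1 else 1`); more generally for a finite set `S` of even
cardinality the vector with `-1` exactly on `S` (`Finset.prod_ite`, `Finset.prod_const`).

* `card_Ev`: the map `Ev n → (Fin (n-1) → ℤˣ)` forgetting the last coordinate is a bijection; or: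
  `Ev n` is the kernel of the surjection `v ↦ ∏ v i` onto `ℤˣ`
  (`Subgroup.card_eq_card_quotient_mul_card_subgroup`).
* `pm_faithful` (`3 ≤ n`): if `σ a = b ≠ a`, choose `c ≠ a, b`; the vector with `-1` exactly at
  `a` and `c` has value `-1` at `a`; its image under `pm σ` has value `-1` at `σ a = b`, but the
  vector itself has value `1` at `b`.
* `swap_defect`: `v * pm (swap i j) v` is `1` or the vector with `-1` exactly at `i`, `j`.
* `swap_of_defect`: `κ * κ = 1`, `n` odd, all `w * pm κ w ∈ {1, u}`.  If `κ ≠ 1` let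
  `κ a = b ≠ a`.  As `n` is odd, `κ` has a fixed point `p` (an involution on an odd set; e.g.
  `Function.Involutive.card_fixedPoints...` / `Equiv.Perm.card_fixedPoints_modEq` with `p = 2`).
  The vector `w` with `-1` at `a` and `p` has `w * pm κ w` equal to the vector with `-1` exactly at
  `a` and `b`; so this is `u`.  If `κ a' ≠ a'`, then similarly `u` has `-1` exactly at `a'` and
  `κ a'`; so `{a', κ a'} = {a, b}`; hence `κ = swap a b`.
* `invariant_set`: if the permutations of `K` have no common nontrivial fixed vector and `S` is a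
  `K`-invariant set, then `S` is empty or everything: one of `S`, `Sᶜ` has even cardinality
  (`n` odd); the vector with `-1` exactly on it is fixed, hence is `1`, so that set is empty.
* `rot_pow`, `rot_move`: `finRotate n` is an `n`-cycle: e.g. `(finRotate n ^ k) i = i + k`
  in `Fin n` (`finRotate_succ_apply`), for `n = m + 1`.
* `rot_fixed` (`n` odd): a fixed vector is constant, and the constant `-1` has product
  `(-1) ^ n = -1`.
* `perm_fixed` (`n` odd): a vector fixed by all permutations (or all transpositions) is `1`.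
-/

namespace Pool.Agent.Lib.MP_558536_al_CX

open Equiv

private def sv {n : ℕ} (a : Fin n) : Fin n → ℤˣ := fun i => if i = a then -1 else 1

private theorem sv_self {n : ℕ} (a : Fin n) : sv a a = -1 := by simp [sv]

private theorem sv_ne {n : ℕ} {a i : Fin n} (h : i ≠ a) : sv a i = 1 := by simp [sv, h]

private theorem prod_sv {n : ℕ} (a : Fin n) : ∏ i, sv a i = -1 := by
  unfold sv
  rw [Finset.prod_ite_eq' Finset.univ a, if_pos (Finset.mem_univ a)]

private def ps {n : ℕ} (a b : Fin n) : Ev n :=
  ⟨fun i => sv a i * sv b i, by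
    rw [Ev.mem_iff, Finset.prod_mul_distrib, prod_sv, prod_sv, Int.units_mul_self]⟩

private theorem ps_apply {n : ℕ} (a b i : Fin n) : (ps a b).1 i = sv a i * sv b i := rfl

private theorem sv_symm {n : ℕ} (κ : Perm (Fin n)) (a k : Fin n) :
    sv a (κ.symm k) = sv (κ a) k := by
  unfold sv
  simp only [Equiv.symm_apply_eq]

private theorem neg_one_ne : (-1 : ℤˣ) ≠ 1 := by decide

theorem card_Ev {n : ℕ} (hn : 1 ≤ n) : Nat.card (Ev n) = 2 ^ (n - 1) := by
  obtain ⟨m, rfl⟩ : ∃ m, n = m + 1 := ⟨n - 1, by omega⟩
  let e : Ev (m + 1) ≃ (Fin m → ℤˣ) :=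
    { toFun := fun v => fun i : Fin m => v.1 (Fin.succ i)
      invFun := fun w => ⟨Fin.cons (∏ i, w i) w, by
        rw [Ev.mem_iff, Fin.prod_univ_succ]
        simp only [Fin.cons_zero, Fin.cons_succ, Int.units_mul_self]⟩
      left_inv := by
        intro v
        apply Subtype.ext
        funext i
        refine Fin.cases ?_ (fun j => ?_) i
        · have h := (Ev.mem_iff v.1).1 v.2
          rw [Fin.prod_univ_succ] at h
          change ∏ i : Fin m, v.1 (Fin.succ i) = v.1 0
          rw [← Int.units_inv_eq_self (v.1 0)]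
          exact eq_inv_of_mul_eq_one_right h
        · rfl
      right_inv := by
        intro w
        funext i
        rfl }
  rw [Nat.card_congr e, Nat.card_eq_fintype_card, Fintype.card_fun, Fintype.card_units_int,
    Fintype.card_fin, Nat.add_sub_cancel]

theorem pm_faithful {n : ℕ} (h3 : 3 ≤ n) {σ : Perm (Fin n)} (h : ∀ v : Ev n, pm σ v = v) :
    σ = 1 := by
  apply Equiv.ext
  intro a
  change σ a = a
  by_contra hab
  obtain ⟨c, -, hc⟩ := Finset.exists_mem_notMem_of_card_lt_card
    (s := ({a, σ a} : Finset (Fin n))) (t := Finset.univ)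
    (lt_of_le_of_lt Finset.card_le_two (by rw [Finset.card_univ, Fintype.card_fin]; omega))
  rw [Finset.mem_insert, Finset.mem_singleton, not_or] at hc
  have h1 := congrArg (fun v : Ev n => v.1 (σ a)) (h (ps a c))
  simp only [pm_apply, ps_apply, Equiv.symm_apply_apply] at h1
  rw [sv_self, sv_ne (Ne.symm hc.1), sv_ne hab, sv_ne (Ne.symm hc.2)] at h1
  simp at h1

theorem swap_defect {n : ℕ} {i j : Fin n} (hij : i ≠ j) :
    ∃ u : Ev n, ∀ v : Ev n, v * pm (swap i j) v = 1 ∨ v * pm (swap i j) v = u := by
  refine ⟨ps i j, fun v => ?_⟩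
  by_cases hv : v.1 i = v.1 j
  · left
    apply Subtype.ext
    funext k
    change v.1 k * v.1 ((swap i j).symm k) = 1
    rw [Equiv.symm_swap]
    by_cases hki : k = i
    · rw [hki, swap_apply_left, hv, Int.units_mul_self]
    · by_cases hkj : k = j
      · rw [hkj, swap_apply_right, hv, Int.units_mul_self]
      · rw [swap_apply_of_ne_of_ne hki hkj, Int.units_mul_self]
  · right
    have hm : v.1 i * v.1 j = -1 := by
      rcases Int.units_eq_one_or (v.1 i) with h1 | h1 <;>
        rcases Int.units_eq_one_or (v.1 j) with h2 | h2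
      · exact absurd (h1.trans h2.symm) hv
      · rw [h1, h2, one_mul]
      · rw [h1, h2, mul_one]
      · exact absurd (h1.trans h2.symm) hv
    apply Subtype.ext
    funext k
    change v.1 k * v.1 ((swap i j).symm k) = sv i k * sv j k
    rw [Equiv.symm_swap]
    by_cases hki : k = i
    · rw [hki, swap_apply_left, hm, sv_self, sv_ne hij, mul_one]
    · by_cases hkj : k = j
      · rw [hkj, swap_apply_right, mul_comm, hm, sv_self, sv_ne hij.symm, one_mul]
      · rw [swap_apply_of_ne_of_ne hki hkj, Int.units_mul_self, sv_ne hki, sv_ne hkj, one_mul]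

theorem swap_of_defect {n : ℕ} (hn : Odd n) {κ : Perm (Fin n)} (hκ : κ * κ = 1) (u : Ev n)
    (hu : ∀ w : Ev n, w * pm κ w = 1 ∨ w * pm κ w = u) :
    κ = 1 ∨ ∃ a b, a ≠ b ∧ κ = swap a b := by
  by_cases h1 : κ = 1
  · exact Or.inl h1
  right
  obtain ⟨a, ha⟩ : ∃ a, κ a ≠ a := by
    by_contra hcon
    push Not at hcon
    exact h1 (Equiv.ext hcon)
  have hinv : ∀ k, κ (κ k) = k := fun k => by
    rw [← Perm.mul_apply, hκ, Perm.one_apply]
  have : Fact (Nat.Prime 2) := ⟨Nat.prime_two⟩
  obtain ⟨p, hp⟩ := Equiv.Perm.exists_fixed_point_of_prime (p := 2) (n := 1) (α := Fin n)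
    (by rw [Fintype.card_fin, ← even_iff_two_dvd, Nat.not_even_iff_odd]; exact hn)
    (σ := κ) (by rw [pow_one, pow_two, hκ])
  have key : ∀ x, κ x ≠ x → u = ps x (κ x) := by
    intro x hx
    have hval : ps x p * pm κ (ps x p) = ps x (κ x) := by
      apply Subtype.ext
      funext k
      change (sv x k * sv p k) * (sv x (κ.symm k) * sv p (κ.symm k)) = sv x k * sv (κ x) k
      rw [sv_symm, sv_symm, hp]
      calc (sv x k * sv p k) * (sv (κ x) k * sv p k)
          = sv x k * sv (κ x) k * (sv p k * sv p k) := by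
            rw [mul_mul_mul_comm]
        _ = sv x k * sv (κ x) k := by rw [Int.units_mul_self, mul_one]
    rcases hu (ps x p) with h2 | h2
    · exfalso
      rw [hval] at h2
      have h3 := congrArg (fun v : Ev n => v.1 x) h2
      simp only [ps_apply] at h3
      rw [sv_self, sv_ne (Ne.symm hx), mul_one] at h3
      exact neg_one_ne h3
    · rw [← h2, hval]
  refine ⟨a, κ a, Ne.symm ha, ?_⟩
  apply Equiv.ext
  intro k
  by_cases hka : k = a
  · rw [hka, swap_apply_left]
  by_cases hkb : k = κ a
  · rw [hkb, swap_apply_right, hinv]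
  rw [swap_apply_of_ne_of_ne hka hkb]
  by_contra hk
  have h2 : ps k (κ k) = ps a (κ a) := (key k hk).symm.trans (key a ha)
  have h3 := congrArg (fun v : Ev n => v.1 k) h2
  simp only [ps_apply] at h3
  rw [sv_self, sv_ne (Ne.symm hk), sv_ne hka, sv_ne hkb, mul_one, mul_one] at h3
  exact neg_one_ne h3

end Pool.Agent.Lib.MP_558536_al_CX
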