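import Mathlib
import Pool.Agent.Lib.MP_558536_al_CX.Base

set_option autoImplicit false

/-!
# Project CX, module EvB: combinatorics of even sign vectors, part B (theorems invariant_set to swap_fixed; the rest is in EvA)

Useful: the vector `ps a b` (`a ≠ b`) with `-1` exactly at `a` and `b`
(`fun i => if i = a ∨ i = b then -1 else 1`); more generally for a finite set `S` of even
cardinality the vector with `-1` exactly on `S` (`Finset.prod_ite`, `Finset.prod_const`).

* `card_Ev`: the map `Ev n → (Fin (n-1) → ℤˣ)` forgetting the last coordinate is a bijection; or: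
  `Ev n` is the kernel of the surjection `v ↦ ∏ v i` onto `ℤˣ`
  (`Subgroup.card_eq_card_quotient_mul_card_subgroup`).
* `pm_faithful` (`3 ≤ n`): if `σ a = b ≠ a`, choose `c ≠ a, b`; the vector with `-1` exactly at
  `a` and `c` has value `-1` at `a`; its image under `pm σ` has value `-1` at `σ a = b`, but the
  vector itself has value `1` at `b`.
* `swap_defect`: `v * pm (swap i j) v` is `1` or the vector with `-1` exactly at `i`, `j`.
* `swap_of_defect`: `κ * κ = 1`, `n` odd, all `w * pm κ w ∈ {1, u}`.  If `κ ≠ 1` let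
  `κ a = b ≠ a`.  As `n` is odd, `κ` has a fixed point `p` (an involution on an odd set; e.g.
  `Function.Involutive.card_fixedPoints...` / `Equiv.Perm.card_fixedPoints_modEq` with `p = 2`).
  The vector `w` with `-1` at `a` and `p` has `w * pm κ w` equal to the vector with `-1` exactly at
  `a` and `b`; so this is `u`.  If `κ a' ≠ a'`, then similarly `u` has `-1` exactly at `a'` and
  `κ a'`; so `{a', κ a'} = {a, b}`; hence `κ = swap a b`.
* `invariant_set`: if the permutations of `K` have no common nontrivial fixed vector and `S` is a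
  `K`-invariant set, then `S` is empty or everything: one of `S`, `Sᶜ` has even cardinality
  (`n` odd); the vector with `-1` exactly on it is fixed, hence is `1`, so that set is empty.
* `rot_pow`, `rot_move`: `finRotate n` is an `n`-cycle: e.g. `(finRotate n ^ k) i = i + k`
  in `Fin n` (`finRotate_succ_apply`), for `n = m + 1`.
* `rot_fixed` (`n` odd): a fixed vector is constant, and the constant `-1` has product
  `(-1) ^ n = -1`.
* `perm_fixed` (`n` odd): a vector fixed by all permutations (or all transpositions) is `1`.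
-/

namespace Pool.Agent.Lib.MP_558536_al_CX

open Equiv

private theorem evb_const {n : ℕ} (hn : Odd n) (v : Ev n) (h : ∀ i j, v.1 i = v.1 j) :
    v = 1 := by
  apply Subtype.ext
  funext i
  have hp : ∏ j, v.1 j = 1 := (Ev.mem_iff v.1).1 v.2
  have h1 : ∏ j, v.1 j = v.1 i ^ n := by
    rw [Finset.prod_congr rfl (fun j _ => h j i), Finset.prod_const, Finset.card_univ,
      Fintype.card_fin]
  rw [h1] at hp
  change v.1 i = 1
  rcases Int.units_eq_one_or (v.1 i) with h2 | h2
  · exact h2
  · rw [h2, hn.neg_one_pow] at hp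
    rw [h2]
    exact hp

private theorem evb_even {n : ℕ} (K : Set (Perm (Fin n)))
    (hK : ∀ v : Ev n, (∀ κ ∈ K, pm κ v = v) → v = 1) (S : Finset (Fin n))
    (hS : ∀ κ ∈ K, ∀ a, κ a ∈ S ↔ a ∈ S) (he : Even S.card) : S = ∅ := by
  have hv : (fun i => if i ∈ S then (-1 : ℤˣ) else 1) ∈ Ev n := by
    rw [Ev.mem_iff, Finset.prod_ite_mem, Finset.univ_inter, Finset.prod_const]
    exact he.neg_one_pow
  have h1 : (⟨_, hv⟩ : Ev n) = 1 := by
    apply hK
    intro κ hκ
    apply Subtype.ext
    funext i
    have h2 := hS κ hκ (κ.symm i)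
    rw [Equiv.apply_symm_apply] at h2
    simp only [pm_apply, h2]
  rw [Finset.eq_empty_iff_forall_notMem]
  intro i hi
  have h3 : (if i ∈ S then (-1 : ℤˣ) else 1) = 1 := congrFun (congrArg Subtype.val h1) i
  rw [if_pos hi] at h3
  exact absurd h3 (by decide)

private theorem evb_val {n : ℕ} (i : Fin n) (k : ℕ) :
    (((finRotate n ^ k) i : Fin n) : ℕ) = (i + k) % n := by
  induction k with
  | zero => simp [Nat.mod_eq_of_lt i.2]
  | succ k ih =>
    have := i.neZero
    rw [pow_succ', Perm.mul_apply, finRotate_apply, Fin.val_add, ih, Fin.val_one']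
    rw [← Nat.add_mod, add_assoc]

theorem invariant_set {n : ℕ} (hn : Odd n) (K : Set (Perm (Fin n)))
    (hK : ∀ v : Ev n, (∀ κ ∈ K, pm κ v = v) → v = 1) (S : Finset (Fin n))
    (hS : ∀ κ ∈ K, ∀ a, κ a ∈ S ↔ a ∈ S) : S = ∅ ∨ S = Finset.univ := by
  rcases Nat.even_or_odd S.card with he | ho
  · exact Or.inl (evb_even K hK S hS he)
  · right
    have h1 : Even Sᶜ.card := by
      rw [Finset.card_compl, Fintype.card_fin]
      exact hn.tsub_odd ho
    have h2 : Sᶜ = ∅ := by
      apply evb_even K hK Sᶜ _ h1
      intro κ hκ a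
      rw [Finset.mem_compl, Finset.mem_compl, hS κ hκ a]
    rwa [Finset.compl_eq_empty_iff] at h2

theorem rot_pow (n : ℕ) : finRotate n ^ n = 1 := by
  ext i
  rw [evb_val, Nat.add_mod_right, Nat.mod_eq_of_lt i.2, Perm.one_apply]

theorem rot_move (n : ℕ) (i : Fin n) (k : ℕ) (hk : 0 < k) (hkn : k < n) :
    (finRotate n ^ k) i ≠ i := by
  intro h
  have h1 := evb_val i k
  rw [h] at h1
  have h2 := i.2
  rcases lt_or_ge ((i : ℕ) + k) n with h3 | h3
  · rw [Nat.mod_eq_of_lt h3] at h1
    omega
  · rw [Nat.mod_eq_sub_mod h3, Nat.mod_eq_of_lt (by omega)] at h1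
    omega

theorem rot_fixed {n : ℕ} (hn : Odd n) {v : Ev n} (h : pm (finRotate n) v = v) : v = 1 := by
  have h1 : ∀ i, v.1 (finRotate n i) = v.1 i := by
    intro i
    have h2 := congrFun (congrArg Subtype.val h) (finRotate n i)
    rw [pm_apply, Equiv.symm_apply_apply] at h2
    exact h2.symm
  have h2 : ∀ (k : ℕ) (i : Fin n), v.1 ((finRotate n ^ k) i) = v.1 i := by
    intro k
    induction k with
    | zero => intro i; rfl
    | succ k ih => intro i; rw [pow_succ', Perm.mul_apply, h1, ih]
  have h3 : ∀ i j : Fin n, v.1 i = v.1 j := by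
    intro i j
    have h4 : (finRotate n ^ ((j : ℕ) + (n - i))) i = j := by
      apply Fin.ext
      rw [evb_val]
      have h5 := i.2
      have h6 : (i : ℕ) + (j + (n - i)) = j + n := by omega
      rw [h6, Nat.add_mod_right, Nat.mod_eq_of_lt j.2]
    rw [← h2 ((j : ℕ) + (n - i)) i, h4]
  exact evb_const hn v h3

theorem swap_fixed {n : ℕ} (hn : Odd n) {v : Ev n} (h : ∀ i j, pm (swap i j) v = v) : v = 1 := by
  apply evb_const hn v
  intro i j
  have h2 := congrFun (congrArg Subtype.val (h i j)) j
  rw [pm_apply, Equiv.symm_swap, Equiv.swap_apply_right] at h2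
  exact h2

end Pool.Agent.Lib.MP_558536_al_CX
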