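import Mathlib
import Pool.Agent.Lib.MP_558536_al_CX.Base

set_option autoImplicit false

/-!
# Project CX, module LiftM: involutions of `PSL` lift uniquely to involutions of `SL` (odd degree)

* `lift_unique`: `z = a⁻¹ * b` is central (`pr_eq_iff`), `b = a * z`, `1 = b * b = a * a * z * z`,
  so `z * z = 1`; also `z ^ n = 1` (`center_pow`) and `n` is odd, so `z = 1`.
* `lift_exists`: let `pr g = x` (`pr_surjective`), `z = g * g` is central (`pr_eq_one_iff`) and
  `z ^ n = 1`.  Write `n = 2 * k + 1`; `a = g * (z⁻¹) ^ (k + 1)`; then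
  `a * a = z * z⁻¹ ^ (2 * k + 2) = z⁻¹ ^ n = 1` and `pr a = x` since `z` is central.
* `lift_conj`: if `a * a = 1`, `b * b = 1` and `pr g * pr a = pr b * pr g`, then
  `g * a = b * g` (`g * a * g⁻¹` and `b` are involutive lifts of the same element).
* `lift_hom`: choose the involutive lift `l v` of `f v`.  For `v, w`: `l v` and `l w` commute
  (`lift_conj`, since `f v` and `f w` commute), so `l v * l w` is an involutive lift of
  `f (v * w)`, hence equals `l (v * w)` (`lift_unique`).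
-/

namespace Pool.Agent.Lib.MP_558536_al_CX

theorem lift_unique {n : ℕ} (hn : Odd n) {F : Type*} [Field F]
    {a b : Matrix.SpecialLinearGroup (Fin n) F} (ha : a * a = 1) (hb : b * b = 1)
    (h : pr a = pr b) : a = b := by
  have hz := pr_eq_iff.1 h
  obtain ⟨z, hzd⟩ : ∃ z, z = a⁻¹ * b := ⟨_, rfl⟩
  rw [← hzd] at hz
  have hb' : b = a * z := by rw [hzd, mul_inv_cancel_left]
  have hc := Subgroup.mem_center_iff.1 hz
  have hzz : z * z = 1 := by
    have e : b * b = (a * a) * (z * z) := by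
      rw [hb', mul_assoc a z, ← mul_assoc z a z, ← hc a]
      group
    rw [ha, hb, one_mul] at e
    exact e.symm
  have hzn := center_pow hz
  obtain ⟨k, rfl⟩ := hn
  rw [pow_succ, pow_mul, pow_two, hzz, one_pow, one_mul] at hzn
  rw [hb', hzn, mul_one]

theorem lift_exists {n : ℕ} (hn : Odd n) {F : Type*} [Field F] {x : PSL n F} (hx : x * x = 1) :
    ∃ a : Matrix.SpecialLinearGroup (Fin n) F, a * a = 1 ∧ pr a = x := by
  obtain ⟨g, hg⟩ := pr_surjective x
  have hz : g * g ∈ Subgroup.center (Matrix.SpecialLinearGroup (Fin n) F) := by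
    rw [← pr_eq_one_iff, map_mul, hg, hx]
  have hzn := center_pow hz
  have hz1 : pr (g * g) = 1 := pr_eq_one_iff.2 hz
  obtain ⟨z, hzd⟩ : ∃ z, z = g * g := ⟨_, rfl⟩
  rw [← hzd] at hz hzn hz1
  obtain ⟨k, rfl⟩ := hn
  have hw : (z⁻¹) ^ (k + 1) ∈ Subgroup.center
      (Matrix.SpecialLinearGroup (Fin (2 * k + 1)) F) :=
    Subgroup.pow_mem _ (Subgroup.inv_mem _ hz) _
  have hc := Subgroup.mem_center_iff.1 hw
  refine ⟨g * (z⁻¹) ^ (k + 1), ?_, ?_⟩
  · have e : g * z⁻¹ ^ (k + 1) * (g * z⁻¹ ^ (k + 1)) =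
        (g * g) * (z⁻¹ ^ (k + 1) * z⁻¹ ^ (k + 1)) := by
      rw [mul_assoc, ← mul_assoc (z⁻¹ ^ (k + 1)) g, ← hc g]
      simp only [mul_assoc]
    rw [e, ← hzd, ← pow_add]
    have e2 : k + 1 + (k + 1) = (2 * k + 1) + 1 := by ring
    rw [e2, pow_succ', mul_inv_cancel_left, inv_pow, hzn, inv_one]
  · rw [map_mul, map_pow, map_inv, hz1, inv_one, one_pow, mul_one, hg]

theorem lift_conj {n : ℕ} (hn : Odd n) {F : Type*} [Field F]
    {a b g : Matrix.SpecialLinearGroup (Fin n) F} (ha : a * a = 1) (hb : b * b = 1)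
    (h : pr g * pr a = pr b * pr g) : g * a = b * g := by
  have e1 : (g * a * g⁻¹) * (g * a * g⁻¹) = 1 := by
    have : (g * a * g⁻¹) * (g * a * g⁻¹) = g * (a * a) * g⁻¹ := by group
    rw [this, ha, mul_one, mul_inv_cancel]
  have e2 : pr (g * a * g⁻¹) = pr b := by
    rw [map_mul, map_mul, map_inv, h, mul_inv_cancel_right]
  have e3 := lift_unique hn e1 hb e2
  rw [← e3, inv_mul_cancel_right]

theorem lift_hom {n : ℕ} (hn : Odd n) {F : Type*} [Field F] {E : Type*} [CommGroup E]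
    (hE : ∀ v : E, v * v = 1) (f : E →* PSL n F) :
    ∃ l : E →* Matrix.SpecialLinearGroup (Fin n) F, ∀ v, pr (l v) = f v := by
  have h1 : ∀ v, ∃ a : Matrix.SpecialLinearGroup (Fin n) F, a * a = 1 ∧ pr a = f v := by
    intro v
    exact lift_exists hn (by rw [← map_mul, hE, map_one])
  choose l hl1 hl2 using h1
  refine ⟨⟨⟨l, ?_⟩, ?_⟩, fun v => hl2 v⟩
  · exact lift_unique hn (hl1 1) (one_mul 1) (by rw [hl2, map_one, map_one])
  · intro v w
    change l (v * w) = l v * l w
    have hc : l w * l v = l v * l w := by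
      refine lift_conj hn (hl1 v) (hl1 v) ?_
      rw [hl2, hl2, ← map_mul, ← map_mul, mul_comm]
    refine lift_unique hn (hl1 _) ?_ ?_
    · have e : l v * l w * (l v * l w) = l v * (l w * l v) * l w := by simp only [mul_assoc]
      rw [e, hc, ← mul_assoc (l v) (l v), hl1, one_mul, hl1]
    · rw [hl2, map_mul, map_mul, hl2, hl2]

end Pool.Agent.Lib.MP_558536_al_CX
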