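import Mathlib
import Pool.Agent.Lib.MP_558536_al_CX.LiftM
import Pool.Agent.Lib.MP_558536_al_CX.DiagM
import Pool.Agent.Lib.MP_558536_al_CX.EvM

set_option autoImplicit false

/-!
# Project CX, module Red: reduction to the standard group

Let `f : Ev n → PSL_m(F)` be injective, `m` odd, `2 ≠ 0` in `F`.  Let `l : Ev n → SL_m(F)` be the
lift (`lift_hom`), `P`, `d` as in `exists_diag`.  Then `∏ i, d v i = 1` (determinant: `det (l v)
= 1`, `Matrix.det_mul`, `Matrix.det_diagonal`, `sg_injective`), `d` is multiplicative and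
injective (`l` is injective because `f` is; `d v` determines `l v`), so `d` gives an injective
homomorphism `Ev n →* Ev m` (`exists_signs`).

* `rank_le`: comparing cardinalities (`card_Ev`), `n ≤ m` (`m ≥ 1` since `m` is odd; the case
  `n = 0` is trivial).
* `reduce` (`m = n`): an injective homomorphism of the finite group `Ev n` to itself is bijective:
  `θ : Ev n ≃* Ev n` (`MulEquiv.ofBijective`, `Finite.injective_iff_bijective`).  Conjugation
  `g ↦ P⁻¹ g P` is an automorphism `A₀` of `SL_n(F)` (determinant one is preserved) and maps `l v`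
  to `dg (θ v)`; it induces the automorphism `A` of `PSL_n(F)` (`QuotientGroup.congr`; an
  automorphism preserves the centre, `Subgroup.Characteristic` / `Subgroup.centerCharacteristic`).
-/

namespace Pool.Agent.Lib.MP_558536_al_CX

open Equiv

private theorem red_mul_inv {m : ℕ} {F : Type*} [Field F]
    (P : Matrix.GeneralLinearGroup (Fin m) F) :
    (P : Matrix (Fin m) (Fin m) F) *
      ((P⁻¹ : Matrix.GeneralLinearGroup (Fin m) F) : Matrix (Fin m) (Fin m) F) = 1 :=
  Units.mul_inv P

private theorem red_inv_mul {m : ℕ} {F : Type*} [Field F]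
    (P : Matrix.GeneralLinearGroup (Fin m) F) :
    ((P⁻¹ : Matrix.GeneralLinearGroup (Fin m) F) : Matrix (Fin m) (Fin m) F) *
      (P : Matrix (Fin m) (Fin m) F) = 1 :=
  Units.inv_mul P

private theorem red_conj {m : ℕ} {F : Type*} [Field F]
    {P Q : Matrix (Fin m) (Fin m) F} (hQP : Q * P = 1)
    (D : Matrix (Fin m) (Fin m) F) : Q * (P * D * Q) * P = D := by
  have e : Q * (P * D * Q) * P = (Q * P) * D * (Q * P) := by
    simp only [Matrix.mul_assoc]
  rw [e, hQP, one_mul, mul_one]

theorem exists_signs {n m : ℕ} (hm : Odd m) {F : Type*} [Field F] (h2 : (2 : F) ≠ 0)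
    (f : Ev n →* PSL m F) (hf : Function.Injective f) :
    ∃ (P : Matrix.GeneralLinearGroup (Fin m) F) (l : Ev n →* Matrix.SpecialLinearGroup (Fin m) F)
      (e : Ev n →* Ev m), Function.Injective e ∧ (∀ v, pr (l v) = f v) ∧
      ∀ v, ((l v : Matrix.SpecialLinearGroup (Fin m) F) : Matrix (Fin m) (Fin m) F) =
        (P : Matrix (Fin m) (Fin m) F) *
          ((dg F (e v) : Matrix.SpecialLinearGroup (Fin m) F) : Matrix (Fin m) (Fin m) F) *
          ((P⁻¹ : Matrix.GeneralLinearGroup (Fin m) F) : Matrix (Fin m) (Fin m) F) := by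
  obtain ⟨l, hl⟩ := lift_hom hm (E := Ev n) Ev.mul_self f
  obtain ⟨P, d, hd⟩ := exists_diag h2 (E := Ev n) Ev.mul_self l
  have hPQ := red_mul_inv P
  have hQP := red_inv_mul P
  -- the diagonal matrix in terms of the lift
  have hD : ∀ v, ((P⁻¹ : Matrix.GeneralLinearGroup (Fin m) F) : Matrix (Fin m) (Fin m) F) *
      ((l v : Matrix.SpecialLinearGroup (Fin m) F) : Matrix (Fin m) (Fin m) F) *
      (P : Matrix (Fin m) (Fin m) F) = Matrix.diagonal (fun i => sg F (d v i)) := by
    intro v
    rw [hd v]
    exact red_conj hQP _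
  have hprod : ∀ v, ∏ i, d v i = 1 := by
    intro v
    have h1 : (Matrix.diagonal (fun i => sg F (d v i))).det = 1 := by
      rw [← hD v, Matrix.det_mul, Matrix.det_mul, Matrix.SpecialLinearGroup.det_coe, mul_one,
        ← Matrix.det_mul, hQP, Matrix.det_one]
    rw [Matrix.det_diagonal, ← map_prod] at h1
    exact sg_injective h2 (h1.trans (map_one (sg F)).symm)
  have hmul : ∀ v w i, d (v * w) i = d v i * d w i := by
    intro v w i
    have h1 : Matrix.diagonal (fun i => sg F (d (v * w) i)) =
        Matrix.diagonal (fun i => sg F (d v i)) * Matrix.diagonal (fun i => sg F (d w i)) := by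
      rw [← hD (v * w), ← hD v, ← hD w, map_mul, Matrix.SpecialLinearGroup.coe_mul]
      have e : ∀ A B P Q : Matrix (Fin m) (Fin m) F, P * Q = 1 →
          Q * (A * B) * P = Q * A * P * (Q * B * P) := by
        intro A B P Q h
        have e1 : Q * A * P * (Q * B * P) = Q * A * (P * Q) * B * P := by
          simp only [Matrix.mul_assoc]
        rw [e1, h, mul_one]
        simp only [Matrix.mul_assoc]
      exact e _ _ _ _ hPQ
    rw [Matrix.diagonal_mul_diagonal] at h1
    have h3 := congrFun (Matrix.diagonal_injective h1) i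
    simp only [← map_mul] at h3
    exact sg_injective h2 h3
  refine ⟨P, l, MonoidHom.mk' (fun v => ⟨d v, hprod v⟩) (fun v w => ?_), ?_, hl, ?_⟩
  · apply Subtype.ext
    funext i
    exact hmul v w i
  · intro v w hvw
    have h1 : d v = d w := congrArg Subtype.val hvw
    apply hf
    rw [← hl v, ← hl w]
    congr 1
    apply Subtype.ext
    rw [hd v, hd w, h1]
  · intro v
    exact hd v

theorem rank_le {n m : ℕ} (hm : Odd m) {F : Type*} [Field F] (h2 : (2 : F) ≠ 0)
    (f : Ev n →* PSL m F) (hf : Function.Injective f) : n ≤ m := by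
  rcases Nat.eq_zero_or_pos n with rfl | hn
  · exact Nat.zero_le _
  obtain ⟨P, l, e, he, -, -⟩ := exists_signs hm h2 f hf
  have hm1 : 1 ≤ m := hm.pos
  have h1 := Nat.card_le_card_of_injective e he
  rw [card_Ev hn, card_Ev hm1] at h1
  have h3 := (Nat.pow_le_pow_iff_right (by norm_num : 1 < 2)).mp h1
  omega

/-- Conjugation by an invertible matrix. -/
private def redConj {n : ℕ} {F : Type*} [Field F] (P : Matrix.GeneralLinearGroup (Fin n) F) :
    Matrix.SpecialLinearGroup (Fin n) F ≃* Matrix.SpecialLinearGroup (Fin n) F where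
  toFun g := ⟨((P⁻¹ : Matrix.GeneralLinearGroup (Fin n) F) : Matrix (Fin n) (Fin n) F) *
      (g : Matrix (Fin n) (Fin n) F) * (P : Matrix (Fin n) (Fin n) F), by
    rw [Matrix.det_mul, Matrix.det_mul, Matrix.SpecialLinearGroup.det_coe, mul_one,
      ← Matrix.det_mul, red_inv_mul, Matrix.det_one]⟩
  invFun g := ⟨(P : Matrix (Fin n) (Fin n) F) * (g : Matrix (Fin n) (Fin n) F) *
      ((P⁻¹ : Matrix.GeneralLinearGroup (Fin n) F) : Matrix (Fin n) (Fin n) F), by
    rw [Matrix.det_mul, Matrix.det_mul, Matrix.SpecialLinearGroup.det_coe, mul_one,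
      ← Matrix.det_mul, red_mul_inv, Matrix.det_one]⟩
  left_inv g := by
    apply Subtype.ext
    exact red_conj (red_mul_inv P) _
  right_inv g := by
    apply Subtype.ext
    exact red_conj (red_inv_mul P) _
  map_mul' g h := by
    apply Subtype.ext
    change _ * ((g : Matrix (Fin n) (Fin n) F) * (h : Matrix (Fin n) (Fin n) F)) * _ =
      _ * (g : Matrix (Fin n) (Fin n) F) * _ * (_ * (h : Matrix (Fin n) (Fin n) F) * _)
    have e1 : ∀ A B P Q : Matrix (Fin n) (Fin n) F, P * Q = 1 →
        Q * (A * B) * P = Q * A * P * (Q * B * P) := by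
      intro A B P Q h
      have e2 : Q * A * P * (Q * B * P) = Q * A * (P * Q) * B * P := by
        simp only [Matrix.mul_assoc]
      rw [e2, h, mul_one]
      simp only [Matrix.mul_assoc]
    exact e1 _ _ _ _ (red_mul_inv P)

theorem reduce {n : ℕ} (hn : Odd n) {F : Type*} [Field F] (h2 : (2 : F) ≠ 0)
    (f : Ev n →* PSL n F) (hf : Function.Injective f) :
    ∃ (A : PSL n F ≃* PSL n F) (θ : Ev n ≃* Ev n), ∀ v, A (f v) = pr (dg F (θ v)) := by
  obtain ⟨P, l, e, he, hl, hP⟩ := exists_signs hn h2 f hf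
  refine ⟨QuotientGroup.congr _ _ (redConj P)
    (Subgroup.characteristic_iff_map_eq.mp inferInstance (redConj P)),
    MulEquiv.ofBijective e (Finite.injective_iff_bijective.mp he), fun v => ?_⟩
  rw [← hl v]
  have h1 : redConj P (l v) = dg F (e v) := by
    apply Subtype.ext
    change ((P⁻¹ : Matrix.GeneralLinearGroup (Fin n) F) : Matrix (Fin n) (Fin n) F) *
      (l v : Matrix (Fin n) (Fin n) F) * (P : Matrix (Fin n) (Fin n) F) = _
    rw [hP v]
    exact red_conj (red_inv_mul P) _
  change QuotientGroup.congr _ _ (redConj P) _ (QuotientGroup.mk (l v)) = pr (dg F (e v))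
  rw [QuotientGroup.congr_mk, h1]
  rfl

end Pool.Agent.Lib.MP_558536_al_CX
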