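import Mathlib
import Pool.Agent.Lib.MP_558536_al_CX.Base

set_option autoImplicit false

/-!
# Project CX, module MonoM: the normalizer of the diagonal sign matrices is monomial

* `exists_perm`: the `(i, j)` entry of `g * dg w = dg (ρ w) * g` is
  `g i j * sg (w j) = sg ((ρ w) i) * g i j`; so `g i j ≠ 0` implies `(ρ w) i = w j` for all `w`
  (`sg_injective`).  If `g i j ≠ 0` and `g i j' ≠ 0`, then `w j = w j'` for all `w : Ev n`, so
  `j = j'` (otherwise choose `p ≠ j, j'`, possible as `3 ≤ n`, and the vector with `-1` exactly at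
  `j` and `p`).  Every row and every column of the invertible matrix `g` has a nonzero entry.  So
  there is a function `r : Fin n → Fin n` with `g i j ≠ 0 ↔ j = r i`; it is surjective (columns),
  hence bijective; `κ` is its inverse.  Finally `(ρ w) (κ j) = w j` gives `ρ w = pm κ w`.
* `diag_of_one`: the case `κ = 1`.
-/

namespace Pool.Agent.Lib.MP_558536_al_CX

open Equiv

/-- For `3 ≤ n` even sign vectors separate the coordinates. -/
private theorem ev_sep {n : ℕ} (h3 : 3 ≤ n) (j j' : Fin n) (h : ∀ w : Ev n, w.1 j = w.1 j') :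
    j = j' := by
  by_contra hne
  obtain ⟨p, hp⟩ : ∃ p : Fin n, p ∉ ({j, j'} : Finset (Fin n)) := by
    by_contra hall
    push Not at hall
    have hu : (Finset.univ : Finset (Fin n)) ⊆ {j, j'} := fun x _ => hall x
    have h1 := Finset.card_le_card hu
    have h4 : ({j, j'} : Finset (Fin n)).card ≤ 2 := Finset.card_le_two
    rw [Finset.card_univ, Fintype.card_fin] at h1
    omega
  simp only [Finset.mem_insert, Finset.mem_singleton, not_or] at hp
  let v : Fin n → ℤˣ := fun i => (if i = j then -1 else 1) * (if i = p then -1 else 1)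
  have hv : v ∈ Ev n := by
    rw [Ev.mem_iff]
    simp only [v, Finset.prod_mul_distrib, Finset.prod_ite_eq', Finset.mem_univ, if_true]
    simp
  have h5 := h ⟨v, hv⟩
  have h6 : v j = v j' := h5
  simp only [v, if_true] at h6
  rw [if_neg (Ne.symm hp.1), if_neg (fun e => hne e.symm), if_neg (Ne.symm hp.2)] at h6
  revert h6
  decide

theorem exists_perm {n : ℕ} (h3 : 3 ≤ n) {F : Type*} [Field F] (h2 : (2 : F) ≠ 0)
    (g : Matrix.SpecialLinearGroup (Fin n) F) (ρ : Ev n → Ev n)
    (h : ∀ w, g * dg F w = dg F (ρ w) * g) :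
    ∃ κ : Perm (Fin n), (∀ w, ρ w = pm κ w) ∧
      ∀ i j, (g : Matrix (Fin n) (Fin n) F) i j ≠ 0 ↔ i = κ j := by
  set M : Matrix (Fin n) (Fin n) F := (g : Matrix (Fin n) (Fin n) F) with hM
  have key : ∀ w i j, M i j ≠ 0 → (ρ w).1 i = w.1 j := by
    intro w i j hij
    have e := congrArg (fun A : Matrix.SpecialLinearGroup (Fin n) F =>
      (A : Matrix (Fin n) (Fin n) F) i j) (h w)
    simp only [Matrix.SpecialLinearGroup.coe_mul, dg_coe, Matrix.mul_diagonal,
      Matrix.diagonal_mul] at e
    apply sg_injective h2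
    rw [← hM] at e
    have e2 : sg F ((ρ w).1 i) * M i j = sg F (w.1 j) * M i j := by
      rw [← e, mul_comm]
    exact mul_right_cancel₀ hij e2
  have hdet : M.det = 1 := g.2
  have hrow : ∀ i, ∃ j, M i j ≠ 0 := by
    intro i
    by_contra hc
    push Not at hc
    have := Matrix.det_eq_zero_of_row_eq_zero i hc
    rw [hdet] at this
    exact one_ne_zero this
  have hcol : ∀ j, ∃ i, M i j ≠ 0 := by
    intro j
    by_contra hc
    push Not at hc
    have := Matrix.det_eq_zero_of_column_eq_zero j hc
    rw [hdet] at this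
    exact one_ne_zero this
  choose r hr using hrow
  have huniq : ∀ i j, M i j ≠ 0 → j = r i := by
    intro i j hij
    apply ev_sep h3
    intro w
    rw [← key w i j hij, ← key w i (r i) (hr i)]
  have hsurj : Function.Surjective r := by
    intro j
    obtain ⟨i, hi⟩ := hcol j
    exact ⟨i, (huniq i j hi).symm⟩
  have hbij : Function.Bijective r := (Finite.surjective_iff_bijective).1 hsurj
  let e : Perm (Fin n) := Equiv.ofBijective r hbij
  have hiff : ∀ i j, M i j ≠ 0 ↔ i = e.symm j := by
    intro i j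
    constructor
    · intro hij
      rw [Equiv.eq_symm_apply]
      exact (huniq i j hij).symm
    · intro hi
      rw [Equiv.eq_symm_apply] at hi
      have h7 : r i = j := hi
      rw [← h7]
      exact hr i
  refine ⟨e.symm, ?_, hiff⟩
  intro w
  apply Subtype.ext
  funext i
  rw [pm_apply]
  apply key w i
  rw [hiff]
  simp

/-- A diagonal matrix of determinant one with entries of square one is in the standard group. -/
theorem mem_dg {n : ℕ} {F : Type*} [Field F] (h2 : (2 : F) ≠ 0)
    (g : Matrix.SpecialLinearGroup (Fin n) F)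
    (hd : ∀ i j, i ≠ j → (g : Matrix (Fin n) (Fin n) F) i j = 0)
    (hs : ∀ i, (g : Matrix (Fin n) (Fin n) F) i i * (g : Matrix (Fin n) (Fin n) F) i i = 1) :
    ∃ w : Ev n, g = dg F w := by
  have hc : ∀ i, ∃ u : ℤˣ, sg F u = (g : Matrix (Fin n) (Fin n) F) i i := by
    intro i
    rcases mul_self_eq_one_iff.1 (hs i) with h | h
    · exact ⟨1, by rw [h, map_one]⟩
    · refine ⟨-1, ?_⟩
      rw [h, sg_apply]
      simp
  choose u hu using hc
  have hg : (g : Matrix (Fin n) (Fin n) F) = Matrix.diagonal (fun i => sg F (u i)) := by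
    ext i j
    by_cases hij : i = j
    · subst hij
      rw [Matrix.diagonal_apply_eq, hu]
    · rw [Matrix.diagonal_apply_ne _ hij, hd i j hij]
  have hu1 : u ∈ Ev n := by
    rw [Ev.mem_iff]
    apply sg_injective h2
    rw [map_prod, map_one, ← Matrix.det_diagonal, ← hg]
    exact g.2
  refine ⟨⟨u, hu1⟩, ?_⟩
  apply Subtype.ext
  exact hg

/-- A scalar matrix is trivial in `PSL`. -/
theorem pr_scalar {n : ℕ} {F : Type*} [Field F]
    (g : Matrix.SpecialLinearGroup (Fin n) F)
    (hd : ∀ i j, i ≠ j → (g : Matrix (Fin n) (Fin n) F) i j = 0)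
    (hs : ∀ i j, (g : Matrix (Fin n) (Fin n) F) i i = (g : Matrix (Fin n) (Fin n) F) j j) :
    pr g = 1 := by
  rw [pr_eq_one_iff, Subgroup.mem_center_iff]
  intro a
  apply Subtype.ext
  rcases Nat.eq_zero_or_pos n with hn | hn
  · subst hn
    ext i
    exact i.elim0
  · let i0 : Fin n := ⟨0, hn⟩
    have hg : (g : Matrix (Fin n) (Fin n) F) =
        Matrix.scalar (Fin n) ((g : Matrix (Fin n) (Fin n) F) i0 i0) := by
      ext i j
      by_cases hij : i = j
      · subst hij
        simp [hs i i0]
      · simp [hd i j hij, hij]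
    have h8 : (a : Matrix (Fin n) (Fin n) F) * (g : Matrix (Fin n) (Fin n) F) =
        (g : Matrix (Fin n) (Fin n) F) * (a : Matrix (Fin n) (Fin n) F) := by
      rw [hg]
      exact (Matrix.scalar_commute _ (fun r' => Commute.all _ r') _).eq.symm
    exact h8

end Pool.Agent.Lib.MP_558536_al_CX
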