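import Mathlib
import Pool.Agent.Lib.MP_558536_al_CX.LiftM
import Pool.Agent.Lib.MP_558536_al_CX.EvM
import Pool.Agent.Lib.MP_558536_al_CX.MonoM

set_option autoImplicit false

/-!
# Project CX, module Std1: products of two involutions acting as transpositions

`x, y ∈ PSL_n(F)` are involutions acting on the standard group (twisted by an automorphism `θ`) as
two distinct transpositions `σ = (i j)`, `σ' = (k l)` with `(σ σ') ^ q = 1`.  Then `(x y) ^ q` is
in the standard group.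

Proof.  Let `a, b` be the involutive lifts (`lift_exists`).  Put `ρ w = θ (pm σ (θ⁻¹ w))`,
`ρ' w = θ (pm σ' (θ⁻¹ w))`.  By `lift_conj` (`dg` is a homomorphism from `Ev n`, so `dg w` is an
involution) `a * dg w = dg (ρ w) * a` and `b * dg w = dg (ρ' w) * b`.  By `exists_perm` there are
`κ, κ'` with `ρ = pm κ`, `ρ' = pm κ'` and the zero patterns.  `κ * κ = 1` by `pm_faithful`
(`ρ (ρ w) = w`, `pm_mul`), and with `u₀` from `swap_defect` and `u = θ u₀`,
`w * pm κ w = θ (v * pm σ v) ∈ {1, u}` for `w = θ v`.  So `κ` is `1` or a transposition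
(`swap_of_defect`); it is not `1` since `σ ≠ 1` (`pm_faithful` again).  Same for `κ'`; `κ ≠ κ'`
since `σ ≠ σ'`; `(κ * κ') ^ q = 1` since `(σ * σ') ^ q = 1` (`pm_faithful`).
Let `D = (a * b) ^ q`.  It satisfies `D * dg w = dg (pm ((κ κ') ^ q) w) * D = dg w * D`
(induction on the exponent), so by `exists_perm` (and `pm_faithful`) it is diagonal,
`D = diag (μ)`.  Since `a * a = 1 = b * b`: `a * D * a = D⁻¹` and `b * D * b = D⁻¹`, i.e.
`D * a * D = a`, `D * b * D = b`.  The entry `(κ c, c)` gives `μ (κ c) * μ c = 1`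
(`a (κ c) c ≠ 0`), and likewise `μ (κ' c) * μ c = 1`.  Hence `μ c * μ c = 1` for every `c`: clear
if `κ c = c` or `κ' c = c`; otherwise `c` is moved by the distinct transpositions `κ`, `κ'`, and
`d = κ c ≠ c` is fixed by `κ'` (else `κ' = swap c d = κ`), so `μ d * μ d = 1` and
`μ c = (μ d)⁻¹`.  By `mem_dg`, `D = dg w`.
-/

namespace Pool.Agent.Lib.MP_558536_al_CX

open Equiv

private theorem std1_mul {n : ℕ} (θ : Ev n ≃* Ev n) {σ σ' κ κ' : Perm (Fin n)}
    (h : ∀ w, θ (pm σ (θ.symm w)) = pm κ w) (h' : ∀ w, θ (pm σ' (θ.symm w)) = pm κ' w) :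
    ∀ w, θ (pm (σ * σ') (θ.symm w)) = pm (κ * κ') w := by
  intro w
  rw [pm_mul, pm_mul, ← h', ← h, MulEquiv.symm_apply_apply]

private theorem std1_pow {n : ℕ} (θ : Ev n ≃* Ev n) {σ κ : Perm (Fin n)}
    (h : ∀ w, θ (pm σ (θ.symm w)) = pm κ w) (m : ℕ) :
    ∀ w, θ (pm (σ ^ m) (θ.symm w)) = pm (κ ^ m) w := by
  induction m with
  | zero =>
    intro w
    rw [pow_zero, pow_zero, pm_one, pm_one, MulEquiv.apply_symm_apply]
  | succ m ih =>
    rw [pow_succ, pow_succ]
    exact std1_mul θ ih h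

private theorem std1_one {n : ℕ} (h3 : 3 ≤ n) (θ : Ev n ≃* Ev n) {κ : Perm (Fin n)}
    (h : ∀ w, θ (pm 1 (θ.symm w)) = pm κ w) : κ = 1 := by
  refine pm_faithful h3 (fun v => ?_)
  rw [← h v, pm_one, MulEquiv.apply_symm_apply]

private theorem std1_one' {n : ℕ} (h3 : 3 ≤ n) (θ : Ev n ≃* Ev n) {σ : Perm (Fin n)}
    (h : ∀ w, θ (pm σ (θ.symm w)) = pm 1 w) : σ = 1 := by
  refine pm_faithful h3 (fun v => ?_)
  have h1 := h (θ v)
  rw [MulEquiv.symm_apply_apply, pm_one] at h1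
  exact θ.injective h1

private theorem std1_sq {n : ℕ} (h3 : 3 ≤ n) (θ : Ev n ≃* Ev n) {i j : Fin n}
    {κ : Perm (Fin n)} (h : ∀ w, θ (pm (swap i j) (θ.symm w)) = pm κ w) : κ * κ = 1 := by
  refine std1_one h3 θ ?_
  have h1 := std1_mul θ h h
  rw [swap_mul_self] at h1
  exact h1

private theorem std1_isSwap {n : ℕ} (hn : Odd n) (h3 : 3 ≤ n) (θ : Ev n ≃* Ev n) {i j : Fin n}
    (hij : i ≠ j) {κ : Perm (Fin n)} (h : ∀ w, θ (pm (swap i j) (θ.symm w)) = pm κ w) :
    ∃ a b, a ≠ b ∧ κ = swap a b := by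
  obtain ⟨u, hu⟩ := swap_defect hij
  rcases swap_of_defect hn (std1_sq h3 θ h) (θ u) (fun w => by
    have e : w * pm κ w = θ (θ.symm w * pm (swap i j) (θ.symm w)) := by
      rw [map_mul, MulEquiv.apply_symm_apply, h]
    rw [e]
    rcases hu (θ.symm w) with h1 | h1
    · left
      rw [h1, map_one]
    · right
      rw [h1]) with h1 | h1
  · exfalso
    rw [h1] at h
    have h2 := std1_one' h3 θ h
    exact hij (swap_eq_one_iff.1 h2)
  · exact h1

private theorem std1_eq_swap {n : ℕ} {κ : Perm (Fin n)} (h : ∃ a b, a ≠ b ∧ κ = swap a b)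
    {c : Fin n} (hc : κ c ≠ c) : κ = swap c (κ c) := by
  obtain ⟨a, b, hab, rfl⟩ := h
  by_cases h1 : c = a
  · subst h1
    rw [swap_apply_left]
  by_cases h2 : c = b
  · subst h2
    rw [swap_apply_right, swap_comm]
  exact absurd (swap_apply_of_ne_of_ne h1 h2) hc

private theorem std1_inv {G : Type*} [Group G] {a b : G} (ha : a * a = 1) (hb : b * b = 1)
    (q : ℕ) : (a * b) ^ q * a * (a * b) ^ q = a ∧ (a * b) ^ q * b * (a * b) ^ q = b := by
  have ha' : a⁻¹ = a := inv_eq_of_mul_eq_one_right ha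
  have hb' : b⁻¹ = b := inv_eq_of_mul_eq_one_right hb
  have e1 : a * (a * b) ^ q * a⁻¹ = ((a * b) ^ q)⁻¹ := by
    rw [← conj_pow, ← inv_pow, mul_inv_rev, ← mul_assoc a a b, ha, one_mul, ha', hb']
  have e2 : b * (a * b) ^ q * b⁻¹ = ((a * b) ^ q)⁻¹ := by
    rw [← conj_pow, ← inv_pow, mul_inv_rev, mul_assoc b (a * b) b⁻¹, mul_assoc a b b⁻¹,
      mul_inv_cancel, mul_one, ha', hb']
  constructor
  · have h1 : a * (a * b) ^ q = ((a * b) ^ q)⁻¹ * a := by
      rw [← e1, mul_assoc, inv_mul_cancel, mul_one]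
    rw [mul_assoc, h1, mul_inv_cancel_left]
  · have h1 : b * (a * b) ^ q = ((a * b) ^ q)⁻¹ * b := by
      rw [← e2, mul_assoc, inv_mul_cancel, mul_one]
    rw [mul_assoc, h1, mul_inv_cancel_left]

private theorem std1_entry {n : ℕ} {F : Type*} [Field F]
    {D a : Matrix.SpecialLinearGroup (Fin n) F}
    (hD : ∀ i j, i ≠ j → (D : Matrix (Fin n) (Fin n) F) i j = 0) (h : D * a * D = a)
    {κ : Perm (Fin n)} (ha : ∀ i j, (a : Matrix (Fin n) (Fin n) F) i j ≠ 0 ↔ i = κ j)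
    (c : Fin n) : (D : Matrix (Fin n) (Fin n) F) (κ c) (κ c) *
      (D : Matrix (Fin n) (Fin n) F) c c = 1 := by
  have e : (D : Matrix (Fin n) (Fin n) F) =
      Matrix.diagonal (fun i => (D : Matrix (Fin n) (Fin n) F) i i) := by
    ext i j
    by_cases hij : i = j
    · subst hij
      rw [Matrix.diagonal_apply_eq]
    · rw [Matrix.diagonal_apply_ne _ hij, hD i j hij]
  have h1 : (D : Matrix (Fin n) (Fin n) F) * (a : Matrix (Fin n) (Fin n) F) *
      (D : Matrix (Fin n) (Fin n) F) = (a : Matrix (Fin n) (Fin n) F) := by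
    rw [← Matrix.SpecialLinearGroup.coe_mul, ← Matrix.SpecialLinearGroup.coe_mul, h]
  have h2 := congrFun (congrFun h1 (κ c)) c
  rw [e, Matrix.mul_diagonal, Matrix.diagonal_mul] at h2
  have h3 : (a : Matrix (Fin n) (Fin n) F) (κ c) c ≠ 0 := (ha (κ c) c).2 rfl
  have h4 : ((D : Matrix (Fin n) (Fin n) F) (κ c) (κ c) *
      (D : Matrix (Fin n) (Fin n) F) c c) * (a : Matrix (Fin n) (Fin n) F) (κ c) c =
      1 * (a : Matrix (Fin n) (Fin n) F) (κ c) c := by
    rw [one_mul]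
    refine Eq.trans ?_ h2
    ring
  exact mul_right_cancel₀ h3 h4

private theorem std1_lift {n : ℕ} (hn : Odd n) {F : Type*} [Field F]
    (θ : Ev n ≃* Ev n) {σ : Perm (Fin n)} {x : PSL n F}
    {a : Matrix.SpecialLinearGroup (Fin n) F} (hax : pr a = x)
    (hxa : ∀ v, x * pr (dg F (θ v)) = pr (dg F (θ (pm σ v))) * x) (w : Ev n) :
    a * dg F w = dg F (θ (pm σ (θ.symm w))) * a := by
  have hdg : ∀ v : Ev n, dg F v * dg F v = 1 := fun v => by
    rw [← map_mul, Ev.mul_self, map_one]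
  refine lift_conj hn (hdg _) (hdg _) ?_
  have h1 := hxa (θ.symm w)
  rw [MulEquiv.apply_symm_apply] at h1
  rw [hax]
  exact h1

theorem std_swap {n : ℕ} (hn : Odd n) (h3 : 3 ≤ n) {F : Type*} [Field F] (h2 : (2 : F) ≠ 0)
    (θ : Ev n ≃* Ev n) {i j k l : Fin n} (hij : i ≠ j) (hkl : k ≠ l)
    (hne : swap i j ≠ swap k l) {q : ℕ} (hq : (swap i j * swap k l) ^ q = 1) {x y : PSL n F}
    (hx : x * x = 1) (hy : y * y = 1)
    (hxa : ∀ v, x * pr (dg F (θ v)) = pr (dg F (θ (pm (swap i j) v))) * x)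
    (hya : ∀ v, y * pr (dg F (θ v)) = pr (dg F (θ (pm (swap k l) v))) * y) :
    ∃ w : Ev n, (x * y) ^ q = pr (dg F w) := by
  obtain ⟨a, ha, hax⟩ := lift_exists hn hx
  obtain ⟨b, hb, hby⟩ := lift_exists hn hy
  have h1 := std1_lift hn θ hax hxa
  have h1' := std1_lift hn θ hby hya
  obtain ⟨κ, hκ1, hκ2⟩ := exists_perm h3 h2 a _ h1
  obtain ⟨κ', hκ1', hκ2'⟩ := exists_perm h3 h2 b _ h1'
  have hs := std1_isSwap hn h3 θ hij hκ1
  have hs' := std1_isSwap hn h3 θ hkl hκ1'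
  have hne' : κ ≠ κ' := by
    intro h
    subst h
    have h4 := std1_mul θ hκ1 hκ1'
    rw [std1_sq h3 θ hκ1] at h4
    have h5 := std1_one' h3 θ h4
    exact hne (by rw [eq_comm, ← swap_inv i j]; exact (inv_eq_of_mul_eq_one_right h5).symm)
  have hq' : (κ * κ') ^ q = 1 := by
    refine std1_one h3 θ ?_
    have h4 := std1_pow θ (std1_mul θ hκ1 hκ1') q
    rw [hq] at h4
    exact h4
  have hcomm : ∀ (m : ℕ) (w : Ev n),
      (a * b) ^ m * dg F w = dg F (pm ((κ * κ') ^ m) w) * (a * b) ^ m := by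
    intro m
    induction m with
    | zero =>
      intro w
      rw [pow_zero, pow_zero, pm_one, one_mul, mul_one]
    | succ m ih =>
      intro w
      rw [pow_succ, pow_succ, mul_assoc, mul_assoc, h1', hκ1', ← mul_assoc a, h1, hκ1,
        ← mul_assoc, ← mul_assoc, ih, ← pm_mul, ← pm_mul, mul_assoc, mul_assoc, mul_assoc]
  obtain ⟨κ'', h4, h5⟩ := exists_perm h3 h2 ((a * b) ^ q) id (fun w => by
    rw [hcomm q w, hq', pm_one, id_eq])
  have h6 : κ'' = 1 := pm_faithful h3 (fun v => (h4 v).symm)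
  subst h6
  have hD : ∀ i j, i ≠ j → (((a * b) ^ q : Matrix.SpecialLinearGroup (Fin n) F) :
      Matrix (Fin n) (Fin n) F) i j = 0 := by
    intro i j hij
    by_contra h
    exact hij ((h5 i j).1 h)
  obtain ⟨hDa, hDb⟩ := std1_inv ha hb q
  have hA := std1_entry hD hDa hκ2
  have hB := std1_entry hD hDb hκ2'
  obtain ⟨w, hw⟩ := mem_dg h2 ((a * b) ^ q) hD (fun c => by
    by_cases hc : κ c = c
    · have h := hA c
      rwa [hc] at h
    by_cases hc' : κ' c = c
    · have h := hB c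
      rwa [hc'] at h
    have hd : κ' (κ c) = κ c := by
      by_contra hd
      apply hne'
      have e1 := std1_eq_swap hs hc
      have e2 := std1_eq_swap hs' hc'
      have e3 : κ c = κ' c := by
        by_contra h
        apply hd
        rw [e2]
        exact swap_apply_of_ne_of_ne hc h
      rw [e1, e2, e3]
    have h7 := hB (κ c)
    rw [hd] at h7
    have h8 := hA c
    have h9 : (((a * b) ^ q : Matrix.SpecialLinearGroup (Fin n) F) :
      Matrix (Fin n) (Fin n) F) (κ c) (κ c) ≠ 0 := left_ne_zero_of_mul_eq_one h7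
    have h10 := mul_left_cancel₀ h9 (h7.trans h8.symm)
    rw [← h10]
    exact h7)
  refine ⟨w, ?_⟩
  rw [← hax, ← hby, ← map_mul, ← map_pow, hw]

end Pool.Agent.Lib.MP_558536_al_CX
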