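import Mathlib
import Pool.Agent.Lib.MP_558536_al_CX.LiftM
import Pool.Agent.Lib.MP_558536_al_CX.EvM
import Pool.Agent.Lib.MP_558536_al_CX.MonoM

set_option autoImplicit false

/-!
# Project CX, module Std2: elements acting as an `n`-cycle

`y ∈ PSL_n(F)` acts on the standard group (twisted by `θ`) as `c = finRotate n`; then `y ^ n = 1`.

Proof.  Let `pr g = y`.  By `lift_conj` `g * dg w = dg (ρ w) * g` with
`ρ w = θ (pm c (θ⁻¹ w))`; by `exists_perm` `ρ = pm κ`.  `κ ^ n = 1` by `pm_faithful`
(`c ^ n = 1`, `rot_pow`).  A vector `w` fixed by `pm κ` is `θ` of a vector fixed by `pm c`, so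
`w = 1` (`rot_fixed`).  Hence by `invariant_set` with `K = {κ}` and `S` the set of all `(κ ^ m) a`,
`m : ℕ` (a `Finset.univ.filter`; invariance uses `κ ^ n = 1`), for any `a, b` there is `m` with
`(κ ^ m) a = b`.  `D = g ^ n` satisfies `D * dg w = dg (pm (κ ^ n) w) * D = dg w * D`, so
it is diagonal (`exists_perm`, `pm_faithful`), `D = diag (μ)`; it commutes with `g`: the entry
`(κ a, a)` of `D * g = g * D` gives `μ (κ a) = μ a`.  So `μ` is constant and `pr D = 1`
(`pr_scalar`).
-/

namespace Pool.Agent.Lib.MP_558536_al_CX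

open Equiv

private theorem dg_sq {n : ℕ} {F : Type*} [Field F] (w : Ev n) : dg F w * dg F w = 1 := by
  rw [← map_mul, Ev.mul_self, map_one]

private theorem trans_of {n : ℕ} (hn : Odd n) {κ : Perm (Fin n)} (hκn : κ ^ n = 1)
    (hfix : ∀ w : Ev n, pm κ w = w → w = 1) (a b : Fin n) : ∃ m : ℕ, (κ ^ m) a = b := by
  classical
  have hpos : 0 < n := hn.pos
  have h := invariant_set hn {κ} (fun v hv => hfix v (hv κ rfl))
    (Finset.univ.filter fun x => ∃ m : ℕ, (κ ^ m) a = x) (by
      intro κ' hκ' x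
      obtain rfl : κ' = κ := hκ'
      simp only [Finset.mem_filter, Finset.mem_univ, true_and]
      constructor
      · rintro ⟨m, hm⟩
        refine ⟨n - 1 + m, κ'.injective ?_⟩
        rw [← hm, ← Perm.mul_apply, ← pow_succ']
        have e : n - 1 + m + 1 = n + m := by omega
        rw [e, pow_add, hκn, one_mul]
      · rintro ⟨m, hm⟩
        exact ⟨m + 1, by rw [pow_succ', Perm.mul_apply, hm]⟩)
  rcases h with h | h
  · have : a ∈ (∅ : Finset (Fin n)) := h ▸ (by
      simp only [Finset.mem_filter, Finset.mem_univ, true_and]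
      exact ⟨0, rfl⟩)
    exact absurd this (Finset.notMem_empty a)
  · have : b ∈ (Finset.univ.filter fun x => ∃ m : ℕ, (κ ^ m) a = x) := by
      rw [h]
      exact Finset.mem_univ b
    simpa using this

theorem std_cycle {n : ℕ} (hn : Odd n) (h3 : 3 ≤ n) {F : Type*} [Field F] (h2 : (2 : F) ≠ 0)
    (θ : Ev n ≃* Ev n) {y : PSL n F}
    (hya : ∀ v, y * pr (dg F (θ v)) = pr (dg F (θ (pm (finRotate n) v))) * y) :
    y ^ n = 1 := by
  obtain ⟨g, rfl⟩ := pr_surjective y
  have hl : ∀ v, g * dg F (θ v) = dg F (θ (pm (finRotate n) v)) * g := fun v =>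
    lift_conj hn (dg_sq _) (dg_sq _) (hya v)
  obtain ⟨κ, hκ, hnz⟩ := exists_perm h3 h2 g (fun w => θ (pm (finRotate n) (θ.symm w)))
    (fun w => by
      have := hl (θ.symm w)
      rwa [θ.apply_symm_apply] at this)
  have hθ : ∀ v, pm κ (θ v) = θ (pm (finRotate n) v) := fun v => by
    rw [← hκ, θ.symm_apply_apply]
  have hθm : ∀ (m : ℕ) v, pm (κ ^ m) (θ v) = θ (pm (finRotate n ^ m) v) := by
    intro m
    induction m with
    | zero => intro v; rfl
    | succ m ih =>
      intro v
      rw [pow_succ', pm_mul, ih, hθ, pow_succ', pm_mul]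
  have hκn : κ ^ n = 1 := by
    refine pm_faithful h3 fun w => ?_
    obtain ⟨v, rfl⟩ := θ.surjective w
    rw [hθm, rot_pow, pm_one]
  have hfix : ∀ w : Ev n, pm κ w = w → w = 1 := by
    intro w hw
    obtain ⟨v, rfl⟩ := θ.surjective w
    rw [hθ] at hw
    rw [rot_fixed hn (θ.injective hw), map_one]
  have hgw : ∀ w, g * dg F w = dg F (pm κ w) * g := fun w => by
    have := hl (θ.symm w)
    rw [θ.apply_symm_apply] at this
    rw [← hκ w]
    exact this
  have hgm : ∀ (m : ℕ) w, g ^ m * dg F w = dg F (pm (κ ^ m) w) * g ^ m := by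
    intro m
    induction m with
    | zero => intro w; rw [pow_zero, one_mul, pow_zero, pm_one, mul_one]
    | succ m ih =>
      intro w
      rw [pow_succ', mul_assoc, ih, ← mul_assoc, hgw, pow_succ', pm_mul, mul_assoc]
  obtain ⟨D, hD⟩ : ∃ D, D = g ^ n := ⟨_, rfl⟩
  obtain ⟨κ', hκ', hnz'⟩ := exists_perm h3 h2 D id (fun w => by
    have := hgm n w
    rw [hκn, pm_one, ← hD] at this
    exact this)
  obtain rfl : κ' = 1 := pm_faithful h3 fun w => (hκ' w).symm
  have hd : ∀ i j, i ≠ j → (D : Matrix (Fin n) (Fin n) F) i j = 0 := by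
    intro i j hij
    by_contra h
    exact hij ((hnz' i j).1 h)
  have hcomm : (D : Matrix (Fin n) (Fin n) F) * (g : Matrix (Fin n) (Fin n) F) =
      (g : Matrix (Fin n) (Fin n) F) * (D : Matrix (Fin n) (Fin n) F) := by
    have h : D * g = g * D := by rw [hD, ← pow_succ, ← pow_succ']
    have := congrArg (fun A : Matrix.SpecialLinearGroup (Fin n) F =>
      (A : Matrix (Fin n) (Fin n) F)) h
    simpa only [Matrix.SpecialLinearGroup.coe_mul] using this
  have hstep : ∀ a, (D : Matrix (Fin n) (Fin n) F) (κ a) (κ a) =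
      (D : Matrix (Fin n) (Fin n) F) a a := by
    intro a
    have h := congrFun (congrFun hcomm (κ a)) a
    rw [Matrix.mul_apply, Matrix.mul_apply, Finset.sum_eq_single (κ a), Finset.sum_eq_single a]
      at h
    · have h0 : (g : Matrix (Fin n) (Fin n) F) (κ a) a ≠ 0 := (hnz _ _).2 rfl
      rw [mul_comm] at h
      exact mul_left_cancel₀ h0 h
    · intro b _ hb
      rw [hd b a hb, mul_zero]
    · intro h'
      exact absurd (Finset.mem_univ _) h'
    · intro b _ hb
      rw [hd (κ a) b hb.symm, zero_mul]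
    · intro h'
      exact absurd (Finset.mem_univ _) h'
  have hpow : ∀ (m : ℕ) a, (D : Matrix (Fin n) (Fin n) F) ((κ ^ m) a) ((κ ^ m) a) =
      (D : Matrix (Fin n) (Fin n) F) a a := by
    intro m
    induction m with
    | zero => intro a; rfl
    | succ m ih =>
      intro a
      rw [pow_succ', Perm.mul_apply, hstep, ih]
  have hs : ∀ i j, (D : Matrix (Fin n) (Fin n) F) i i = (D : Matrix (Fin n) (Fin n) F) j j := by
    intro i j
    obtain ⟨m, rfl⟩ := trans_of hn hκn hfix j i
    exact hpow m j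
  rw [← map_pow, ← hD]
  exact pr_scalar D hd hs

end Pool.Agent.Lib.MP_558536_al_CX
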