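import Mathlib
import Pool.Agent.Lib.MP_558536_al_CX.LiftM
import Pool.Agent.Lib.MP_558536_al_CX.EvM
import Pool.Agent.Lib.MP_558536_al_CX.MonoM

set_option autoImplicit false

/-!
# Project CX, module Std3: elements centralizing the standard group and the permutations modulo it

`c ∈ PSL_n(F)` commutes with the standard group, the elements `y σ` act on it (twisted by `θ`) as
`σ`, and the commutators `c (y σ) c⁻¹ (y σ)⁻¹` are in the standard group.  Then `c` is in the
standard group.

Proof.  Let `pr g = c`.  `g` commutes with all `dg w` (`lift_conj`), so it is diagonal,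
`g = diag (μ)` (`exists_perm` with `ρ = id`, `pm_faithful`), `μ i ≠ 0`.  Let `σ = swap i j`
(`i ≠ j`), `pr h = y σ`.  `h * dg w = dg (ρ w) * h` with `ρ w = θ (pm σ (θ⁻¹ w))` (`lift_conj`),
`ρ = pm κ` with the zero pattern (`exists_perm`).  As in module Std1, `κ * κ = 1`, `κ ≠ 1` and
`κ` is a transposition (`swap_defect`, `swap_of_defect`, `pm_faithful`); in fact only a fixed
point of `κ` is needed (`κ * κ = 1` and `n` odd).  The hypothesis gives `w₀ : Ev n` with
`pr (g * h * g⁻¹ * h⁻¹) = pr (dg w₀)`, so `g * h = dg w₀ * z * h * g` with `z` central, i.e.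
scalar `ζ` with `ζ ^ n = 1` (`pr_eq_iff`, `Matrix.SpecialLinearGroup.mem_center_iff`).  The
entry `(κ p, p)`: `μ (κ p) = ± ζ * μ p` for all `p`.  At a fixed point `p` of `κ`: `ζ = ± 1`, so
`μ (κ p) * μ (κ p) = μ p * μ p` for all `p` (no need for `ζ ^ n = 1`).
Let `a : Fin n` and `S = {p | μ p * μ p = μ a * μ a}`; it is invariant under all the `κ`'s of all
transpositions `σ`; a vector fixed by all `pm κ` is `θ` of a vector fixed by all
`pm (swap i j)`, so it is `1` (`swap_fixed`); by `invariant_set` `S` is everything.  So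
`g * g` is scalar and `c * c = pr (g * g) = 1` (`pr_scalar`).  Let `g'` be the involutive lift of
`c` (`lift_exists`); it commutes with all `dg w` (`lift_conj`), so it is diagonal, with entries of
square one since `g' * g' = 1`; by `mem_dg` `g' = dg w`.
-/

namespace Pool.Agent.Lib.MP_558536_al_CX

open Equiv

private theorem std3_lift {n : ℕ} (hn : Odd n) {F : Type*} [Field F]
    {c : PSL n F} {a : Matrix.SpecialLinearGroup (Fin n) F} (hac : pr a = c) {ρ : Ev n → Ev n}
    (hc : ∀ v, c * pr (dg F v) = pr (dg F (ρ v)) * c) (w : Ev n) :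
    a * dg F w = dg F (ρ w) * a := by
  have hdg : ∀ v : Ev n, dg F v * dg F v = 1 := fun v => by
    rw [← map_mul, Ev.mul_self, map_one]
  refine lift_conj hn (hdg _) (hdg _) ?_
  rw [hac]
  exact hc w

private theorem std3_diag {n : ℕ} (hn : Odd n) (h3 : 3 ≤ n) {F : Type*} [Field F]
    (h2 : (2 : F) ≠ 0) {c : PSL n F} {a : Matrix.SpecialLinearGroup (Fin n) F} (hac : pr a = c)
    (hc : ∀ v, c * pr (dg F v) = pr (dg F v) * c) :
    (∀ i j, i ≠ j → (a : Matrix (Fin n) (Fin n) F) i j = 0) ∧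
      ∀ i, (a : Matrix (Fin n) (Fin n) F) i i ≠ 0 := by
  obtain ⟨κ, h4, h5⟩ := exists_perm h3 h2 a id (std3_lift hn hac (ρ := id) hc)
  have h6 : κ = 1 := pm_faithful h3 (fun v => (h4 v).symm)
  subst h6
  refine ⟨fun i j hij => ?_, fun i => (h5 i i).2 rfl⟩
  by_contra h
  exact hij ((h5 i j).1 h)

private theorem std3_fix {n : ℕ} (hn : Odd n) (h3 : 3 ≤ n) (θ : Ev n ≃* Ev n) {i j : Fin n}
    {κ : Perm (Fin n)} (h : ∀ w, θ (pm (swap i j) (θ.symm w)) = pm κ w) : ∃ p, κ p = p := by
  have h1 : κ * κ = 1 := by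
    refine pm_faithful h3 (fun w => ?_)
    rw [pm_mul, ← h, ← h, MulEquiv.symm_apply_apply, ← pm_mul, swap_mul_self, pm_one,
      MulEquiv.apply_symm_apply]
  have : Fact (Nat.Prime 2) := ⟨Nat.prime_two⟩
  refine Equiv.Perm.exists_fixed_point_of_prime (p := 2) (n := 1) ?_ (by rw [pow_one, pow_two, h1])
  rw [Fintype.card_fin]
  exact hn.not_two_dvd_nat

/-- The entries of `g` along `κ`: `μ (κ p) = ± ζ * μ p`. -/
private theorem std3_entry {n : ℕ} {F : Type*} [Field F]
    {g h z : Matrix.SpecialLinearGroup (Fin n) F} {w : Ev n}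
    (hg : ∀ i j, i ≠ j → (g : Matrix (Fin n) (Fin n) F) i j = 0)
    (hz : z ∈ Subgroup.center (Matrix.SpecialLinearGroup (Fin n) F))
    (he : g * h = dg F w * h * g * z) {κ : Perm (Fin n)}
    (hh : ∀ i j, (h : Matrix (Fin n) (Fin n) F) i j ≠ 0 ↔ i = κ j) :
    ∃ ζ : F, ∀ p, (g : Matrix (Fin n) (Fin n) F) (κ p) (κ p) =
      sg F (w.1 (κ p)) * ζ * (g : Matrix (Fin n) (Fin n) F) p p := by
  obtain ⟨ζ, -, hζ⟩ := Matrix.SpecialLinearGroup.mem_center_iff.1 hz
  refine ⟨ζ, fun p => ?_⟩
  have e : (g : Matrix (Fin n) (Fin n) F) =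
      Matrix.diagonal (fun i => (g : Matrix (Fin n) (Fin n) F) i i) := by
    ext i j
    by_cases hij : i = j
    · subst hij
      rw [Matrix.diagonal_apply_eq]
    · rw [Matrix.diagonal_apply_ne _ hij, hg i j hij]
  have h1 : (g : Matrix (Fin n) (Fin n) F) * (h : Matrix (Fin n) (Fin n) F) =
      Matrix.diagonal (fun i => sg F (w.1 i)) * (h : Matrix (Fin n) (Fin n) F) *
        (g : Matrix (Fin n) (Fin n) F) * (z : Matrix (Fin n) (Fin n) F) := by
    rw [← dg_coe, ← Matrix.SpecialLinearGroup.coe_mul, ← Matrix.SpecialLinearGroup.coe_mul,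
      ← Matrix.SpecialLinearGroup.coe_mul, ← Matrix.SpecialLinearGroup.coe_mul, he]
  have h2 := congrFun (congrFun h1 (κ p)) p
  rw [← hζ, e, Matrix.scalar_apply, Matrix.mul_diagonal, Matrix.mul_diagonal,
    Matrix.diagonal_mul, Matrix.diagonal_mul] at h2
  have h3 : (h : Matrix (Fin n) (Fin n) F) (κ p) p ≠ 0 := (hh (κ p) p).2 rfl
  refine mul_right_cancel₀ h3 (h2.trans ?_)
  ring

theorem std_central {n : ℕ} (hn : Odd n) (h3 : 3 ≤ n) {F : Type*} [Field F] (h2 : (2 : F) ≠ 0)
    (θ : Ev n ≃* Ev n) {c : PSL n F}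
    (hc : ∀ v, c * pr (dg F v) = pr (dg F v) * c) (y : Perm (Fin n) → PSL n F)
    (hya : ∀ σ v, y σ * pr (dg F (θ v)) = pr (dg F (θ (pm σ v))) * y σ)
    (hcy : ∀ σ, ∃ w : Ev n, c * y σ * c⁻¹ * (y σ)⁻¹ = pr (dg F w)) :
    ∃ w : Ev n, c = pr (dg F w) := by
  obtain ⟨g, hg⟩ := pr_surjective c
  obtain ⟨hgd, hg0⟩ := std3_diag hn h3 h2 hg hc
  -- the squares of the entries are invariant under the permutations of the transpositions
  have hinv : ∀ (i j : Fin n) (κ : Perm (Fin n)),
      (∀ w, θ (pm (swap i j) (θ.symm w)) = pm κ w) → ∀ p,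
        (g : Matrix (Fin n) (Fin n) F) (κ p) (κ p) * (g : Matrix (Fin n) (Fin n) F) (κ p) (κ p) =
          (g : Matrix (Fin n) (Fin n) F) p p * (g : Matrix (Fin n) (Fin n) F) p p := by
    intro i j κ hκ
    obtain ⟨h, hh⟩ := pr_surjective (y (swap i j))
    obtain ⟨κ', h4, h5⟩ := exists_perm h3 h2 h _ (std3_lift hn hh
      (ρ := fun w => θ (pm (swap i j) (θ.symm w))) (fun v => by
        have := hya (swap i j) (θ.symm v)
        rwa [MulEquiv.apply_symm_apply] at this))
    have hκκ : κ' = κ := by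
      have h6 : κ⁻¹ * κ' = 1 := by
        refine pm_faithful h3 (fun v => ?_)
        rw [pm_mul, ← h4, hκ, ← pm_mul, inv_mul_cancel, pm_one]
      exact (inv_mul_eq_one.1 h6).symm
    subst hκκ
    obtain ⟨w, hw⟩ := hcy (swap i j)
    have h7 : pr (dg F w * h * g) = pr (g * h) := by
      rw [map_mul, map_mul, map_mul, hg, hh, ← hw]
      group
    rw [pr_eq_iff] at h7
    have h8 : g * h = dg F w * h * g * ((dg F w * h * g)⁻¹ * (g * h)) := by
      rw [mul_inv_cancel_left]
    obtain ⟨ζ, hζ⟩ := std3_entry hgd h7 h8 h5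
    obtain ⟨p, hp⟩ := std3_fix hn h3 θ hκ
    have h9 : ζ * ζ = 1 := by
      have e1 := hζ p
      rw [hp] at e1
      have e2 : sg F (w.1 p) * ζ = 1 := by
        have e3 : (sg F (w.1 p) * ζ) * (g : Matrix (Fin n) (Fin n) F) p p =
          1 * (g : Matrix (Fin n) (Fin n) F) p p := by rw [← e1, one_mul]
        exact mul_right_cancel₀ (hg0 p) e3
      have e4 : ζ * ζ = (sg F (w.1 p) * sg F (w.1 p)) * (ζ * ζ) := by
        rw [sg_mul_self, one_mul]
      rw [e4]
      have e5 : (sg F (w.1 p) * sg F (w.1 p)) * (ζ * ζ) =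
        (sg F (w.1 p) * ζ) * (sg F (w.1 p) * ζ) := by ring
      rw [e5, e2, one_mul]
    intro p
    rw [hζ p]
    have e6 : (sg F (w.1 (κ' p)) * ζ * (g : Matrix (Fin n) (Fin n) F) p p) *
        (sg F (w.1 (κ' p)) * ζ * (g : Matrix (Fin n) (Fin n) F) p p) =
        (sg F (w.1 (κ' p)) * sg F (w.1 (κ' p))) * (ζ * ζ) *
          ((g : Matrix (Fin n) (Fin n) F) p p * (g : Matrix (Fin n) (Fin n) F) p p) := by ring
    rw [e6, sg_mul_self, h9, one_mul, one_mul]
  -- every permutation of the standard group induced by a transposition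
  have hex : ∀ i j : Fin n, ∃ κ : Perm (Fin n),
      ∀ w, θ (pm (swap i j) (θ.symm w)) = pm κ w := by
    intro i j
    obtain ⟨h, hh⟩ := pr_surjective (y (swap i j))
    obtain ⟨κ', h4, -⟩ := exists_perm h3 h2 h _ (std3_lift hn hh
      (ρ := fun w => θ (pm (swap i j) (θ.symm w))) (fun v => by
        have := hya (swap i j) (θ.symm v)
        rwa [MulEquiv.apply_symm_apply] at this))
    exact ⟨κ', h4⟩
  have hsq : ∀ a b : Fin n,
      (g : Matrix (Fin n) (Fin n) F) a a * (g : Matrix (Fin n) (Fin n) F) a a =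
        (g : Matrix (Fin n) (Fin n) F) b b * (g : Matrix (Fin n) (Fin n) F) b b := by
    intro a b
    classical
    have hS := invariant_set hn
      {κ : Perm (Fin n) | ∃ i j, ∀ w, θ (pm (swap i j) (θ.symm w)) = pm κ w} (by
        intro v hv
        have h10 : θ.symm v = 1 := by
          refine swap_fixed hn (fun i j => ?_)
          obtain ⟨κ, hκ⟩ := hex i j
          apply θ.injective
          rw [hκ v, hv κ ⟨i, j, hκ⟩, MulEquiv.apply_symm_apply]
        rw [← MulEquiv.apply_symm_apply θ v, h10, map_one])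
      (Finset.univ.filter (fun p => (g : Matrix (Fin n) (Fin n) F) p p *
        (g : Matrix (Fin n) (Fin n) F) p p = (g : Matrix (Fin n) (Fin n) F) b b *
          (g : Matrix (Fin n) (Fin n) F) b b)) (by
        rintro κ ⟨i, j, hκ⟩ p
        rw [Finset.mem_filter, Finset.mem_filter, hinv i j κ hκ p]
        simp)
    have hb : b ∈ (Finset.univ.filter (fun p => (g : Matrix (Fin n) (Fin n) F) p p *
        (g : Matrix (Fin n) (Fin n) F) p p = (g : Matrix (Fin n) (Fin n) F) b b *
          (g : Matrix (Fin n) (Fin n) F) b b)) := by simp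
    rcases hS with hS | hS
    · rw [hS] at hb
      exact absurd hb (Finset.notMem_empty b)
    · have ha : a ∈ (Finset.univ.filter (fun p => (g : Matrix (Fin n) (Fin n) F) p p *
        (g : Matrix (Fin n) (Fin n) F) p p = (g : Matrix (Fin n) (Fin n) F) b b *
          (g : Matrix (Fin n) (Fin n) F) b b)) := by
        rw [hS]
        exact Finset.mem_univ a
      exact (Finset.mem_filter.1 ha).2
  -- `g * g` is a scalar matrix
  have hgg : ∀ i j, ((g * g : Matrix.SpecialLinearGroup (Fin n) F) :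
      Matrix (Fin n) (Fin n) F) i j =
      (g : Matrix (Fin n) (Fin n) F) i i * (g : Matrix (Fin n) (Fin n) F) i j := by
    intro i j
    rw [Matrix.SpecialLinearGroup.coe_mul, Matrix.mul_apply, Finset.sum_eq_single i]
    · intro b _ hb
      rw [hgd i b (Ne.symm hb), zero_mul]
    · intro h
      exact absurd (Finset.mem_univ _) h
  have hcc : c * c = 1 := by
    rw [← hg, ← map_mul]
    refine pr_scalar (g * g) (fun i j hij => ?_) (fun i j => ?_)
    · rw [hgg, hgd i j hij, mul_zero]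
    · rw [hgg, hgg]
      exact hsq i j
  obtain ⟨a, ha, hac⟩ := lift_exists hn hcc
  obtain ⟨had, -⟩ := std3_diag hn h3 h2 hac hc
  obtain ⟨w, hw⟩ := mem_dg h2 a had (fun i => by
    have h11 := congrFun (congrFun (congrArg (fun A : Matrix.SpecialLinearGroup (Fin n) F =>
      (A : Matrix (Fin n) (Fin n) F)) ha) i) i
    simp only [Matrix.SpecialLinearGroup.coe_mul, Matrix.SpecialLinearGroup.coe_one,
      Matrix.one_apply_eq] at h11
    rw [Matrix.mul_apply, Finset.sum_eq_single i] at h11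
    · exact h11
    · intro b _ hb
      rw [had i b (Ne.symm hb), zero_mul]
    · intro h
      exact absurd (Finset.mem_univ _) h)
  exact ⟨w, by rw [← hac, hw]⟩

end Pool.Agent.Lib.MP_558536_al_CX
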