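import Mathlib
import Pool.Agent.Lib.MP_558536_al_CX.Red
import Pool.Agent.Lib.MP_558536_al_CX.Std1
import Pool.Agent.Lib.MP_558536_al_CX.Std2
import Pool.Agent.Lib.MP_558536_al_CX.Std3

set_option autoImplicit false

/-!
# Project CX, module Facts: the facts for an arbitrary embedding of `Ev n` in `PSL_m(F)`, `m ≤ n`

By `rank_le`, `m = n`; `subst`.  Take `A, θ` from `reduce` and apply `std_swap`, `std_cycle`,
`std_central` to the images under `A`: e.g. `A x * pr (dg (θ v)) = A (x * f v)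
= A (f (pm _ v) * x)`.  In `fact3` the standard theorem needs that `A c` commutes with
`pr (dg v)` for all `v`: write `v = θ (θ⁻¹ v)`.  A result `A z = pr (dg w)` gives
`z = f (θ⁻¹ w)` (`A` is injective), so `z ∈ f.range`.
-/

namespace Pool.Agent.Lib.MP_558536_al_CX

open Equiv

private theorem facts_act {n : ℕ} {F : Type*} [Field F] {f : Ev n →* PSL n F}
    {A : PSL n F ≃* PSL n F} {θ : Ev n ≃* Ev n} (hA : ∀ v, A (f v) = pr (dg F (θ v)))
    {σ : Perm (Fin n)} {x : PSL n F} (hxa : ∀ v, x * f v = f (pm σ v) * x) (v : Ev n) :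
    A x * pr (dg F (θ v)) = pr (dg F (θ (pm σ v))) * A x := by
  rw [← hA, ← hA, ← map_mul, ← map_mul, hxa]

private theorem facts_range {n : ℕ} {F : Type*} [Field F] {f : Ev n →* PSL n F}
    {A : PSL n F ≃* PSL n F} {θ : Ev n ≃* Ev n} (hA : ∀ v, A (f v) = pr (dg F (θ v)))
    {z : PSL n F} {w : Ev n} (h : A z = pr (dg F w)) : z ∈ f.range := by
  refine ⟨θ.symm w, A.injective ?_⟩
  rw [hA, θ.apply_symm_apply, h]

theorem fact1 {n m : ℕ} (hn : Odd n) (h3 : 3 ≤ n) (hm : Odd m) (hmn : m ≤ n) {F : Type*}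
    [Field F] (h2 : (2 : F) ≠ 0) (f : Ev n →* PSL m F) (hf : Function.Injective f)
    {i j k l : Fin n} (hij : i ≠ j) (hkl : k ≠ l) (hne : swap i j ≠ swap k l) {q : ℕ}
    (hq : (swap i j * swap k l) ^ q = 1) {x y : PSL m F} (hx : x * x = 1) (hy : y * y = 1)
    (hxa : ∀ v, x * f v = f (pm (swap i j) v) * x)
    (hya : ∀ v, y * f v = f (pm (swap k l) v) * y) : (x * y) ^ q ∈ f.range := by
  obtain rfl : m = n := le_antisymm hmn (rank_le hm h2 f hf)
  obtain ⟨A, θ, hA⟩ := reduce hn h2 f hf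
  have hx' : A x * A x = 1 := by rw [← map_mul, hx, map_one]
  have hy' : A y * A y = 1 := by rw [← map_mul, hy, map_one]
  obtain ⟨w, hw⟩ := std_swap hn h3 h2 θ hij hkl hne hq hx' hy' (facts_act hA hxa)
    (facts_act hA hya)
  rw [← map_mul, ← map_pow] at hw
  exact facts_range hA hw

theorem fact2 {n m : ℕ} (hn : Odd n) (h3 : 3 ≤ n) (hm : Odd m) (hmn : m ≤ n) {F : Type*}
    [Field F] (h2 : (2 : F) ≠ 0) (f : Ev n →* PSL m F) (hf : Function.Injective f)
    {y : PSL m F} (hya : ∀ v, y * f v = f (pm (finRotate n) v) * y) : y ^ n = 1 := by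
  obtain rfl : m = n := le_antisymm hmn (rank_le hm h2 f hf)
  obtain ⟨A, θ, hA⟩ := reduce hn h2 f hf
  have h := std_cycle hn h3 h2 θ (facts_act hA hya)
  rw [← map_pow] at h
  exact A.injective (h.trans (map_one A).symm)

theorem fact3 {n m : ℕ} (hn : Odd n) (h3 : 3 ≤ n) (hm : Odd m) (hmn : m ≤ n) {F : Type*}
    [Field F] (h2 : (2 : F) ≠ 0) (f : Ev n →* PSL m F) (hf : Function.Injective f)
    {c : PSL m F} (hc : ∀ v, c * f v = f v * c) (y : Perm (Fin n) → PSL m F)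
    (hya : ∀ σ v, y σ * f v = f (pm σ v) * y σ)
    (hcy : ∀ σ, c * y σ * c⁻¹ * (y σ)⁻¹ ∈ f.range) : c ∈ f.range := by
  obtain rfl : m = n := le_antisymm hmn (rank_le hm h2 f hf)
  obtain ⟨A, θ, hA⟩ := reduce hn h2 f hf
  obtain ⟨w, hw⟩ := std_central hn h3 h2 θ (c := A c)
    (fun v => by
      obtain ⟨v, rfl⟩ := θ.surjective v
      rw [← hA, ← map_mul, ← map_mul, hc])
    (fun σ => A (y σ)) (fun σ v => facts_act hA (hya σ) v)
    (fun σ => by
      obtain ⟨v, hv⟩ := hcy σ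
      refine ⟨θ v, ?_⟩
      rw [← hA, hv, map_mul, map_mul, map_mul, map_inv, map_inv])
  exact facts_range hA hw

end Pool.Agent.Lib.MP_558536_al_CX
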