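import Mathlib
import Pool.Agent.Lib.MP_558536_al.TwoLocal
import Pool.Agent.Lib.MP_558536_al_CX.Base
import Pool.Agent.Lib.MP_558536_al_CX.CoxDef

set_option autoImplicit false

/-!
# Project CX, module GDef: the quotient `N_G(T) / T` and its classes of involutions

`t : Ev n →* G` (think of it as injective, `T = t.range`) and `φ : S_n →* G` with
`φ σ * t v = t (pm σ v) * φ σ`.
-/

namespace Pool.Agent.Lib.MP_558536_al_CX

open Equiv

universe u

variable {G : Type u} [Group G] {n : ℕ}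

/-- The normalizer of `T`. -/
def Nm (t : Ev n →* G) : Subgroup G := Subgroup.normalizer (t.range : Set G)

/-- `T` as a subgroup of its normalizer. -/
def Kt (t : Ev n →* G) : Subgroup (Nm t) := t.range.subgroupOf (Nm t)

instance Kt_normal (t : Ev n →* G) : (Kt t).Normal := by
  unfold Kt Nm
  exact Subgroup.normal_in_normalizer

/-- The quotient `N_G(T) / T`. -/
abbrev Yq (t : Ev n →* G) := Nm t ⧸ Kt t

/-- The projection. -/
def qm (t : Ev n →* G) : Nm t →* Yq t := QuotientGroup.mk' (Kt t)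

/-- `x` acts on `T` as the permutation `σ`. -/
def Acts (t : Ev n →* G) (σ : Perm (Fin n)) (x : G) : Prop := ∀ v, x * t v = t (pm σ v) * x

/-- The images of the involutions acting on `T` as the transposition `(i j)`. -/
def II (t : Ev n →* G) (i j : Fin n) : Set (Yq t) :=
  {y | ∃ g : Nm t, qm t g = y ∧ g * g = 1 ∧ Acts t (swap i j) (g : G)}

theorem Acts.mul {t : Ev n →* G} {σ τ : Perm (Fin n)} {x y : G} (hx : Acts t σ x)
    (hy : Acts t τ y) : Acts t (σ * τ) (x * y) := by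
  intro v
  rw [mul_assoc, hy v, ← mul_assoc, hx, mul_assoc]
  rfl

theorem Acts.one {t : Ev n →* G} : Acts t 1 (1 : G) := by
  intro v
  rw [one_mul, mul_one]
  rfl

theorem Acts.inv {t : Ev n →* G} {σ : Perm (Fin n)} {x : G} (hx : Acts t σ x) :
    Acts t σ⁻¹ x⁻¹ := by
  intro v
  have h := hx (pm σ⁻¹ v)
  have e : pm σ (pm σ⁻¹ v) = v := by
    rw [← pm_mul, mul_inv_cancel, pm_one]
  rw [e] at h
  calc x⁻¹ * t v = x⁻¹ * (t v * x) * x⁻¹ := by group
    _ = x⁻¹ * (x * t (pm σ⁻¹ v)) * x⁻¹ := by rw [h]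
    _ = t (pm σ⁻¹ v) * x⁻¹ := by group

theorem Acts.mem_Nm {t : Ev n →* G} {σ : Perm (Fin n)} {x : G} (hx : Acts t σ x) : x ∈ Nm t := by
  unfold Nm
  have : Finite t.range := Set.finite_range t |>.to_subtype
  refine Pool.Agent.Lib.MP_558536_al.mem_normalizer_of_conj_mem t.range x ?_
  rintro _ ⟨v, rfl⟩
  rw [hx v, mul_inv_cancel_right]
  exact ⟨_, rfl⟩

theorem qm_eq_iff {t : Ev n →* G} {a b : Nm t} :
    qm t a = qm t b ↔ ((a : G))⁻¹ * (b : G) ∈ t.range := by
  unfold qm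
  rw [QuotientGroup.mk'_apply, QuotientGroup.mk'_apply, QuotientGroup.eq]
  rfl

theorem qm_eq_one_iff {t : Ev n →* G} {a : Nm t} : qm t a = 1 ↔ (a : G) ∈ t.range := by
  unfold qm
  rw [QuotientGroup.mk'_apply, QuotientGroup.eq_one_iff]
  rfl

/-- The symmetric group in the quotient. -/
def phiY (t : Ev n →* G) (φ : Perm (Fin n) →* G) (hφ : ∀ σ, Acts t σ (φ σ)) :
    Perm (Fin n) →* Yq t :=
  (qm t).comp
    { toFun := fun σ => ⟨φ σ, (hφ σ).mem_Nm⟩
      map_one' := Subtype.ext (map_one φ)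
      map_mul' := fun σ τ => Subtype.ext (map_mul φ σ τ) }

theorem phiY_apply (t : Ev n →* G) (φ : Perm (Fin n) →* G) (hφ : ∀ σ, Acts t σ (φ σ))
    (σ : Perm (Fin n)) : phiY t φ hφ σ = qm t ⟨φ σ, (hφ σ).mem_Nm⟩ := rfl

end Pool.Agent.Lib.MP_558536_al_CX
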