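import Mathlib
import Pool.Agent.Lib.MP_558536_al_CX.GDef

set_option autoImplicit false

/-!
# Project CX, module GCox: the Coxeter data in `N_G(T) / T`

`h1` is the hypothesis of the final theorem (products of two involutions acting as distinct
transpositions).  All fields: `φ = phiY`, `I = II`.

* `symm`: `swap_comm`.
* field `h1`: `g = φ (swap i j)`; `g * g = φ (swap i j * swap i j) = 1`.
* field `h2`: conjugate the representative `g` by `φ σ`; it acts as
  `σ * swap i j * σ⁻¹ = swap (σ i) (σ j)` (`Acts.mul`, `Acts.inv`, `Equiv.swap_apply_apply`).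
* field `h3`: clear.
* field `h4`: representatives `g, h`; `swap i j ≠ swap k l` and
  `(swap i j * swap k l) ^ 2 = 1` (disjoint transpositions commute:
  `Equiv.Perm.Disjoint.commute` or direct `ext`), so `(g * h) ^ 2 ∈ T`, hence in the quotient
  `(x * y) * (x * y) = 1` with `x * x = y * y = 1`, so `x * y = y * x`.
* field `h5`: `(swap i j * swap j k) ^ 3 = 1` (e.g. `Equiv.Perm.isThreeCycle_swap_mul_swap_same`
  and `IsThreeCycle.orderOf`, or the braid relation of transpositions from
  `Equiv.swap_mul_swap_mul_swap`), so `(x * y) ^ 3 = 1` and `x * y * x = y * x * y`.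
* field `h6`: `g * h * g` is an involution (`g * g = h * h = 1`) acting as
  `swap i j * swap j k * swap i j = swap i k`.
-/

namespace Pool.Agent.Lib.MP_558536_al_CX

open Equiv

universe u

variable {G : Type u} [Group G] {n : ℕ}

private theorem gcox_comm {i j k l : Fin n} (hik : i ≠ k) (hil : i ≠ l) (hjk : j ≠ k)
    (hjl : j ≠ l) : swap i j * swap k l = swap k l * swap i j := by
  rw [Equiv.mul_swap_eq_swap_mul, swap_apply_of_ne_of_ne hik.symm hjk.symm,
    swap_apply_of_ne_of_ne hil.symm hjl.symm]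

private theorem gcox_braid {i j k : Fin n} (hjk : j ≠ k) (hik : i ≠ k) :
    swap i j * swap j k * swap i j = swap i k := by
  have h := Equiv.swap_mul_swap_mul_swap (x := k) (y := j) (z := i) hjk.symm hik.symm
  rw [swap_comm j i, swap_comm k j] at h
  exact h

private theorem gcox_ne {i j k l : Fin n} (hij : i ≠ j) (hik : i ≠ k) (hil : i ≠ l) :
    swap i j ≠ swap k l := by
  intro h
  have h2 := congrArg (fun σ : Perm (Fin n) => σ i) h
  simp only [swap_apply_left, swap_apply_of_ne_of_ne hik hil] at h2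
  exact hij h2.symm

private theorem gcox_sq {i j k l : Fin n} (hik : i ≠ k) (hil : i ≠ l) (hjk : j ≠ k)
    (hjl : j ≠ l) : (swap i j * swap k l) ^ 2 = 1 := by
  rw [pow_two]
  calc swap i j * swap k l * (swap i j * swap k l)
      = swap i j * (swap k l * swap i j) * swap k l := by simp only [mul_assoc]
    _ = swap i j * (swap i j * swap k l) * swap k l := by rw [gcox_comm hik hil hjk hjl]
    _ = (swap i j * swap i j) * (swap k l * swap k l) := by simp only [mul_assoc]
    _ = 1 := by rw [swap_mul_self, swap_mul_self, one_mul]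

private theorem gcox_cube {i j k : Fin n} (hij : i ≠ j) (hjk : j ≠ k) (hik : i ≠ k) :
    (swap i j * swap j k) ^ 3 = 1 := by
  have e1 := gcox_braid (n := n) hjk hik
  have e2 : swap j k * swap i j * swap j k = swap i k := by
    have h := gcox_braid (n := n) (i := k) (j := j) (k := i) hij.symm hik.symm
    rw [swap_comm k j, swap_comm j i, swap_comm k i] at h
    exact h
  calc (swap i j * swap j k) ^ 3
      = (swap i j * swap j k * swap i j) * (swap j k * swap i j * swap j k) := by
        simp only [pow_succ, pow_zero, one_mul, mul_assoc]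
    _ = 1 := by rw [e1, e2, swap_mul_self]

private theorem gcox_inv {Y : Type*} [Group Y] {x : Y} (hx : x * x = 1) : x⁻¹ = x :=
  inv_eq_of_mul_eq_one_left hx

private theorem gcox_q {t : Ev n →* G} {g h : Nm t} {q : ℕ}
    (hq : ((g : G) * (h : G)) ^ q ∈ t.range) : (qm t g * qm t h) ^ q = 1 := by
  rw [← map_mul, ← map_pow, qm_eq_one_iff]
  exact hq

private theorem gcox_coe {t : Ev n →* G} {g : Nm t} (hg : g * g = 1) :
    (g : G) * (g : G) = 1 := by
  have h := congrArg (Subtype.val) hg
  exact h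

theorem exists_coxData (hn : 4 ≤ n) (t : Ev n →* G) (φ : Perm (Fin n) →* G)
    (hφ : ∀ σ, Acts t σ (φ σ))
    (h1 : ∀ (i j k l : Fin n) (q : ℕ), i ≠ j → k ≠ l → swap i j ≠ swap k l →
      (swap i j * swap k l) ^ q = 1 → ∀ x y : G, x * x = 1 → y * y = 1 →
      Acts t (swap i j) x → Acts t (swap k l) y → (x * y) ^ q ∈ t.range) :
    ∃ C : CoxData (Yq t) n, C.φ = phiY t φ hφ ∧ C.I = II t := by
  refine ⟨{ hn := hn, φ := phiY t φ hφ, I := II t, symm := ?_, h1 := ?_, h2 := ?_, h3 := ?_,
            h4 := ?_, h5 := ?_, h6 := ?_ }, rfl, rfl⟩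
  · intro i j
    unfold II
    rw [swap_comm]
  · intro i j _
    refine ⟨⟨φ (swap i j), (hφ _).mem_Nm⟩, rfl, ?_, hφ _⟩
    apply Subtype.ext
    change φ (swap i j) * φ (swap i j) = 1
    rw [← map_mul, swap_mul_self, map_one]
  · rintro i j σ x _ ⟨g, rfl, hg, hga⟩
    refine ⟨⟨φ σ, (hφ σ).mem_Nm⟩ * g * ⟨φ σ, (hφ σ).mem_Nm⟩⁻¹, ?_, ?_, ?_⟩
    · rw [map_mul, map_mul, map_inv]
      rfl
    · have e : ∀ c : Nm t, c * g * c⁻¹ * (c * g * c⁻¹) = c * (g * g) * c⁻¹ := by
        intro c
        group
      rw [e, hg, mul_one, mul_inv_cancel]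
    · have h := ((hφ σ).mul hga).mul (hφ σ).inv
      rw [Equiv.mul_swap_eq_swap_mul, mul_inv_cancel_right] at h
      exact h
  · rintro i j x _ ⟨g, rfl, hg, -⟩
    rw [← map_mul, hg, map_one]
  · rintro i j k l x y hij hkl hik hil hjk hjl ⟨g, rfl, hg, hga⟩ ⟨h, rfl, hh, hha⟩
    have h2 := gcox_q (h1 i j k l 2 hij hkl (gcox_ne hij hik hil) (gcox_sq hik hil hjk hjl)
      g h (gcox_coe hg) (gcox_coe hh) hga hha)
    have ex : qm t g * qm t g = 1 := by rw [← map_mul, hg, map_one]
    have ey : qm t h * qm t h = 1 := by rw [← map_mul, hh, map_one]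
    rw [pow_two] at h2
    have h3 := gcox_inv h2
    rw [mul_inv_rev, gcox_inv ex, gcox_inv ey] at h3
    exact h3.symm
  · rintro i j k x y hij hjk hik ⟨g, rfl, hg, hga⟩ ⟨h, rfl, hh, hha⟩
    have h2 := gcox_q (h1 i j j k 3 hij hjk (gcox_ne hij hij hik) (gcox_cube hij hjk hik)
      g h (gcox_coe hg) (gcox_coe hh) hga hha)
    have ex : qm t g * qm t g = 1 := by rw [← map_mul, hg, map_one]
    have ey : qm t h * qm t h = 1 := by rw [← map_mul, hh, map_one]
    have h3 : (qm t g * qm t h * qm t g) * (qm t h * qm t g * qm t h) = 1 := by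
      rw [← h2]
      simp only [pow_succ, pow_zero, one_mul, mul_assoc]
    have h4 := eq_inv_of_mul_eq_one_left h3
    rw [mul_inv_rev, mul_inv_rev, gcox_inv ex, gcox_inv ey, ← mul_assoc] at h4
    exact h4
  · rintro i j k x y hij hjk hik ⟨g, rfl, hg, hga⟩ ⟨h, rfl, hh, hha⟩
    refine ⟨g * h * g, ?_, ?_, ?_⟩
    · rw [map_mul, map_mul]
    · calc g * h * g * (g * h * g) = g * (h * (g * g) * h) * g := by simp only [mul_assoc]
        _ = 1 := by rw [hg, mul_one, hh, mul_one, hg]
    · have h2 := (hga.mul hha).mul hga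
      rw [gcox_braid hjk hik] at h2
      exact h2

end Pool.Agent.Lib.MP_558536_al_CX
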