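import Mathlib
import Pool.Agent.Lib.MP_558536_al.TwoLocal
import Pool.Agent.Lib.MP_558536_al_CX.GCox
import Pool.Agent.Lib.MP_558536_al_CX.CoxG
import Pool.Agent.Lib.MP_558536_al_CX.EvM

set_option autoImplicit false

/-!
# Project CX, module GFin: the finite set of classes of involutions

* `R_lift`: every element of `R` is the image of an element `g` of `N_G(T)` acting trivially on
  `T`: closure induction; a generator is `x * s i j` with `x = qm g`, `g` acting as `swap i j`
  (`C.I = II t`), and `s i j = phiY (swap i j) = qm (φ (swap i j))`; the product acts as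
  `swap i j * swap i j = 1` (`Acts.mul`).
* `classes_finite`: the union of all `II t i j` (`i ≠ j`) is finite.  Take `C` from
  `exists_coxData`; `Yq t` is periodic (`torsion_quotient`) and its finite subgroups have order at
  most `B` (`card_quotient_subgroup_le` for the normal subgroup `Kt t` of `Nm t`; finite subgroups
  of `Nm t` map injectively to finite subgroups of `G`).  Hypothesis `h7` of `CoxData.R_finite`
  with `c = finRotate n` (`rot_pow`, `rot_move`): for `r ∈ R` take `g` from `R_lift`;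
  `g * φ c` acts as `c`, so `(g * φ c) ^ n ∈ t.range` by `h2`, so `(r * C.φ c) ^ n = 1`.
  Hence `R` is finite; `x ∈ II t i j` gives `x = (x * s i j) * s i j` with `x * s i j ∈ R`
  (`Subgroup.subset_closure`), so the union is contained in the image of the finite set
  `R × {s i j}` under multiplication.
-/

namespace Pool.Agent.Lib.MP_558536_al_CX

open Equiv

universe u

variable {G : Type u} [Group G] {n : ℕ}

theorem R_lift (t : Ev n →* G) (φ : Perm (Fin n) →* G) (hφ : ∀ σ, Acts t σ (φ σ))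
    (C : CoxData (Yq t) n) (hC : C.φ = phiY t φ hφ) (hI : C.I = II t) :
    ∀ r ∈ C.R, ∃ g : Nm t, qm t g = r ∧ Acts t 1 (g : G) := by
  intro r hr
  refine Subgroup.closure_induction (p := fun r _ => ∃ g : Nm t, qm t g = r ∧ Acts t 1 (g : G))
    ?_ ?_ ?_ ?_ hr
  · rintro _ ⟨i, j, hij, x, hx, rfl⟩
    rw [hI] at hx
    obtain ⟨g, rfl, _, hg⟩ := hx
    refine ⟨g * ⟨φ (swap i j), (hφ _).mem_Nm⟩, ?_, ?_⟩
    · rw [map_mul, CoxData.s, hC, phiY_apply]
    · have h := hg.mul (hφ (swap i j))
      rw [swap_mul_self] at h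
      exact h
  · exact ⟨1, map_one _, Acts.one⟩
  · rintro x y _ _ ⟨g, rfl, hg⟩ ⟨h, rfl, hh⟩
    refine ⟨g * h, map_mul _ _ _, ?_⟩
    have := hg.mul hh
    rw [mul_one] at this
    exact this
  · rintro x _ ⟨g, rfl, hg⟩
    refine ⟨g⁻¹, map_inv _ _, ?_⟩
    have := hg.inv
    rw [inv_one] at this
    exact this

theorem classes_finite (hG : ∀ x : G, IsOfFinOrder x) {B : ℕ}
    (hB : ∀ K : Subgroup G, (K : Set G).Finite → Nat.card K ≤ B) (hn : 4 ≤ n)
    (t : Ev n →* G) (φ : Perm (Fin n) →* G)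
    (hφ : ∀ σ, Acts t σ (φ σ))
    (h1 : ∀ (i j k l : Fin n) (q : ℕ), i ≠ j → k ≠ l → swap i j ≠ swap k l →
      (swap i j * swap k l) ^ q = 1 → ∀ x y : G, x * x = 1 → y * y = 1 →
      Acts t (swap i j) x → Acts t (swap k l) y → (x * y) ^ q ∈ t.range)
    (h2 : ∀ y : G, Acts t (finRotate n) y → y ^ n ∈ t.range) :
    {y : Yq t | ∃ i j, i ≠ j ∧ y ∈ II t i j}.Finite := by
  obtain ⟨C, hC, hI⟩ := exists_coxData hn t φ hφ h1
  have hfT : (t.range : Set G).Finite := Set.finite_range t
  have hfK : (Kt t : Set (Nm t)).Finite := by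
    refine Set.Finite.of_finite_image (f := Subtype.val) (hfT.subset ?_)
      Subtype.val_injective.injOn
    rintro _ ⟨x, hx, rfl⟩
    exact hx
  have hN : ∀ x : Nm t, IsOfFinOrder x := by
    intro x
    obtain ⟨m, hm, hx⟩ := isOfFinOrder_iff_pow_eq_one.1 (hG (x : G))
    exact isOfFinOrder_iff_pow_eq_one.2 ⟨m, hm, Subtype.ext (by simpa using hx)⟩
  have hBN : ∀ F : Subgroup (Nm t), (F : Set (Nm t)).Finite → Nat.card F ≤ B := by
    intro F hF
    have h := hB (F.map (Nm t).subtype) (by rw [Subgroup.coe_map]; exact hF.image _)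
    have e : Nat.card (F.map (Nm t).subtype) = Nat.card F :=
      Nat.card_congr (F.equivMapOfInjective _ (Nm t).subtype_injective).symm.toEquiv
    rwa [e] at h
  have hY : ∀ x : Yq t, IsOfFinOrder x :=
    Pool.Agent.Lib.MP_558536_al.torsion_quotient (Kt t) hN
  have hBY : ∀ F : Subgroup (Yq t), (F : Set (Yq t)).Finite → Nat.card F ≤ B := fun F hF =>
    Pool.Agent.Lib.MP_558536_al.card_quotient_subgroup_le (Kt t) hfK hBN F hF
  have hR := C.R_finite hY hBY (finRotate n) (rot_pow n) (rot_move n) (by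
    intro r hr
    obtain ⟨g, rfl, hg⟩ := R_lift t φ hφ C hC hI r hr
    rw [hC, phiY_apply, ← map_mul, ← map_pow, qm_eq_one_iff]
    have h := hg.mul (hφ (finRotate n))
    rw [one_mul] at h
    exact h2 _ h)
  refine ((hR.prod (Set.finite_univ (α := Fin n × Fin n))).image
    (fun a => a.1 * C.s a.2.1 a.2.2)).subset ?_
  rintro y ⟨i, j, hij, hy⟩
  refine ⟨(y * C.s i j, (i, j)), ⟨Subgroup.subset_closure ⟨i, j, hij, y, by rw [hI]; exact hy,
    rfl⟩, Set.mem_univ _⟩, ?_⟩
  simp only
  rw [mul_assoc, C.s_mul_self, mul_one]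

end Pool.Agent.Lib.MP_558536_al_CX
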