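import Mathlib
import Pool.Agent.Lib.MP_558536_al.TwoLocal
import Pool.Agent.Lib.MP_558536_al_CX.GFin

set_option autoImplicit false

/-!
# Project CX, module GEnd: finiteness of `G`

Suppose `G` is infinite.  `t.range` has order a power of `2` (`Ev n` is a finite 2-group:
`IsPGroup 2`, `Ev.mul_self`, mapped by `t`; `IsPGroup.iff_card`), so its centralizer `Z` is infinite
(`Pool.Agent.Lib.MP_558536_al.centralizer_infinite`); `c ∈ Z` iff `Acts t 1 c`.  For `c ∈ Z` and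
`i ≠ j` the element `qm c * phiY (swap i j) * (qm c)⁻¹` is in `II t i j` (representative
`c * φ (swap i j) * c⁻¹`), so it is in the finite set `M` of `classes_finite`.  The map
`c ↦ (fun i j => qm c * phiY (swap i j) * (qm c)⁻¹)` from the infinite set `Z` takes finitely
many values (functions `Fin n → Fin n → M ∪ {1}`; for `i = j` the value is `1`), so some fibre is
infinite (`Set.Infinite.exists_ne_map_eq...`; `Set.Finite.preimage'` contrapositive).  As
`t.range` is finite, the fibre contains `c₀, c₁` with `c₀⁻¹ * c₁ ∉ t.range`.  Put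
`c = c₀⁻¹ * c₁ ∈ Z`: `qm c` commutes with `phiY (swap i j)` for all `i, j`, hence with
`phiY σ` for all `σ` (`Equiv.Perm.swap_induction_on`), i.e.
`c * φ σ * c⁻¹ * (φ σ)⁻¹ ∈ t.range` (`qm_eq_one_iff`).  By `h3`, `c ∈ t.range`: contradiction.
-/

namespace Pool.Agent.Lib.MP_558536_al_CX

open Equiv

universe u

variable {G : Type u} [Group G] {n : ℕ}

theorem finite_of_cox (hG : ∀ x : G, IsOfFinOrder x) {B : ℕ}
    (hB : ∀ K : Subgroup G, (K : Set G).Finite → Nat.card K ≤ B) (hn : 4 ≤ n)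
    (t : Ev n →* G) (φ : Perm (Fin n) →* G)
    (hφ : ∀ σ, Acts t σ (φ σ))
    (h1 : ∀ (i j k l : Fin n) (q : ℕ), i ≠ j → k ≠ l → swap i j ≠ swap k l →
      (swap i j * swap k l) ^ q = 1 → ∀ x y : G, x * x = 1 → y * y = 1 →
      Acts t (swap i j) x → Acts t (swap k l) y → (x * y) ^ q ∈ t.range)
    (h2 : ∀ y : G, Acts t (finRotate n) y → y ^ n ∈ t.range)
    (h3 : ∀ c : G, Acts t 1 c → (∀ σ, c * φ σ * c⁻¹ * (φ σ)⁻¹ ∈ t.range) → c ∈ t.range) :
    Finite G := by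
  classical
  by_contra hinf
  obtain ⟨m, hm⟩ : ∃ m : ℕ, Nat.card t.range = 2 ^ m := by
    have hp : IsPGroup 2 (Ev n) := by
      intro v
      exact ⟨1, by rw [pow_one, pow_two, Ev.mul_self]⟩
    have hp2 : IsPGroup 2 t.range := hp.of_surjective t.rangeRestrict t.rangeRestrict_surjective
    exact IsPGroup.iff_card.1 hp2
  have hZ := Pool.Agent.Lib.MP_558536_al.centralizer_infinite hG hB hinf t.range hm
  have hact : ∀ c ∈ (Subgroup.centralizer (t.range : Set G) : Set G), Acts t 1 c := by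
    intro c hc v
    rw [SetLike.mem_coe, Subgroup.mem_centralizer_iff] at hc
    rw [pm_one]
    exact (hc (t v) ⟨v, rfl⟩).symm
  have hM := classes_finite hG hB hn t φ hφ h1 h2
  have hinfZ : Infinite {c : G // Acts t 1 c} := by
    have h4 : {c : G | Acts t 1 c}.Infinite := hZ.mono hact
    exact h4.to_subtype
  let F : {c : G // Acts t 1 c} → (Fin n → Fin n → Yq t) := fun c i j =>
    qm t ⟨c.1, c.2.mem_Nm⟩ * phiY t φ hφ (swap i j) * (qm t ⟨c.1, c.2.mem_Nm⟩)⁻¹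
  have hF : (Set.range F).Finite := by
    have hA : (insert (1 : Yq t) {y : Yq t | ∃ i j, i ≠ j ∧ y ∈ II t i j}).Finite := hM.insert 1
    have hB1 : {f : Fin n → Yq t | ∀ j, f j ∈
        insert (1 : Yq t) {y : Yq t | ∃ i j, i ≠ j ∧ y ∈ II t i j}}.Finite :=
      Set.Finite.pi' (fun _ => hA)
    have hB2 : {f : Fin n → Fin n → Yq t | ∀ i, f i ∈ {f : Fin n → Yq t | ∀ j, f j ∈
        insert (1 : Yq t) {y : Yq t | ∃ i j, i ≠ j ∧ y ∈ II t i j}}}.Finite :=
      Set.Finite.pi' (fun _ => hB1)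
    refine hB2.subset ?_
    rintro _ ⟨c, rfl⟩ i j
    by_cases hij : i = j
    · subst hij
      left
      change qm t ⟨c.1, c.2.mem_Nm⟩ * phiY t φ hφ (swap i i) * (qm t ⟨c.1, c.2.mem_Nm⟩)⁻¹ = 1
      rw [swap_self]
      have h5 : phiY t φ hφ (Equiv.refl (Fin n)) = 1 := map_one (phiY t φ hφ)
      rw [h5, mul_one, mul_inv_cancel]
    · right
      refine ⟨i, j, hij, ?_⟩
      refine ⟨⟨c.1, c.2.mem_Nm⟩ * ⟨φ (swap i j), (hφ (swap i j)).mem_Nm⟩ *
        (⟨c.1, c.2.mem_Nm⟩)⁻¹, ?_, ?_, ?_⟩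
      · rw [map_mul, map_mul, map_inv, ← phiY_apply]
      · apply Subtype.ext
        have h6 : φ (swap i j) * φ (swap i j) = 1 := by
          rw [← map_mul, swap_mul_self, map_one]
        change c.1 * φ (swap i j) * c.1⁻¹ * (c.1 * φ (swap i j) * c.1⁻¹) = 1
        calc c.1 * φ (swap i j) * c.1⁻¹ * (c.1 * φ (swap i j) * c.1⁻¹)
            = c.1 * (φ (swap i j) * φ (swap i j)) * c.1⁻¹ := by group
          _ = 1 := by rw [h6, mul_one, mul_inv_cancel]
      · have h7 := (c.2.mul (hφ (swap i j))).mul c.2.inv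
        rw [one_mul, inv_one, mul_one] at h7
        exact h7
  have hFf : Finite (Set.range F) := hF.to_subtype
  obtain ⟨y, hy⟩ := Finite.exists_infinite_fiber (Set.rangeFactorization F)
  have hfib : ∀ c : {c : G // Acts t 1 c}, c ∈ (Set.rangeFactorization F) ⁻¹' {y} →
      F c = y.1 := by
    intro c hc
    have := congrArg Subtype.val (Set.mem_singleton_iff.1 hc)
    exact this
  obtain ⟨c0, hc0⟩ := (Set.infinite_coe_iff.1 hy).nonempty
  have htf : (t.range : Set G).Finite := Set.finite_range t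
  obtain ⟨c1, hc1, hc1'⟩ : ∃ c1 : {c : G // Acts t 1 c},
      c1 ∈ (Set.rangeFactorization F) ⁻¹' {y} ∧ c0.1⁻¹ * c1.1 ∉ t.range := by
    by_contra hcon
    push Not at hcon
    have h8 : ((Set.rangeFactorization F) ⁻¹' {y}).Finite := by
      refine Set.Finite.of_finite_image (f := fun c : {c : G // Acts t 1 c} => c0.1⁻¹ * c.1)
        (htf.subset ?_) ?_
      · rintro _ ⟨c, hc, rfl⟩
        exact hcon c hc
      · intro a _ b _ hab
        exact Subtype.ext (mul_left_cancel hab)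
    exact (Set.infinite_coe_iff.1 hy) h8
  have e0 := hfib c0 hc0
  have e1 := hfib c1 hc1
  have hc : Acts t 1 (c0.1⁻¹ * c1.1) := by
    have h9 := c0.2.inv.mul c1.2
    rw [inv_one, one_mul] at h9
    exact h9
  apply hc1'
  apply h3 _ hc
  have hsw : ∀ i j, Commute (qm t ⟨c0.1⁻¹ * c1.1, hc.mem_Nm⟩) (phiY t φ hφ (swap i j)) := by
    intro i j
    have h10 : F c0 i j = F c1 i j := by rw [e0, e1]
    change qm t ⟨c0.1, c0.2.mem_Nm⟩ * phiY t φ hφ (swap i j) * (qm t ⟨c0.1, c0.2.mem_Nm⟩)⁻¹ =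
      qm t ⟨c1.1, c1.2.mem_Nm⟩ * phiY t φ hφ (swap i j) * (qm t ⟨c1.1, c1.2.mem_Nm⟩)⁻¹ at h10
    have h11 : qm t ⟨c0.1⁻¹ * c1.1, hc.mem_Nm⟩ =
        (qm t ⟨c0.1, c0.2.mem_Nm⟩)⁻¹ * qm t ⟨c1.1, c1.2.mem_Nm⟩ := by
      rw [← map_inv, ← map_mul]
      rfl
    rw [h11]
    change _ * _ = _ * _
    have h12 : phiY t φ hφ (swap i j) = (qm t ⟨c0.1, c0.2.mem_Nm⟩)⁻¹ *
        (qm t ⟨c1.1, c1.2.mem_Nm⟩ * phiY t φ hφ (swap i j) * (qm t ⟨c1.1, c1.2.mem_Nm⟩)⁻¹) *
        qm t ⟨c0.1, c0.2.mem_Nm⟩ := by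
      rw [← h10]
      group
    conv_rhs => rw [h12]
    group
  have hall : ∀ σ, Commute (qm t ⟨c0.1⁻¹ * c1.1, hc.mem_Nm⟩) (phiY t φ hφ σ) := by
    intro σ
    induction σ using Equiv.Perm.swap_induction_on with
    | one => rw [map_one]; exact Commute.one_right _
    | swap_mul f a b _ ih => rw [map_mul]; exact (hsw a b).mul_right ih
  intro σ
  have h13 : qm t (⟨c0.1⁻¹ * c1.1, hc.mem_Nm⟩ * ⟨φ σ, (hφ σ).mem_Nm⟩ *
      (⟨c0.1⁻¹ * c1.1, hc.mem_Nm⟩)⁻¹ * (⟨φ σ, (hφ σ).mem_Nm⟩)⁻¹) = 1 := by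
    rw [map_mul, map_mul, map_mul, map_inv, map_inv, ← phiY_apply t φ hφ, (hall σ).eq]
    group
  exact qm_eq_one_iff.1 h13

end Pool.Agent.Lib.MP_558536_al_CX
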