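import Mathlib
import Pool.Agent.Lib.MP_558536_al.TwoLocal
import Pool.Agent.Lib.MP_558536_al_CX.GDef
import Pool.Agent.Lib.MP_558536_al_CX.Facts

set_option autoImplicit false

/-!
# Project CX, module SatD: the facts in a saturated group (this file: finite_two)

`SatP t` says that every finite subgroup containing `T = t.range` embeds in some `PSL_m(F)` with
`m` odd, `m ≤ n`, `2 ≠ 0` in `F`.

* `finite_two`: `x, y` involutions normalizing the finite group `T` (periodic `G`) lie with `T` in a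
  finite subgroup: apply `Pool.Agent.Lib.MP_558536_al.exists_finite_sup` to `T` and `x * y` — more
  precisely use the concrete subgroup `T ⊔ zpowers (x * y)`, finite because it is contained in the
  finite subgroup given by `exists_finite_sup`; it is normalized by `x`
  (`x * (x * y) * x⁻¹ = (x * y)⁻¹`), so a second application (with `x`) gives a finite
  subgroup containing `T`, `x * y`, `x`, hence `y`.
* `sat1`: with `K` finite containing `T, x, y` and `g : K →* PSL_m(F)` injective put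
  `f v = g ⟨t v, _⟩` (an injective homomorphism `Ev n →* PSL m F`) and apply `fact1` to
  `g ⟨x, _⟩`, `g ⟨y, _⟩`; from `(g x * g y) ^ q = f w` get `(x * y) ^ q = t w` (`g` injective).
* `sat2`: `y` normalizes `T` (`Acts.mem_Nm`), `exists_finite_sup`, `fact2`.
* `sat3`: `K₀ = T ⊔ φ.range` is finite: `T` is normalized by `φ.range`
  (`Subgroup.mul_normal`-style argument inside `Nm t`, or: the set of all `t v * φ σ` is a finite
  subgroup: closed under products since `φ σ * t v = t (pm σ v) * φ σ`; define the `Subgroup`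
  directly with carrier `{g | ∃ v σ, g = t v * φ σ}`).  `c` normalizes `K₀`: `c * t v * φ σ * c⁻¹
  = t v * (c * φ σ * c⁻¹ * (φ σ)⁻¹) * φ σ ∈ T * φ σ` (`mem_normalizer_of_conj_mem`), so
  `exists_finite_sup` gives a finite `K ⊇ K₀ ∪ {c}`; apply `fact3`.
-/

namespace Pool.Agent.Lib.MP_558536_al_CX

open Equiv

universe u w

variable {G : Type u} [Group G] {n : ℕ}

/-- Every finite subgroup containing `T` embeds in some `PSL_m(F)`, `m ≤ n` odd, `2 ≠ 0`. -/
def SatP (t : Ev n →* G) : Prop :=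
  ∀ K : Subgroup G, Finite K → t.range ≤ K →
    ∃ (m : ℕ) (F : Type w) (_ : Field F) (g : K →* PSL m F),
      Odd m ∧ m ≤ n ∧ (2 : F) ≠ 0 ∧ Function.Injective g

theorem finite_two (hG : ∀ x : G, IsOfFinOrder x) (T : Subgroup G) [Finite T] {x y : G}
    (hx : x * x = 1) (hy : y * y = 1) (hxT : ∀ s ∈ T, x * s * x⁻¹ ∈ T)
    (hyT : ∀ s ∈ T, y * s * y⁻¹ ∈ T) :
    ∃ K : Subgroup G, Finite K ∧ T ≤ K ∧ x ∈ K ∧ y ∈ K := by
  have hxi : x⁻¹ = x := inv_eq_of_mul_eq_one_left hx
  have hyi : y⁻¹ = y := inv_eq_of_mul_eq_one_left hy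
  have hxyT : ∀ s ∈ T, (x * y) * s * (x * y)⁻¹ ∈ T := by
    intro s hs
    have h1 := hxT _ (hyT s hs)
    have h2 : (x * y) * s * (x * y)⁻¹ = x * (y * s * y⁻¹) * x⁻¹ := by group
    rw [h2]
    exact h1
  obtain ⟨F, hFf, hTF, hxyF⟩ := Pool.Agent.Lib.MP_558536_al.exists_finite_sup T (x * y) (hG _)
    (Pool.Agent.Lib.MP_558536_al.mem_normalizer_of_conj_mem T _ hxyT)
  have hT'F : T ⊔ Subgroup.zpowers (x * y) ≤ F :=
    sup_le hTF (Subgroup.zpowers_le.2 hxyF)
  have hT'f : Finite (T ⊔ Subgroup.zpowers (x * y) : Subgroup G) :=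
    Finite.of_injective _ (Subgroup.inclusion_injective hT'F)
  have hxT' : ∀ s ∈ T ⊔ Subgroup.zpowers (x * y),
      x * s * x⁻¹ ∈ T ⊔ Subgroup.zpowers (x * y) := by
    have hle : T ⊔ Subgroup.zpowers (x * y) ≤
        (T ⊔ Subgroup.zpowers (x * y)).comap (MulAut.conj x).toMonoidHom := by
      refine sup_le ?_ ?_
      · intro s hs
        exact Subgroup.mem_sup_left (hxT s hs)
      · rw [Subgroup.zpowers_le, Subgroup.mem_comap]
        have h3 : (MulAut.conj x).toMonoidHom (x * y) = (x * y)⁻¹ := by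
          change x * (x * y) * x⁻¹ = (x * y)⁻¹
          rw [mul_inv_rev, hxi, hyi, ← mul_assoc, hx, one_mul]
        rw [h3]
        exact Subgroup.inv_mem _ (Subgroup.mem_sup_right (Subgroup.mem_zpowers _))
    intro s hs
    exact hle hs
  obtain ⟨K, hKf, hTK, hxK⟩ := Pool.Agent.Lib.MP_558536_al.exists_finite_sup
    (T ⊔ Subgroup.zpowers (x * y)) x (hG _)
    (Pool.Agent.Lib.MP_558536_al.mem_normalizer_of_conj_mem _ _ hxT')
  have hxyK : x * y ∈ K := hTK (Subgroup.mem_sup_right (Subgroup.mem_zpowers _))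
  refine ⟨K, hKf, le_trans le_sup_left hTK, hxK, ?_⟩
  have h4 : y = x⁻¹ * (x * y) := by group
  rw [h4]
  exact K.mul_mem (K.inv_mem hxK) hxyK

end Pool.Agent.Lib.MP_558536_al_CX
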