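import Mathlib
import Pool.Agent.Lib.MP_558536_al.TwoLocal
import Pool.Agent.Lib.MP_558536_al_CX.GDef
import Pool.Agent.Lib.MP_558536_al_CX.Facts
import Pool.Agent.Lib.MP_558536_al_CX.SatD

set_option autoImplicit false

/-!
# Project CX, module SatA: the facts in a saturated group (this file: sat1, sat2)

`SatP t` says that every finite subgroup containing `T = t.range` embeds in some `PSL_m(F)` with
`m` odd, `m ≤ n`, `2 ≠ 0` in `F`.

* `finite_two`: `x, y` involutions normalizing the finite group `T` (periodic `G`) lie with `T` in a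
  finite subgroup: apply `Pool.Agent.Lib.MP_558536_al.exists_finite_sup` to `T` and `x * y` — more
  precisely use the concrete subgroup `T ⊔ zpowers (x * y)`, finite because it is contained in the
  finite subgroup given by `exists_finite_sup`; it is normalized by `x`
  (`x * (x * y) * x⁻¹ = (x * y)⁻¹`), so a second application (with `x`) gives a finite
  subgroup containing `T`, `x * y`, `x`, hence `y`.
* `sat1`: with `K` finite containing `T, x, y` and `g : K →* PSL_m(F)` injective put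
  `f v = g ⟨t v, _⟩` (an injective homomorphism `Ev n →* PSL m F`) and apply `fact1` to
  `g ⟨x, _⟩`, `g ⟨y, _⟩`; from `(g x * g y) ^ q = f w` get `(x * y) ^ q = t w` (`g` injective).
* `sat2`: `y` normalizes `T` (`Acts.mem_Nm`), `exists_finite_sup`, `fact2`.
* `sat3`: `K₀ = T ⊔ φ.range` is finite: `T` is normalized by `φ.range`
  (`Subgroup.mul_normal`-style argument inside `Nm t`, or: the set of all `t v * φ σ` is a finite
  subgroup: closed under products since `φ σ * t v = t (pm σ v) * φ σ`; define the `Subgroup`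
  directly with carrier `{g | ∃ v σ, g = t v * φ σ}`).  `c` normalizes `K₀`: `c * t v * φ σ * c⁻¹
  = t v * (c * φ σ * c⁻¹ * (φ σ)⁻¹) * φ σ ∈ T * φ σ` (`mem_normalizer_of_conj_mem`), so
  `exists_finite_sup` gives a finite `K ⊇ K₀ ∪ {c}`; apply `fact3`.
-/

namespace Pool.Agent.Lib.MP_558536_al_CX

open Equiv

universe u w

variable {G : Type u} [Group G] {n : ℕ}

/-- The embedding of the sign vectors in the image of a finite subgroup. -/
private theorem emb_aux (t : Ev n →* G) (ht : Function.Injective t) (hs : SatP.{u, w} t)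
    (K : Subgroup G) (hK : Finite K) (hTK : t.range ≤ K) :
    ∃ (m : ℕ) (F : Type w) (_ : Field F) (g : K →* PSL m F) (f : Ev n →* PSL m F),
      Odd m ∧ m ≤ n ∧ (2 : F) ≠ 0 ∧ Function.Injective g ∧ Function.Injective f ∧
      ∀ v (h : t v ∈ K), f v = g ⟨t v, h⟩ := by
  obtain ⟨m, F, hF, g, hm, hmn, h2, hg⟩ := hs K hK hTK
  have hmem : ∀ v, t v ∈ K := fun v => hTK ⟨v, rfl⟩
  refine ⟨m, F, hF, g, g.comp (t.codRestrict K hmem), hm, hmn, h2, hg, ?_, fun v h => rfl⟩
  intro a b hab
  have h1 := hg hab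
  exact ht (congrArg Subtype.val h1)

private theorem conj_range {t : Ev n →* G} {σ : Perm (Fin n)} {x : G} (hx : Acts t σ x) :
    ∀ s ∈ t.range, x * s * x⁻¹ ∈ t.range := by
  rintro _ ⟨v, rfl⟩
  rw [hx v, mul_inv_cancel_right]
  exact ⟨_, rfl⟩

private theorem range_finite (t : Ev n →* G) : Finite t.range :=
  (Set.finite_range t).to_subtype

theorem sat1 (hG : ∀ x : G, IsOfFinOrder x) (hn : Odd n) (h3 : 3 ≤ n) (t : Ev n →* G)
    (ht : Function.Injective t) (hs : SatP.{u, w} t) :
    ∀ (i j k l : Fin n) (q : ℕ), i ≠ j → k ≠ l → swap i j ≠ swap k l →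
      (swap i j * swap k l) ^ q = 1 → ∀ x y : G, x * x = 1 → y * y = 1 →
      Acts t (swap i j) x → Acts t (swap k l) y → (x * y) ^ q ∈ t.range := by
  intro i j k l q hij hkl hne hq x y hx hy hxa hya
  have hT : Finite t.range := range_finite t
  obtain ⟨K, hK, hTK, hxK, hyK⟩ := finite_two hG t.range hx hy (conj_range hxa) (conj_range hya)
  obtain ⟨m, F, hF, g, f, hm, hmn, h2, hg, hf, hfg⟩ := emb_aux t ht hs K hK hTK
  have hmem : ∀ v, t v ∈ K := fun v => hTK ⟨v, rfl⟩
  have hX : g ⟨x, hxK⟩ * g ⟨x, hxK⟩ = 1 := by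
    rw [← map_mul, ← map_one g]
    exact congrArg g (Subtype.ext hx)
  have hY : g ⟨y, hyK⟩ * g ⟨y, hyK⟩ = 1 := by
    rw [← map_mul, ← map_one g]
    exact congrArg g (Subtype.ext hy)
  have hXa : ∀ v, g ⟨x, hxK⟩ * f v = f (pm (swap i j) v) * g ⟨x, hxK⟩ := by
    intro v
    rw [hfg v (hmem v), hfg _ (hmem _), ← map_mul, ← map_mul]
    exact congrArg g (Subtype.ext (hxa v))
  have hYa : ∀ v, g ⟨y, hyK⟩ * f v = f (pm (swap k l) v) * g ⟨y, hyK⟩ := by
    intro v
    rw [hfg v (hmem v), hfg _ (hmem _), ← map_mul, ← map_mul]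
    exact congrArg g (Subtype.ext (hya v))
  obtain ⟨v, hv⟩ := fact1 hn h3 hm hmn h2 f hf hij hkl hne hq hX hY hXa hYa
  rw [hfg v (hmem v), ← map_mul, ← map_pow] at hv
  exact ⟨v, congrArg Subtype.val (hg hv)⟩

theorem sat2 (hG : ∀ x : G, IsOfFinOrder x) (hn : Odd n) (h3 : 3 ≤ n) (t : Ev n →* G)
    (ht : Function.Injective t) (hs : SatP.{u, w} t) :
    ∀ y : G, Acts t (finRotate n) y → y ^ n = 1 := by
  intro y hya
  have hT : Finite t.range := range_finite t
  obtain ⟨K, hK, hTK, hyK⟩ := Pool.Agent.Lib.MP_558536_al.exists_finite_sup t.range y (hG y)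
    hya.mem_Nm
  obtain ⟨m, F, hF, g, f, hm, hmn, h2, hg, hf, hfg⟩ := emb_aux t ht hs K hK hTK
  have hmem : ∀ v, t v ∈ K := fun v => hTK ⟨v, rfl⟩
  have hYa : ∀ v, g ⟨y, hyK⟩ * f v = f (pm (finRotate n) v) * g ⟨y, hyK⟩ := by
    intro v
    rw [hfg v (hmem v), hfg _ (hmem _), ← map_mul, ← map_mul]
    exact congrArg g (Subtype.ext (hya v))
  have h1 := fact2 hn h3 hm hmn h2 f hf hYa
  rw [← map_pow, ← map_one g] at h1
  exact congrArg Subtype.val (hg h1)

end Pool.Agent.Lib.MP_558536_al_CX
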