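import Mathlib
import Pool.Agent.Lib.MP_558536_al.TwoLocal
import Pool.Agent.Lib.MP_558536_al_CX.GDef
import Pool.Agent.Lib.MP_558536_al_CX.Facts
import Pool.Agent.Lib.MP_558536_al_CX.SatD

set_option autoImplicit false

/-!
# Project CX, module SatB: the facts in a saturated group (this file: sat3)

`SatP t` says that every finite subgroup containing `T = t.range` embeds in some `PSL_m(F)` with
`m` odd, `m ≤ n`, `2 ≠ 0` in `F`.

* `finite_two`: `x, y` involutions normalizing the finite group `T` (periodic `G`) lie with `T` in a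
  finite subgroup: apply `Pool.Agent.Lib.MP_558536_al.exists_finite_sup` to `T` and `x * y` — more
  precisely use the concrete subgroup `T ⊔ zpowers (x * y)`, finite because it is contained in the
  finite subgroup given by `exists_finite_sup`; it is normalized by `x`
  (`x * (x * y) * x⁻¹ = (x * y)⁻¹`), so a second application (with `x`) gives a finite
  subgroup containing `T`, `x * y`, `x`, hence `y`.
* `sat1`: with `K` finite containing `T, x, y` and `g : K →* PSL_m(F)` injective put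
  `f v = g ⟨t v, _⟩` (an injective homomorphism `Ev n →* PSL m F`) and apply `fact1` to
  `g ⟨x, _⟩`, `g ⟨y, _⟩`; from `(g x * g y) ^ q = f w` get `(x * y) ^ q = t w` (`g` injective).
* `sat2`: `y` normalizes `T` (`Acts.mem_Nm`), `exists_finite_sup`, `fact2`.
* `sat3`: `K₀ = T ⊔ φ.range` is finite: `T` is normalized by `φ.range`
  (`Subgroup.mul_normal`-style argument inside `Nm t`, or: the set of all `t v * φ σ` is a finite
  subgroup: closed under products since `φ σ * t v = t (pm σ v) * φ σ`; define the `Subgroup`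
  directly with carrier `{g | ∃ v σ, g = t v * φ σ}`).  `c` normalizes `K₀`: `c * t v * φ σ * c⁻¹
  = t v * (c * φ σ * c⁻¹ * (φ σ)⁻¹) * φ σ ∈ T * φ σ` (`mem_normalizer_of_conj_mem`), so
  `exists_finite_sup` gives a finite `K ⊇ K₀ ∪ {c}`; apply `fact3`.
-/

namespace Pool.Agent.Lib.MP_558536_al_CX

open Equiv

universe u w

variable {G : Type u} [Group G] {n : ℕ}

theorem sat3 (hG : ∀ x : G, IsOfFinOrder x) (hn : Odd n) (h3 : 3 ≤ n) (t : Ev n →* G)
    (ht : Function.Injective t) (hs : SatP.{u, w} t) (φ : Perm (Fin n) →* G)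
    (hφ : ∀ σ, Acts t σ (φ σ)) :
    ∀ c : G, Acts t 1 c → (∀ σ, c * φ σ * c⁻¹ * (φ σ)⁻¹ ∈ t.range) → c ∈ t.range := by
  intro c hc hcφ
  have hc' : ∀ v, c * t v = t v * c := fun v => hc v
  let K₀ : Subgroup G :=
    { carrier := {g | ∃ (v : Ev n) (σ : Perm (Fin n)), g = t v * φ σ}
      one_mem' := ⟨1, 1, by rw [map_one, map_one, one_mul]⟩
      mul_mem' := by
        rintro _ _ ⟨v, σ, rfl⟩ ⟨w, τ, rfl⟩
        refine ⟨v * pm σ w, σ * τ, ?_⟩
        rw [map_mul, map_mul, mul_assoc, ← mul_assoc (φ σ), hφ σ w]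
        simp only [mul_assoc]
      inv_mem' := by
        rintro _ ⟨v, σ, rfl⟩
        refine ⟨pm σ⁻¹ v⁻¹, σ⁻¹, ?_⟩
        have h1 := hφ σ⁻¹ v⁻¹
        rw [← h1, mul_inv_rev, map_inv, map_inv] }
  have hmem : ∀ v σ, t v * φ σ ∈ K₀ := fun v σ => ⟨v, σ, rfl⟩
  have hK₀ : Finite K₀ := by
    have h1 : (K₀ : Set G) ⊆ Set.range fun p : Ev n × Perm (Fin n) => t p.1 * φ p.2 := by
      rintro _ ⟨v, σ, rfl⟩
      exact ⟨(v, σ), rfl⟩
    exact ((Set.finite_range _).subset h1).to_subtype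
  have hTK : t.range ≤ K₀ := by
    rintro _ ⟨v, rfl⟩
    have h1 := hmem v 1
    rwa [map_one, mul_one] at h1
  have hφK : ∀ σ, φ σ ∈ K₀ := by
    intro σ
    have h1 := hmem 1 σ
    rwa [map_one, one_mul] at h1
  have hcN : c ∈ Subgroup.normalizer (K₀ : Set G) := by
    refine Pool.Agent.Lib.MP_558536_al.mem_normalizer_of_conj_mem K₀ c ?_
    rintro _ ⟨v, σ, rfl⟩
    obtain ⟨w, hw⟩ := hcφ σ
    refine ⟨v * w, σ, ?_⟩
    rw [map_mul, hw]
    have h1 := hc' v
    calc c * (t v * φ σ) * c⁻¹ = (c * t v) * φ σ * c⁻¹ := by group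
      _ = (t v * c) * φ σ * c⁻¹ := by rw [h1]
      _ = t v * (c * φ σ * c⁻¹ * (φ σ)⁻¹) * φ σ := by group
  obtain ⟨K, hKf, hK, hcK⟩ :=
    Pool.Agent.Lib.MP_558536_al.exists_finite_sup K₀ c (hG c) hcN
  obtain ⟨m, F, hF, g, hm, hmn, h2, hg⟩ := hs K hKf (hTK.trans hK)
  have htK : ∀ v, t v ∈ K := fun v => hK (hTK ⟨v, rfl⟩)
  let f : Ev n →* PSL m F := g.comp (t.codRestrict K htK)
  have hfa : ∀ v, f v = g ⟨t v, htK v⟩ := fun v => rfl
  have hf : Function.Injective f := by
    intro v w h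
    rw [hfa, hfa] at h
    exact ht (congrArg Subtype.val (hg h))
  have key := fact3 hn h3 hm hmn h2 f hf (c := g ⟨c, hcK⟩) (fun v => by
      rw [hfa, ← map_mul, ← map_mul]
      exact congrArg g (Subtype.ext (hc' v))) (fun σ => g ⟨φ σ, hK (hφK σ)⟩) (fun σ v => by
      rw [hfa, hfa, ← map_mul, ← map_mul]
      exact congrArg g (Subtype.ext (hφ σ v))) (fun σ => by
      obtain ⟨w, hw⟩ := hcφ σ
      refine ⟨w, ?_⟩
      rw [hfa, ← map_inv, ← map_inv, ← map_mul, ← map_mul, ← map_mul]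
      exact congrArg g (Subtype.ext hw))
  obtain ⟨w, hw⟩ := key
  rw [hfa] at hw
  exact ⟨w, congrArg Subtype.val (hg hw)⟩

end Pool.Agent.Lib.MP_558536_al_CX
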