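import Mathlib
import Pool.Agent.Lib.MP_558536_al.TwoLocal
import Pool.Agent.Lib.MP_558536_al_CX.GEnd
import Pool.Agent.Lib.MP_558536_al_CX.Sat
import Pool.Agent.Lib.MP_558536_al_CX.EvA

set_option autoImplicit false

/-!
# Project CX, module Fin: a saturated group is finite

`n ≥ 5`: `finite_of_cox` with `sat1`, `sat2`, `sat3`.  `n = 3`:
`Pool.Agent.Lib.MP_558536_al.finite_of_cubes'` with `T = t.range` (of order `4 = 2 ^ 2`,
`card_Ev`; or any power of 2), `w = φ (finRotate 3)`: for `c` centralizing `T`, `c * w` acts on `T`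
as `finRotate 3`, so `(c * w) ^ 3 = 1` by `sat2`.
-/

namespace Pool.Agent.Lib.MP_558536_al_CX

open Equiv

universe u w

variable {G : Type u} [Group G] {n : ℕ}

theorem finite_of_sat (hG : ∀ x : G, IsOfFinOrder x) {B : ℕ}
    (hB : ∀ K : Subgroup G, (K : Set G).Finite → Nat.card K ≤ B) (hn : Odd n) (h3 : 3 ≤ n)
    (t : Ev n →* G) (ht : Function.Injective t) (φ : Perm (Fin n) →* G)
    (hφ : ∀ σ, Acts t σ (φ σ)) (hs : SatP.{u, w} t) : Finite G := by
  rcases Nat.lt_or_ge n 4 with h4 | h4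
  · obtain rfl : n = 3 := by omega
    have hc : Nat.card t.range = 2 ^ 2 := by
      rw [← Nat.card_congr (MonoidHom.ofInjective ht).toEquiv, card_Ev (by norm_num)]
    refine Pool.Agent.Lib.MP_558536_al.finite_of_cubes' hG hB t.range hc (φ (finRotate 3)) ?_ ?_
    · rintro _ ⟨v, rfl⟩
      rw [hφ (finRotate 3) v, mul_inv_cancel_right]
      exact ⟨_, rfl⟩
    · intro c hcT
      refine ⟨0, ?_⟩
      have h1 : Acts t 1 c := by
        intro v
        rw [pm_one]
        exact (hcT _ ⟨v, rfl⟩).symm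
      have h2 : Acts t (finRotate 3) (c * φ (finRotate 3)) := by
        have h := h1.mul (hφ (finRotate 3))
        rwa [one_mul] at h
      rw [sat2 hG hn h3 t ht hs _ h2, one_pow]
  · exact finite_of_cox hG hB h4 t φ hφ (sat1 hG hn h3 t ht hs)
      (fun y hy => by rw [sat2 hG hn h3 t ht hs y hy]; exact one_mem _)
      (sat3 hG hn h3 t ht hs φ hφ)

end Pool.Agent.Lib.MP_558536_al_CX
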