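import Mathlib
import Pool.Agent.Lib.MP_558536_al_CX.GDef

set_option autoImplicit false

/-!
# Project CX, module StdD: the standard subgroups (this file: std_data only)

* `std_data`: `H` a group with an injective homomorphism `ι` to `PSL_n(F)` (`n` odd, `2 ≠ 0`) whose
  range contains the classes of all signed permutation matrices of determinant one.  Then there
  are `t₀ : Ev n →* H` (injective) and `φ₀ : S_n →* H` with `ι (t₀ v) = pr (dg F v)`,
  `ι (φ₀ σ) = pr (sp hn F σ)` and `Acts t₀ σ (φ₀ σ)`.  Use `MonoidHom.codRestrict` and the inverse of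
  `MonoidHom.ofInjective`.  `pr ∘ dg` is injective: if `dg v` is central, it is scalar
  (`mem_center_iff`), so `v` is constant, `v = 1` as `n` is odd and `∏ v = 1`
  (`sg_injective`).  `sp σ * dg v = dg (pm σ v) * sp σ` by entries.
* `main`: as in `Pool.Agent.Lib.MP_558536_al.main`: if `G` is finite the assertion is clear.
  Otherwise the finite subgroups of `G` have order at most `B = ∑ |H i|`.  Let `i` be such that
  `H i` is isomorphic to a subgroup `L` of `G` with `m i` maximal (`Finset.exists_max_image` on the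
  nonempty set of these indices).  Transport `t₀`, `φ₀` to `G` by `e.symm : H i ≃* L` and
  `L.subtype`.  `SatP` with `n = m i`: a finite `K ⊇ t.range` lies in `L' ≃* H j`, and
  `m j ≤ m i` by the choice of `i`; compose `Subgroup.inclusion`, the isomorphism and `ι j`.
  `finite_of_sat` gives that `G` is finite.
-/

namespace Pool.Agent.Lib.MP_558536_al_CX

open Equiv

universe u v w

private theorem StdD_inj {n : ℕ} (hn : Odd n) {F : Type w} [Field F] (h2 : (2 : F) ≠ 0)
    {v : Ev n} (h : dg F v ∈ Subgroup.center (Matrix.SpecialLinearGroup (Fin n) F)) :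
    v = 1 := by
  obtain ⟨r, _, hr⟩ := Matrix.SpecialLinearGroup.mem_center_iff.1 h
  have h1 : ∀ i, sg F (v.1 i) = r := by
    intro i
    have h3 := congrFun (congrFun hr i) i
    rw [dg_coe, Matrix.diagonal_apply_eq, Matrix.scalar_apply, Matrix.diagonal_apply_eq] at h3
    exact h3.symm
  have i0 : Fin n := ⟨0, hn.pos⟩
  have h3 : ∀ i, v.1 i = v.1 i0 := fun i => sg_injective h2 ((h1 i).trans (h1 i0).symm)
  have h4 : ∏ i, v.1 i = 1 := (Ev.mem_iff v.1).1 v.2
  rw [Finset.prod_congr rfl fun i _ => h3 i, Finset.prod_const, Finset.card_univ,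
    Fintype.card_fin] at h4
  have h5 : v.1 i0 = 1 := by
    rcases Int.units_eq_one_or (v.1 i0) with h5 | h5
    · exact h5
    · rw [h5, hn.neg_one_pow] at h4
      exact absurd h4 (by decide)
  apply Subtype.ext
  funext i
  rw [h3 i, h5]
  rfl

private theorem StdD_comm {n : ℕ} (hn : Odd n) (F : Type w) [Field F] (σ : Perm (Fin n))
    (v : Ev n) : sp hn F σ * dg F v = dg F (pm σ v) * sp hn F σ := by
  apply Subtype.ext
  change spM F σ * Matrix.diagonal (fun i => sg F (v.1 i)) =
    Matrix.diagonal (fun i => sg F ((pm σ v).1 i)) * spM F σ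
  ext i j
  rw [Matrix.mul_diagonal, Matrix.diagonal_mul, spM_apply, pm_apply]
  by_cases h : i = σ j
  · rw [if_pos h, h, Equiv.symm_apply_apply, mul_comm]
  · rw [if_neg h, zero_mul, mul_zero]

theorem std_data {n : ℕ} (hn : Odd n) {F : Type w} [Field F] (h2 : (2 : F) ≠ 0) {H : Type v}
    [Group H] (ι : H →* PSL n F) (hι : Function.Injective ι)
    (hm : ∀ A : Matrix.SpecialLinearGroup (Fin n) F,
      SignedPerm (A : Matrix (Fin n) (Fin n) F) → pr A ∈ ι.range) :
    ∃ (t₀ : Ev n →* H) (φ₀ : Perm (Fin n) →* H), Function.Injective t₀ ∧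
      ∀ σ, Acts t₀ σ (φ₀ σ) := by
  have hd : ∀ v : Ev n, pr.comp (dg F) v ∈ ι.range := by
    intro v
    refine hm (dg F v) ⟨1, v.1, fun i j => ?_⟩
    rw [dg_coe, Perm.one_apply, Matrix.diagonal_apply]
    by_cases h : i = j
    · rw [if_pos h, if_pos h, h]
    · rw [if_neg h, if_neg h]
  have hs : ∀ σ : Perm (Fin n), pr.comp (sp hn F) σ ∈ ι.range := fun σ =>
    hm (sp hn F σ) ⟨σ, fun _ => Perm.sign σ, fun i j => rfl⟩
  let e := (MonoidHom.ofInjective hι).symm.toMonoidHom
  have he : ∀ y, ι (e y) = y := fun y => MonoidHom.apply_ofInjective_symm hι y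
  let t₀ : Ev n →* H := e.comp ((pr.comp (dg F)).codRestrict ι.range hd)
  let φ₀ : Perm (Fin n) →* H := e.comp ((pr.comp (sp hn F)).codRestrict ι.range hs)
  have ht : ∀ v, ι (t₀ v) = pr (dg F v) := fun v => he _
  have hφ : ∀ σ, ι (φ₀ σ) = pr (sp hn F σ) := fun σ => he _
  refine ⟨t₀, φ₀, ?_, ?_⟩
  · rw [injective_iff_map_eq_one]
    intro v hv
    apply StdD_inj hn h2
    rw [← pr_eq_one_iff, ← ht v, hv, map_one]
  · intro σ v
    apply hι
    rw [map_mul, map_mul, ht, ht, hφ, ← map_mul, ← map_mul, StdD_comm]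

end Pool.Agent.Lib.MP_558536_al_CX
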