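import Mathlib
import Pool.Agent.Lib.MP_558536_al_CX.Fin
import Pool.Agent.Lib.MP_558536_al_CX.StdD

set_option autoImplicit false

/-!
# Project CX, module Main: the theorem (this file: main only)

* `std_data`: `H` a group with an injective homomorphism `ι` to `PSL_n(F)` (`n` odd, `2 ≠ 0`) whose
  range contains the classes of all signed permutation matrices of determinant one.  Then there
  are `t₀ : Ev n →* H` (injective) and `φ₀ : S_n →* H` with `ι (t₀ v) = pr (dg F v)`,
  `ι (φ₀ σ) = pr (sp hn F σ)` and `Acts t₀ σ (φ₀ σ)`.  Use `MonoidHom.codRestrict` and the inverse of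
  `MonoidHom.ofInjective`.  `pr ∘ dg` is injective: if `dg v` is central, it is scalar
  (`mem_center_iff`), so `v` is constant, `v = 1` as `n` is odd and `∏ v = 1`
  (`sg_injective`).  `sp σ * dg v = dg (pm σ v) * sp σ` by entries.
* `main`: as in `Pool.Agent.Lib.MP_558536_al.main`: if `G` is finite the assertion is clear.
  Otherwise the finite subgroups of `G` have order at most `B = ∑ |H i|`.  Let `i` be such that
  `H i` is isomorphic to a subgroup `L` of `G` with `m i` maximal (`Finset.exists_max_image` on the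
  nonempty set of these indices).  Transport `t₀`, `φ₀` to `G` by `e.symm : H i ≃* L` and
  `L.subtype`.  `SatP` with `n = m i`: a finite `K ⊇ t.range` lies in `L' ≃* H j`, and
  `m j ≤ m i` by the choice of `i`; compose `Subgroup.inclusion`, the isomorphism and `ι j`.
  `finite_of_sat` gives that `G` is finite.
-/

namespace Pool.Agent.Lib.MP_558536_al_CX

open Equiv

universe u v w

theorem main {r : ℕ} (H : Fin r → Type v) [∀ i, Group (H i)] (hfin : ∀ i, Finite (H i))
    (m : Fin r → ℕ) (hodd : ∀ i, Odd (m i)) (h3 : ∀ i, 3 ≤ m i)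
    (F : Fin r → Type w) [∀ i, Field (F i)] (h2 : ∀ i, (2 : F i) ≠ 0)
    (ι : ∀ i, H i →* PSL (m i) (F i)) (hι : ∀ i, Function.Injective (ι i))
    (hm : ∀ i, ∀ A : Matrix.SpecialLinearGroup (Fin (m i)) (F i),
      SignedPerm (A : Matrix (Fin (m i)) (Fin (m i)) (F i)) → pr A ∈ (ι i).range)
    (G : Type u) [Group G] (hG : ∀ x : G, IsOfFinOrder x)
    (hsat : ∀ K : Subgroup G, Finite K →
      ∃ L : Subgroup G, K ≤ L ∧ ∃ i, Nonempty (L ≃* H i)) :
    ∃ i, Nonempty (G ≃* H i) := by
  classical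
  by_cases hinf : Finite G
  · obtain ⟨L, hL, i, ⟨e⟩⟩ := hsat ⊤ inferInstance
    have hLt : L = ⊤ := top_le_iff.1 hL
    subst hLt
    exact ⟨i, ⟨Subgroup.topEquiv.symm.trans e⟩⟩
  exfalso
  have hB : ∀ K : Subgroup G, (K : Set G).Finite → Nat.card K ≤ ∑ i, Nat.card (H i) := by
    intro K hK
    have hK' : Finite K := hK.to_subtype
    obtain ⟨L, hL, i, ⟨e⟩⟩ := hsat K hK'
    have := hfin i
    have hLf : Finite L := Finite.of_equiv _ e.symm.toEquiv
    calc Nat.card K ≤ Nat.card L := Nat.card_le_card_of_injective _ (Subgroup.inclusion_injective hL)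
      _ = Nat.card (H i) := Nat.card_congr e.toEquiv
      _ ≤ ∑ i, Nat.card (H i) := Finset.single_le_sum (f := fun i => Nat.card (H i))
        (fun _ _ => Nat.zero_le _) (Finset.mem_univ i)
  -- the occurring member with `m` maximal
  let J : Finset (Fin r) := Finset.univ.filter fun j => ∃ L : Subgroup G, Nonempty (L ≃* H j)
  have hJ : J.Nonempty := by
    obtain ⟨L, -, i, he⟩ := hsat ⊥ inferInstance
    exact ⟨i, Finset.mem_filter.2 ⟨Finset.mem_univ _, L, he⟩⟩
  obtain ⟨i, hi, hmax⟩ := J.exists_max_image m hJ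
  obtain ⟨-, L, ⟨e⟩⟩ := Finset.mem_filter.1 hi
  obtain ⟨t₀, φ₀, ht₀, hφ₀⟩ := std_data (hodd i) (h2 i) (ι i) (hι i) (hm i)
  let a : H i →* G := L.subtype.comp e.symm.toMonoidHom
  have ha : Function.Injective a := L.subtype_injective.comp e.symm.injective
  refine hinf (finite_of_sat.{u, w} hG hB (hodd i) (h3 i) (a.comp t₀) (ha.comp ht₀) (a.comp φ₀)
    ?_ ?_)
  · intro σ v
    simp only [MonoidHom.comp_apply, ← map_mul]
    rw [hφ₀ σ v]
  · intro K hK _
    obtain ⟨L', hL', j, ⟨e'⟩⟩ := hsat K hK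
    have hj : j ∈ J := Finset.mem_filter.2 ⟨Finset.mem_univ _, L', ⟨e'⟩⟩
    exact ⟨m j, F j, inferInstance, (ι j).comp (e'.toMonoidHom.comp (Subgroup.inclusion hL')),
      hodd j, hmax j hj, h2 j,
      (hι j).comp (e'.injective.comp (Subgroup.inclusion_injective hL'))⟩

end Pool.Agent.Lib.MP_558536_al_CX
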